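import Pool.Agent.H918.G.Stm

/-! PROJECT PF: `bound_fin`. -/

set_option autoImplicit false

open Polynomial FF Pool.Agent.W603.LV Filter Topology Metric
open scoped Polynomial.Bivariate

namespace Pool.Agent.H918.PF

namespace H597

open IsDedekindDomain IntermediateField

/-- integrality from the places -/
theorem isIntegral_of_ge {L : Type} [Field L] [Algebra ℂ L] [IsFF ℂ L] {x h : L}
    (hx : Transcendental ℂ x) (hh : ∀ Q : Place ℂ L, Q.Reg x → Ge Q 0 h) :
    IsIntegral (Algebra.adjoin ℂ {x}) h := by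
  open scoped algebraAdjoinAdjoin in
  classical
  let A := Algebra.adjoin ℂ {x}
  let e := Polynomial.algEquivOfTranscendental ℂ x hx
  have hpid : IsPrincipalIdealRing A := IsPrincipalIdealRing.of_surjective e.toRingEquiv e.surjective
  have hded : IsDedekindDomain A := inferInstance
  have hfin := IsFF.finite hx
  have hchar : CharZero ℂ⟮x⟯ := charZero_of_injective_algebraMap (algebraMap ℂ ℂ⟮x⟯).injective
  have hsep : Algebra.IsSeparable ℂ⟮x⟯ L := inferInstance
  let B := integralClosure A L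
  have hB : IsDedekindDomain B := integralClosure.isDedekindDomain A ℂ⟮x⟯ L
  have hBL : IsFractionRing B L := integralClosure.isFractionRing_of_finite_extension ℂ⟮x⟯ L
  have hsc : IsScalarTower ℂ B L := by
    refine IsScalarTower.of_algebraMap_eq fun c => ?_
    rw [IsScalarTower.algebraMap_apply ℂ A B, ← IsScalarTower.algebraMap_apply A B L,
      ← IsScalarTower.algebraMap_apply ℂ A L]
  have key : h ∈ (algebraMap B L).range := by
    apply HeightOneSpectrum.mem_integers_of_valuation_le_one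
    intro v
    have h1 : (placeOf (k := ℂ) (L := L) v).Reg x := by
      have h2 := placeOf_reg (k := ℂ) (L := L) v
        (algebraMap A B ⟨x, Algebra.self_mem_adjoin_singleton ℂ x⟩)
      rw [← IsScalarTower.algebraMap_apply A B L] at h2
      exact h2
    rcases hh (placeOf v) h1 with h2 | h2
    · rw [h2, map_zero]
      exact zero_le
    · by_cases h0 : h = 0
      · rw [h0, map_zero]
        exact zero_le
      · exact (placeOf_nonneg v h0).1 h2
  obtain ⟨b, hb⟩ := key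
  rw [← hb]
  exact b.2

/-- the coefficient map -/
noncomputable def evC {L : Type} [Field L] [Algebra ℂ L] (ev : ℂ[X][Y] →ₐ[ℂ] L) : ℂ[X] →+* L :=
  (ev : ℂ[X][Y] →+* L).comp C

theorem evC_eq {L : Type} [Field L] [Algebra ℂ L] (ev : ℂ[X][Y] →ₐ[ℂ] L) (p : ℂ[X]) :
    evC ev p = aeval (ev (C X)) p := by
  have : evC ev = (aeval (ev (C X)) : ℂ[X] →ₐ[ℂ] L).toRingHom := by
    apply Polynomial.ringHom_ext
    · intro a
      show ev (C (C a)) = aeval (ev (C X)) (C a)
      rw [aeval_C]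
      exact ev.commutes a
    · show ev (C X) = aeval (ev (C X)) X
      rw [aeval_X]
  rw [this]
  rfl

/-- a monic relation with polynomial coefficients -/
theorem exists_monic {L : Type} [Field L] [Algebra ℂ L] [IsFF ℂ L] (ev : ℂ[X][Y] →ₐ[ℂ] L) {h : L}
    (hx : Transcendental ℂ (ev (C X))) (hh : ∀ Q : Place ℂ L, Q.Reg (ev (C X)) → Ge Q 0 h) :
    ∃ F : ℂ[X][X], F.Monic ∧ eval₂ (evC ev) h F = 0 := by
  obtain ⟨p, hp, he⟩ := isIntegral_of_ge hx hh
  let φ : ℂ[X] →+* Algebra.adjoin ℂ {ev (C X)} :=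
    ((Polynomial.algEquivOfTranscendental ℂ (ev (C X)) hx : ℂ[X] ≃ₐ[ℂ] _) : ℂ[X] →+* _)
  have hφs : Function.Surjective φ :=
    (Polynomial.algEquivOfTranscendental ℂ (ev (C X)) hx).surjective
  have hφ : (algebraMap (Algebra.adjoin ℂ {ev (C X)}) L).comp φ = evC ev := by
    apply RingHom.ext
    intro q
    rw [evC_eq]
    have h1 := Polynomial.algEquivOfTranscendental_apply ℂ (ev (C X)) hx q
    have h2 := congrArg (fun u : Algebra.adjoin ℂ {ev (C X)} => (u : L)) h1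
    refine Eq.trans h2 ?_
    exact (Subalgebra.aeval_coe _ _ q).symm
  have hl : p ∈ lifts φ := by
    rw [lifts_iff_coeff_lifts]
    intro n
    exact hφs _
  obtain ⟨F, hF1, -, hF2⟩ := lifts_and_natDegree_eq_and_monic hl hp
  refine ⟨F, hF2, ?_⟩
  rw [← hφ, ← eval₂_map, hF1]
  exact he

/-- the bound of a root by the coefficients -/
theorem root_bound {m : ℕ} {a : ℕ → ℂ} {B : ℝ} (hB : 0 ≤ B) (ha : ∀ i, ‖a i‖ ≤ B) {ρ s : ℂ} (hs : s ≠ 0)
    (h : ρ ^ m + ∑ i ∈ Finset.range m, a i * ρ ^ i * s ^ (m - i) = 0) : ‖ρ‖ ≤ (1 + B * m) * ‖s‖ := by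
  by_contra hc
  push Not at hc
  have hs0 : 0 < ‖s‖ := norm_pos_iff.2 hs
  have h1 : ‖s‖ ≤ ‖ρ‖ := by
    have : 0 ≤ B * m * ‖s‖ := by positivity
    nlinarith
  have hρ0 : 0 < ‖ρ‖ := hs0.trans_le h1
  rcases Nat.eq_zero_or_pos m with rfl | hm
  · simp at h
  have h2 : ‖ρ‖ ^ m ≤ ∑ i ∈ Finset.range m, B * ‖ρ‖ ^ (m - 1) * ‖s‖ := by
    have h3 : ρ ^ m = - ∑ i ∈ Finset.range m, a i * ρ ^ i * s ^ (m - i) := eq_neg_of_add_eq_zero_left h
    rw [← norm_pow, h3, norm_neg]
    refine (norm_sum_le _ _).trans (Finset.sum_le_sum fun i hi => ?_)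
    rw [Finset.mem_range] at hi
    rw [norm_mul, norm_mul, norm_pow, norm_pow]
    have e1 : ‖s‖ ^ (m - i) = ‖s‖ ^ (m - 1 - i) * ‖s‖ := by
      rw [← pow_succ]
      congr 1
      omega
    have e2 : ‖ρ‖ ^ (m - 1) = ‖ρ‖ ^ i * ‖ρ‖ ^ (m - 1 - i) := by
      rw [← pow_add]
      congr 1
      omega
    rw [e1, e2]
    have h4 : ‖s‖ ^ (m - 1 - i) ≤ ‖ρ‖ ^ (m - 1 - i) := by gcongr
    calc ‖a i‖ * ‖ρ‖ ^ i * (‖s‖ ^ (m - 1 - i) * ‖s‖) ≤ B * ‖ρ‖ ^ i * (‖ρ‖ ^ (m - 1 - i) * ‖s‖) := by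
          gcongr
          exact ha i
      _ = B * (‖ρ‖ ^ i * ‖ρ‖ ^ (m - 1 - i)) * ‖s‖ := by ring
  rw [Finset.sum_const, Finset.card_range, nsmul_eq_mul] at h2
  have e3 : ‖ρ‖ ^ m = ‖ρ‖ ^ (m - 1) * ‖ρ‖ := by
    rw [← pow_succ]
    congr 1
    omega
  rw [e3] at h2
  have hpos : 0 < ‖ρ‖ ^ (m - 1) := by positivity
  have h5 : ‖ρ‖ ^ (m - 1) * ‖ρ‖ ≤ ‖ρ‖ ^ (m - 1) * (B * m * ‖s‖) := by
    refine h2.trans (le_of_eq ?_)
    ring
  have h6 := le_of_mul_le_mul_left h5 hpos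
  nlinarith

/-- the homogenised relation -/
theorem hom_rel {L : Type} [Field L] [Algebra ℂ L] {c : Place ℂ L} {ev : ℂ[X][Y] →ₐ[ℂ] L} {P : ℂ[X][Y]}
    (hM : Model c ev P) {h : L} {F : ℂ[X][X]} (hF : F.Monic) (he : eval₂ (evC ev) h F = 0)
    {R : ℂ[X][Y]} {S : ℂ[X]} (hRS : h * ev (C S) = ev R) {z y : ℂ} (hz : evalEval z y P = 0) :
    (evalEval z y R) ^ F.natDegree + ∑ i ∈ Finset.range F.natDegree,
      (F.coeff i).eval z * (evalEval z y R) ^ i * (S.eval z) ^ (F.natDegree - i) = 0 := by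
  set m := F.natDegree with hm
  have hG : ev (∑ i ∈ Finset.range (m + 1), C (F.coeff i) * R ^ i * (C S) ^ (m - i)) = 0 := by
    rw [map_sum]
    have h1 : ∀ i ∈ Finset.range (m + 1), ev (C (F.coeff i) * R ^ i * (C S) ^ (m - i)) =
        ev (C S) ^ m * (evC ev (F.coeff i) * h ^ i) := by
      intro i hi
      rw [Finset.mem_range] at hi
      rw [map_mul, map_mul, map_pow, map_pow, ← hRS, mul_pow]
      have e1 : ev (C S) ^ m = ev (C S) ^ i * ev (C S) ^ (m - i) := by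
        rw [← pow_add]
        congr 1
        omega
      rw [e1]
      show ev (C (F.coeff i)) * _ * _ = _ * _ * (ev (C (F.coeff i)) * _)
      ring
    rw [Finset.sum_congr rfl h1, ← Finset.mul_sum]
    rw [eval₂_eq_sum_range] at he
    rw [he, mul_zero]
  rw [hM.ker] at hG
  obtain ⟨E, hE⟩ := hG
  have h2 : evalEval z y (∑ i ∈ Finset.range (m + 1), C (F.coeff i) * R ^ i * (C S) ^ (m - i)) = 0 := by
    rw [hE, evalEval_mul, hz, zero_mul]
  have h3 : evalEval z y (∑ i ∈ Finset.range (m + 1), C (F.coeff i) * R ^ i * (C S) ^ (m - i)) =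
      ∑ i ∈ Finset.range (m + 1), (F.coeff i).eval z * (evalEval z y R) ^ i * (S.eval z) ^ (m - i) := by
    rw [evalEval_finsetSum]
    refine Finset.sum_congr rfl fun i _ => ?_
    rw [evalEval_mul, evalEval_mul, evalEval_pow, evalEval_pow, evalEval_C, evalEval_C]
  rw [h3, Finset.sum_range_succ, Nat.sub_self, pow_zero, mul_one] at h2
  have h4 : F.coeff m = 1 := hF.coeff_natDegree
  rw [h4, eval_one, one_mul] at h2
  rw [← h2]
  ring

end H597

open H597 in
theorem bound_fin {L : Type} [Field L] [Algebra ℂ L] {c : Place ℂ L} {ev : ℂ[X][Y] →ₐ[ℂ] L} {P : ℂ[X][Y]}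
    [IsFF ℂ L] (hM : Model c ev P) {h : L}
    (hh : ∀ Q : Place ℂ L, Q ≠ c → Ge Q 0 h) (r : ℝ) :
    ∃ K : ℝ, ∀ (R : ℂ[X][Y]) (S : ℂ[X]), h * ev (C S) = ev R → ∀ z y : ℂ, ‖z‖ ≤ r →
      evalEval z y P = 0 → S.eval z ≠ 0 → ‖evalEval z y R‖ ≤ K * ‖S.eval z‖ := by
  have hx : Transcendental ℂ (ev (C X)) := c.transcendental_of_ord_ne hM.pole.ne
  have hh' : ∀ Q : Place ℂ L, Q.Reg (ev (C X)) → Ge Q 0 h := by
    intro Q hQ
    apply hh Q
    rintro rfl
    rcases hQ with h0 | h0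
    · have := hM.pole
      rw [h0, Place.ord_zero] at this
      exact lt_irrefl _ this
    · have := hM.pole
      omega
  obtain ⟨F, hF, he⟩ := exists_monic ev hx hh'
  -- the bound of the coefficients
  have hb : ∀ i : ℕ, ∃ b : ℝ, 0 ≤ b ∧ ∀ z : ℂ, ‖z‖ ≤ r → ‖(F.coeff i).eval z‖ ≤ b := by
    intro i
    obtain ⟨b, hb⟩ := (isCompact_closedBall (0 : ℂ) r).exists_bound_of_continuousOn
      ((F.coeff i).continuous.continuousOn)
    refine ⟨max b 0, le_max_right _ _, fun z hz => (hb z ?_).trans (le_max_left _ _)⟩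
    rw [mem_closedBall_zero_iff]
    exact hz
  choose b hb0 hb using hb
  set B : ℝ := ∑ i ∈ Finset.range F.natDegree, b i with hB
  have hB0 : 0 ≤ B := Finset.sum_nonneg fun i _ => hb0 i
  refine ⟨1 + B * F.natDegree, ?_⟩
  intro R S hRS z y hz hP hS
  have h1 := hom_rel hM hF he hRS hP
  refine root_bound (a := fun i => if i < F.natDegree then (F.coeff i).eval z else 0) hB0 ?_ hS ?_
  · intro i
    by_cases hi : i < F.natDegree
    · simp only [hi, if_true]
      exact (hb i z hz).trans (Finset.single_le_sum (f := b) (fun i _ => hb0 i) (Finset.mem_range.2 hi))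
    · simp only [hi, if_false, norm_zero]
      exact hB0
  · rw [← h1]
    congr 1
    refine Finset.sum_congr rfl fun i hi => ?_
    rw [Finset.mem_range] at hi
    simp only [hi, if_true]

end Pool.Agent.H918.PF
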