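import Mathlib

set_option autoImplicit false

open Filter Topology Metric Set

namespace Pool.Agent.H918.PF

namespace DiscrAux

theorem bdd (L : PeriodPair) {g : ℂ → ℂ} (hg : Continuous g)
    (hp : ∀ l ∈ L.lattice, ∀ z, g (z + l) = g z) : ∃ C, ∀ z, ‖g z‖ ≤ C := by
  have hK : IsCompact ((fun p : ℝ × ℝ => (p.1 : ℂ) * L.ω₁ + (p.2 : ℂ) * L.ω₂) ''
      (Icc (0 : ℝ) 1 ×ˢ Icc (0 : ℝ) 1)) := by
    refine (isCompact_Icc.prod isCompact_Icc).image ?_
    fun_prop
  obtain ⟨C, hC⟩ := (hK.image hg).isBounded.exists_norm_le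
  refine ⟨C, fun z => ?_⟩
  have h1 : z = (L.basis.repr z 0 : ℂ) * L.ω₁ + (L.basis.repr z 1 : ℂ) * L.ω₂ := by
    conv_lhs => rw [← L.basis.sum_repr z]
    simp [Fin.sum_univ_two]
  obtain ⟨s, hs⟩ : ∃ s, s = L.basis.repr z 0 := ⟨_, rfl⟩
  obtain ⟨t, ht⟩ : ∃ t, t = L.basis.repr z 1 := ⟨_, rfl⟩
  rw [← hs, ← ht] at h1
  have hl : (-(⌊s⌋ : ℂ)) * L.ω₁ + (-(⌊t⌋ : ℂ)) * L.ω₂ ∈ L.lattice := by
    refine L.lattice.add_mem ?_ ?_
    · have := L.lattice.smul_mem (-⌊s⌋) L.ω₁_mem_lattice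
      simpa using this
    · have := L.lattice.smul_mem (-⌊t⌋) L.ω₂_mem_lattice
      simpa using this
  have h2 := hp _ hl z
  rw [← h2]
  refine hC _ ⟨_, ⟨(Int.fract s, Int.fract t), ⟨⟨Int.fract_nonneg _, (Int.fract_lt_one _).le⟩,
    ⟨Int.fract_nonneg _, (Int.fract_lt_one _).le⟩⟩, ?_⟩, rfl⟩
  simp only [Int.fract]
  conv_rhs => rw [h1]
  push_cast
  ring

theorem P_surj (L : PeriodPair) (c : ℂ) : ∃ z, z ∉ L.lattice ∧ L.weierstrassP z = c := by
  classical
  by_contra hcon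
  push Not at hcon
  obtain ⟨g, hg⟩ : ∃ g : ℂ → ℂ, g = fun z => if z ∈ L.lattice then 0 else
    (L.weierstrassP z - c)⁻¹ := ⟨_, rfl⟩
  have hdiff : Differentiable ℂ g := by
    intro z
    by_cases hz : z ∈ L.lattice
    · have h1 : AnalyticAt ℂ (L.weierstrassPExcept z) z :=
        L.analyticOnNhd_weierstrassPExcept z z (by simp)
      have h2 : AnalyticAt ℂ (fun w : ℂ => (w - z) ^ 2) z :=
        (analyticAt_id.sub analyticAt_const).pow 2
      have h3 : AnalyticAt ℂ (fun w : ℂ => (w - z) ^ 2 / z ^ 2) z := by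
        by_cases h0 : z = 0
        · simpa [h0] using analyticAt_const
        · exact h2.div analyticAt_const (pow_ne_zero 2 h0)
      have h4 : AnalyticAt ℂ (fun w => (w - z) ^ 2 / ((w - z) ^ 2 * L.weierstrassPExcept z w + 1 -
          (w - z) ^ 2 / z ^ 2 - c * (w - z) ^ 2)) z := by
        refine h2.div ((((h2.mul h1).add analyticAt_const).sub h3).sub
          (analyticAt_const.mul h2)) ?_
        simp
      refine h4.differentiableAt.congr_of_eventuallyEq ?_
      filter_upwards [L.compl_lattice_sdiff_singleton_mem_nhds z] with w hw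
      by_cases hwz : w = z
      · rw [hg, hwz]
        simp [hz]
      · have hwl : w ∉ L.lattice := fun h => hw ⟨h, hwz⟩
        have h5 := L.ite_eq_one_sub_sq_mul_weierstrassP z hz w
        rw [if_neg hwz] at h5
        have h6 : (w - z) ^ 2 ≠ 0 := pow_ne_zero 2 (sub_ne_zero.2 hwz)
        simp only [hg, if_neg hwl]
        rw [← h5, ← mul_comm ((w - z) ^ 2) c, ← mul_sub, div_mul_cancel_left₀ h6]
    · have h1 : AnalyticAt ℂ L.weierstrassP z := L.analyticOnNhd_weierstrassP z hz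
      have h2 : AnalyticAt ℂ (fun w => (L.weierstrassP w - c)⁻¹) z :=
        (h1.sub analyticAt_const).inv (sub_ne_zero.2 (hcon z hz))
      refine h2.differentiableAt.congr_of_eventuallyEq ?_
      filter_upwards [L.isClosed_lattice.isOpen_compl.mem_nhds hz] with w hw
      simp only [hg]
      exact if_neg hw
  have hper : ∀ l ∈ L.lattice, ∀ z, g (z + l) = g z := by
    intro l hl z
    have h1 : z + l ∈ L.lattice ↔ z ∈ L.lattice := by
      constructor
      · intro h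
        have := L.lattice.sub_mem h hl
        rwa [add_sub_cancel_right] at this
      · intro h
        exact L.lattice.add_mem h hl
    have h2 := L.weierstrassP_add_coe z ⟨l, hl⟩
    simp only at h2
    simp only [hg, h1, h2]
  obtain ⟨C, hC⟩ := bdd L hdiff.continuous hper
  have hbd : Bornology.IsBounded (range g) := by
    rw [isBounded_iff_forall_norm_le]
    exact ⟨C, by rintro _ ⟨z, rfl⟩; exact hC z⟩
  have h3 := hdiff.apply_eq_apply_of_bounded hbd (L.ω₁ / 2) 0
  have h4 : L.ω₁ / 2 ∉ L.lattice := L.ω₁_div_two_notMem_lattice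
  simp only [hg] at h3
  rw [if_neg h4, if_pos L.lattice.zero_mem, inv_eq_zero, sub_eq_zero] at h3
  exact hcon _ h4 h3

end DiscrAux

open DiscrAux in
/-- PF2-DISCR: the discriminant. -/
theorem discr_ne (Λ : PeriodPair) : Λ.g₂ ^ 3 ≠ 27 * Λ.g₃ ^ 2 := by
  intro h
  -- the double root
  obtain ⟨e, he1, he2⟩ : ∃ e : ℂ, 12 * e ^ 2 = Λ.g₂ ∧ 8 * e ^ 3 = -Λ.g₃ := by
    by_cases h0 : Λ.g₂ = 0
    · have h1 : Λ.g₃ = 0 := by
        rw [h0] at h
        have : Λ.g₃ ^ 2 = 0 := by linear_combination (-1 / 27 : ℂ) * h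
        exact pow_eq_zero_iff (two_ne_zero) |>.1 this
      exact ⟨0, by rw [h0]; ring, by rw [h1]; ring⟩
    · refine ⟨-3 * Λ.g₃ / (2 * Λ.g₂), ?_, ?_⟩
      · field_simp
        linear_combination (-4 : ℂ) * h
      · field_simp
        linear_combination 8 * Λ.g₃ * h
  obtain ⟨z, hz, hze⟩ := P_surj Λ e
  obtain ⟨f, hf⟩ : ∃ f : ℂ → ℂ, f = fun w => Λ.weierstrassP w - e := ⟨_, rfl⟩
  have hP : AnalyticAt ℂ Λ.weierstrassP z := Λ.analyticOnNhd_weierstrassP z hz
  have hfa : AnalyticAt ℂ f z := by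
    rw [hf]
    exact hP.sub analyticAt_const
  have hfz : f z = 0 := by rw [hf]; simp [hze]
  have hev : ∀ᶠ w in 𝓝 z, w ∉ Λ.lattice := Λ.isClosed_lattice.isOpen_compl.mem_nhds hz
  have hode : ∀ᶠ w in 𝓝 z, deriv f w ^ 2 = 4 * f w ^ 2 * (f w + 3 * e) := by
    filter_upwards [hev] with w hw
    have h1 := Λ.derivWeierstrassP_sq w hw
    have h2 : deriv f w = Λ.derivWeierstrassP w := by
      rw [hf, deriv_sub_const, Λ.deriv_weierstrassP]
    rw [h2, h1, hf]
    simp only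
    rw [← he1]
    linear_combination -he2
  have hnz : ¬ ∀ᶠ w in 𝓝 z, f w = 0 := by
    intro h0
    have hcount : (Λ.lattice : Set ℂ).Countable := by
      have : Countable Λ.lattice := inferInstance
      exact Set.countable_coe_iff.1 this
    have hconn : IsConnected ((Λ.lattice : Set ℂ)ᶜ) :=
      hcount.isConnected_compl_of_one_lt_rank (by
        rw [Complex.rank_real_complex]
        exact Nat.one_lt_ofNat)
    have h1 : EqOn Λ.weierstrassP (fun _ => e) ((Λ.lattice : Set ℂ)ᶜ) := by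
      refine Λ.analyticOnNhd_weierstrassP.eqOn_of_preconnected_of_eventuallyEq
        (fun _ _ => analyticAt_const) hconn.isPreconnected hz ?_
      filter_upwards [h0] with w hw
      rw [hf] at hw
      exact sub_eq_zero.1 hw
    obtain ⟨z', hz', hze'⟩ := P_surj Λ (e + 1)
    have h2 := h1 hz'
    rw [hze'] at h2
    simp at h2
  obtain ⟨m, g, hg, hgz, hfg⟩ := (hfa.exists_eventuallyEq_pow_smul_nonzero_iff).2 hnz
  simp only [smul_eq_mul] at hfg
  obtain ⟨m, rfl⟩ : ∃ k, m = k + 1 := by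
    refine Nat.exists_eq_add_one.2 (Nat.pos_of_ne_zero fun h0 => ?_)
    have h1 := hfg.self_of_nhds
    rw [h0, pow_zero, one_mul, hfz] at h1
    exact hgz h1.symm
  have hga : ∀ᶠ w in 𝓝 z, AnalyticAt ℂ g w := hg.eventually_analyticAt
  have hder : ∀ᶠ w in 𝓝 z, deriv f w = (w - z) ^ m * ((m + 1) * g w + (w - z) * deriv g w) := by
    filter_upwards [hfg.eventually_nhds, hga] with w hw hw2
    have h1 : deriv f w = deriv (fun u => (u - z) ^ (m + 1) * g u) w := Filter.EventuallyEq.deriv_eq hw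
    have h2 : HasDerivAt (fun u : ℂ => (u - z) ^ (m + 1)) (((m + 1 : ℕ) : ℂ) * (w - z) ^ m * 1) w := by
      exact ((hasDerivAt_id w).sub_const z).pow (m + 1)
    have h3 := h2.mul hw2.differentiableAt.hasDerivAt
    rw [h1]
    have h4 : deriv (fun u => (u - z) ^ (m + 1) * g u) w = _ := h3.deriv
    rw [h4]
    push_cast
    ring
  have hkey : ∀ᶠ w in 𝓝[≠] z, ((m + 1) * g w + (w - z) * deriv g w) ^ 2 =
      4 * (w - z) ^ 2 * g w ^ 2 * (f w + 3 * e) := by
    have h1 := ((hode.and hfg).and hder).filter_mono (nhdsWithin_le_nhds (s := {z}ᶜ))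
    filter_upwards [h1, self_mem_nhdsWithin] with w hw hwz
    obtain ⟨⟨h2, h3⟩, h4⟩ := hw
    have h5 : (w - z) ^ m ≠ 0 := pow_ne_zero _ (sub_ne_zero.2 hwz)
    have h6 : ((w - z) ^ m) ^ 2 ≠ 0 := pow_ne_zero _ h5
    rw [h4] at h2
    apply mul_left_cancel₀ h6
    have h7 : 4 * f w ^ 2 * (f w + 3 * e) = 4 * ((w - z) ^ (m + 1) * g w) ^ 2 * (f w + 3 * e) := by
      rw [← h3]
    rw [h7] at h2
    linear_combination h2
  have hL : Tendsto (fun w => ((m + 1) * g w + (w - z) * deriv g w) ^ 2) (𝓝[≠] z)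
      (𝓝 (((m + 1) * g z + (z - z) * deriv g z) ^ 2)) := by
    have h1 : ContinuousAt (fun w => ((m + 1) * g w + (w - z) * deriv g w) ^ 2) z := by
      have h2 := hg.continuousAt
      have h3 := hg.deriv.continuousAt
      fun_prop
    exact h1.tendsto.mono_left nhdsWithin_le_nhds
  have hR : Tendsto (fun w => 4 * (w - z) ^ 2 * g w ^ 2 * (f w + 3 * e)) (𝓝[≠] z)
      (𝓝 (4 * (z - z) ^ 2 * g z ^ 2 * (f z + 3 * e))) := by
    have h1 : ContinuousAt (fun w => 4 * (w - z) ^ 2 * g w ^ 2 * (f w + 3 * e)) z := by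
      have h2 := hg.continuousAt
      have h3 := hfa.continuousAt
      fun_prop
    exact h1.tendsto.mono_left nhdsWithin_le_nhds
  have h1 := tendsto_nhds_unique (hL.congr' hkey) hR
  rw [sub_self, zero_mul, add_zero] at h1
  have h2 : ((m + 1) * g z) ^ 2 = 0 := by
    rw [h1]
    ring
  have h3 := (pow_eq_zero_iff two_ne_zero).1 h2
  rcases mul_eq_zero.1 h3 with h4 | h4
  · exact Nat.cast_add_one_ne_zero m h4
  · exact hgz h4

end Pool.Agent.H918.PF
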