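import Pool.Agent.H918.G.Defs

/-! PROJECT PF: the task `zeros_finite` (helper401). -/

set_option autoImplicit false

open Polynomial FF Pool.Agent.W603.LV Filter Topology Metric
open scoped Polynomial.Bivariate

namespace Pool.Agent.H918.PF

variable {L : Type} [Field L] [Algebra ℂ L] {c : Place ℂ L} {ev : ℂ[X][Y] →ₐ[ℂ] L} {P : ℂ[X][Y]}

/-- PF-ZERO: a function which is not zero in `L` has zeros on the curve over finitely many `z` only
(`A * W + E * P = C s`). -/
theorem zeros_finite (hM : Model c ev P) {W : ℂ[X][Y]} (hW : ev W ≠ 0) :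
    ∃ s : ℂ[X], s ≠ 0 ∧ ∀ z y : ℂ, evalEval z y P = 0 → evalEval z y W = 0 → s.eval z = 0 := by
  obtain ⟨R, S, hS, h⟩ := hM.frac (ev W)⁻¹
  refine ⟨S, hS, fun z y hP hW0 => ?_⟩
  have h1 : ev (C S - R * W) = 0 := by
    rw [map_sub, map_mul, ← h, mul_assoc, mul_comm (ev (C S)) (ev W), inv_mul_cancel_left₀ hW,
      sub_self]
  obtain ⟨E, hE⟩ := (hM.ker _).1 h1
  have h2 : evalEval z y (C S - R * W) = 0 := by
    rw [hE, evalEval_mul, hP, zero_mul]
  rw [evalEval_sub, evalEval_mul, hW0, mul_zero, sub_zero, evalEval_C] at h2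
  exact h2

end Pool.Agent.H918.PF
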