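import Pool.Agent.H918.G.Geo
import Pool.Agent.H918.G.ZerosFinite

/-! PROJECT PF: the task `eq_of_tau`. -/

set_option autoImplicit false

open Polynomial FF Pool.Agent.W603.LV Pool.Agent.W603.PV Pool.Agent.W602.GT Pool.Agent.N154.GG
open Filter Topology Metric
open Pool.Agent.W602.RG (HasValue PointedMaps)
open Pool.Agent.Y216 (OnVar)
open scoped Polynomial.Bivariate LinearAlgebra.Projectivization

namespace Pool.Agent.H918.PF

variable {L : Type} [Field L] [Algebra ℂ L] {c : Place ℂ L} {ev : ℂ[X][Y] →ₐ[ℂ] L} {P : ℂ[X][Y]}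
  {B₀ : Finset ℂ} {n : ℕ} {ι : Type} {F : ι → MvPolynomial (Fin (n + 1)) ℂ} {Λ : PeriodPair}
  {α : (Fin (n + 1) → ℂ) → ℂ ⧸ Λ.lattice} {A : Fin 3 → MvPolynomial (Fin (n + 1)) ℂ}
  {R R' : Fin (n + 1) → ℂ[X][Y]} {T T' : ℂ → ℂ → ℙ ℂ (Fin (n + 1) → ℂ)}

namespace H264

/-- The evaluation as a homomorphism of algebras. -/
noncomputable def evE (z y : ℂ) : ℂ[X][Y] →ₐ[ℂ] ℂ :=
  { evalEvalRingHom z y with
    commutes' := by
      intro r
      change evalEval z y (algebraMap ℂ ℂ[X][Y] r) = r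
      have h : algebraMap ℂ ℂ[X][Y] r = C (C r) := rfl
      rw [h, evalEval_C, eval_C] }

theorem evE_apply (z y : ℂ) (W : ℂ[X][Y]) : evE z y W = evalEval z y W := rfl

/-- The values of the forms at the points of the curve. -/
theorem evalEval_aeval (R : Fin (n + 1) → ℂ[X][Y]) (G : MvPolynomial (Fin (n + 1)) ℂ) (z y : ℂ) :
    evalEval z y (MvPolynomial.aeval R G) = val (vec R z y) G := by
  rw [← evE_apply, MvPolynomial.comp_aeval_apply]
  rfl

theorem ev_aeval (ev : ℂ[X][Y] →ₐ[ℂ] L) (R : Fin (n + 1) → ℂ[X][Y])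
    (G : MvPolynomial (Fin (n + 1)) ℂ) :
    ev (MvPolynomial.aeval R G) = val (fun k => ev (R k)) G := by
  rw [MvPolynomial.comp_aeval_apply]
  rfl

/-- Homogeneous forms at multiples of vectors. -/
theorem val_hom {G : MvPolynomial (Fin (n + 1)) ℂ} {e : ℕ} (hG : G.IsHomogeneous e) (a : ℂ)
    (u : Fin (n + 1) → ℂ) : val (a • u) G = a ^ e * val u G := by
  unfold val
  rw [MvPolynomial.aeval_def, MvPolynomial.aeval_def, MvPolynomial.eval₂_eq,
    MvPolynomial.eval₂_eq, Finset.mul_sum]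
  refine Finset.sum_congr rfl fun m hm => ?_
  have h1 : ∏ i ∈ m.support, (a • u) i ^ m i = a ^ e * ∏ i ∈ m.support, u i ^ m i := by
    simp only [Pi.smul_apply, smul_eq_mul, mul_pow]
    rw [Finset.prod_mul_distrib, Finset.prod_pow_eq_pow_sum]
    congr 2
    have h2 := hG (MvPolynomial.mem_support_iff.1 hm)
    rw [← h2, Finsupp.weight_apply]
    simp [Finsupp.sum]
  rw [h1]
  ring

/-- The forms at a point where `A 0` does not vanish. -/
theorem prop_of (hA : WForms F Λ α A) {u : Fin (n + 1) → ℂ} (hu : u ∈ Cone F) {w : ℂ}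
    (hw : w ∉ Λ.lattice) (h : α u = Submodule.Quotient.mk w) (i : Fin 3) :
    val u (A i) = (![1, Λ.weierstrassP w, Λ.derivWeierstrassP w] : Fin 3 → ℂ) i * val u (A 0) := by
  have h1 := hA.eq u hu w hw h
  fin_cases i
  · simp
  · exact h1.1
  · exact h1.2

/-- A point of the curve outside of finitely many values of `z`. -/
theorem exists_point (hM : Model c ev P) (B : Finset ℂ) (s : ℂ[X]) (hs : s ≠ 0) :
    ∃ z y : ℂ, z ∉ B ∧ s.eval z ≠ 0 ∧ evalEval z y P = 0 := by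
  obtain ⟨z, hz⟩ := Infinite.exists_notMem_finset (B ∪ s.roots.toFinset)
  rw [Finset.mem_union, not_or] at hz
  have h1 : (P.map (evalRingHom z)).natDegree = P.natDegree :=
    hM.monic.natDegree_map _
  have h2 : (P.map (evalRingHom z)).degree ≠ 0 := by
    intro h
    have h3 := natDegree_eq_zero_iff_degree_le_zero.2 h.le
    have h4 := hM.pos
    rw [h1] at h3
    omega
  obtain ⟨y, hy⟩ := IsAlgClosed.exists_root _ h2
  refine ⟨z, y, hz.1, ?_, ?_⟩
  · intro h
    apply hz.2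
    rw [Multiset.mem_toFinset, mem_roots hs]
    exact h
  · rw [← map_evalRingHom_eval]
    exact hy

end H264

open H264 in
/-- PF2-EQ: two maps with the same composition with the map to the elliptic curve. -/
theorem eq_of_tau (hM : Model c ev P) (hF : ∀ i, IsForm (F i)) (hA : WForms F Λ α A)
    (hT : Pt P B₀ R T) (hT' : Pt P B₀ R' T')
    (hTF : ∀ z y : ℂ, z ∉ B₀ → evalEval z y P = 0 → (T z y).rep ∈ Cone F)
    (hTF' : ∀ z y : ℂ, z ∉ B₀ → evalEval z y P = 0 → (T' z y).rep ∈ Cone F)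
    (h0 : val (fun k => ev (R k)) (A 0) ≠ 0) (h0' : val (fun k => ev (R' k)) (A 0) ≠ 0)
    {B₁ : Finset ℂ} (h : ∀ z y : ℂ, z ∉ B₁ → evalEval z y P = 0 →
      α (T z y).rep = α (T' z y).rep) (i j : Fin 3) :
    val (fun k => ev (R k)) (A i) * val (fun k => ev (R' k)) (A j) =
      val (fun k => ev (R k)) (A j) * val (fun k => ev (R' k)) (A i) := by
  by_contra hne
  have hW : ev (MvPolynomial.aeval R (A i) * MvPolynomial.aeval R' (A j) -
      MvPolynomial.aeval R (A j) * MvPolynomial.aeval R' (A i)) ≠ 0 := by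
    rw [map_sub, map_mul, map_mul, ev_aeval, ev_aeval, ev_aeval, ev_aeval]
    exact sub_ne_zero.2 hne
  rw [← ev_aeval] at h0 h0'
  obtain ⟨s, hs, hs'⟩ := zeros_finite hM hW
  obtain ⟨s0, hs0, hs0'⟩ := zeros_finite hM h0
  obtain ⟨s1, hs1, hs1'⟩ := zeros_finite hM h0'
  obtain ⟨z, y, hzB, hsz, hP⟩ := exists_point hM (B₀ ∪ B₁) (s * s0 * s1)
    (mul_ne_zero (mul_ne_zero hs hs0) hs1)
  rw [Finset.mem_union, not_or] at hzB
  rw [eval_mul, eval_mul] at hsz
  have h1 : s1.eval z ≠ 0 := right_ne_zero_of_mul hsz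
  have h2 : s0.eval z ≠ 0 := right_ne_zero_of_mul (left_ne_zero_of_mul hsz)
  have h3 : s.eval z ≠ 0 := left_ne_zero_of_mul (left_ne_zero_of_mul hsz)
  have hW1 := fun h4 => h3 (hs' z y hP h4)
  have hA0 := fun h4 => h2 (hs0' z y hP h4)
  have hA1 := fun h4 => h1 (hs1' z y hP h4)
  rw [evalEval_aeval] at hA0 hA1
  obtain ⟨a, ha⟩ := hT.val z y hzB.1 hP
  obtain ⟨a', ha'⟩ := hT'.val z y hzB.1 hP
  obtain ⟨e, he⟩ := hA.form
  rw [ha, val_hom (he 0)] at hA0
  rw [ha', val_hom (he 0)] at hA1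
  have hu0 : α (T z y).rep ≠ 0 := by
    intro h4
    apply hA0
    rw [hA.zero _ (hTF z y hzB.1 hP) h4, mul_zero]
  obtain ⟨w, hw⟩ := Submodule.Quotient.mk_surjective _ (α (T z y).rep)
  have hwΛ : w ∉ Λ.lattice := by
    intro h4
    apply hu0
    rw [← hw]
    exact (Submodule.Quotient.mk_eq_zero _).2 h4
  have hw' : α (T' z y).rep = Submodule.Quotient.mk w := by
    rw [← h z y hzB.2 hP, hw]
  have hp := prop_of hA (hTF z y hzB.1 hP) hwΛ hw.symm
  have hp' := prop_of hA (hTF' z y hzB.1 hP) hwΛ hw'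
  apply hW1
  rw [evalEval_sub, evalEval_mul, evalEval_mul, evalEval_aeval, evalEval_aeval, evalEval_aeval,
    evalEval_aeval, ha, ha', val_hom (he i), val_hom (he j), val_hom (he j), val_hom (he i),
    hp i, hp j, hp' i, hp' j]
  ring

end Pool.Agent.H918.PF
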