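import Pool.Agent.H918.G.Defs

/-!
# PF eta_reg (task 10706 of helper918): the pull-back of the invariant differential has no poles
-/

set_option autoImplicit false

open Polynomial FF Pool.Agent.W603.LV

namespace Pool.Agent.H918.PF.H807

variable {L : Type} [Field L] [Algebra ℂ L]

theorem ge_mul0 {Q : Place ℂ L} {x y : L} (hx : Ge Q 0 x) (hy : Ge Q 0 y) : Ge Q 0 (x * y) := by
  have := hx.mul hy
  rwa [add_zero] at this

theorem ge_pow0 {Q : Place ℂ L} {x : L} (hx : Ge Q 0 x) (n : ℕ) : Ge Q 0 (x ^ n) := by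
  have := hx.pow n
  rwa [mul_zero] at this

/-- derivative of the equation -/
theorem der_eq {D : Derivation ℂ L L} {g₂ g₃ : ℂ} {a b η : L}
    (hab : b ^ 2 = 4 * a ^ 3 - algebraMap ℂ L g₂ * a - algebraMap ℂ L g₃) (hb : b ≠ 0)
    (hη : η * b = D a) : 2 * D b = (12 * a ^ 2 - algebraMap ℂ L g₂) * η := by
  have h1 : D (b ^ 2) = 2 * b * D b := by
    rw [D.leibniz_pow]
    simp only [smul_eq_mul, nsmul_eq_mul]
    push_cast
    ring
  have h2 : D (4 * a ^ 3 - algebraMap ℂ L g₂ * a - algebraMap ℂ L g₃) =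
      (12 * a ^ 2 - algebraMap ℂ L g₂) * D a := by
    have e4 : (4 : L) = algebraMap ℂ L 4 := (map_ofNat (algebraMap ℂ L) 4).symm
    rw [map_sub, map_sub, D.map_algebraMap, D.leibniz, D.leibniz, D.leibniz_pow, D.map_algebraMap, e4,
      D.map_algebraMap, ← e4]
    simp only [smul_eq_mul, nsmul_eq_mul]
    push_cast
    ring
  have h3 : b * (2 * D b) = b * ((12 * a ^ 2 - algebraMap ℂ L g₂) * η) := by
    have h4 := congrArg D hab
    rw [h1, h2, ← hη] at h4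
    linear_combination h4
  exact mul_left_cancel₀ hb h3

end Pool.Agent.H918.PF.H807

namespace Pool.Agent.H918.PF

open H807

variable {L : Type} [Field L] [Algebra ℂ L]

/-- PF-ETA: the pull-back of the invariant differential `da / b` of an elliptic curve has no poles. -/
theorem eta_reg [IsFF ℂ L] {D : Derivation ℂ L L} (hD : D ≠ 0) {g₂ g₃ : ℂ}
    (hg : g₂ ^ 3 ≠ 27 * g₃ ^ 2) {a b η : L} (hab : b ^ 2 = 4 * a ^ 3 - algebraMap ℂ L g₂ * a -
      algebraMap ℂ L g₃) (hb : b ≠ 0) (hη : η * b = D a) (Q : Place ℂ L) : Ge Q (vo Q D) η := by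
  have hnat : ∀ n : ℕ, Ge Q 0 ((n : ℕ) : L) := fun n => Ge.natCast n
  by_cases ha : Ge Q 0 a
  · -- `a` is regular
    have hc4 : Ge Q 0 (4 : L) := by simpa using hnat 4
    have hb2 : Ge Q 0 (b ^ 2) := by
      rw [hab]
      exact ((ge_mul0 hc4 (ge_pow0 ha 3)).sub (ge_mul0 (Ge.const g₂) ha)).sub (Ge.const g₃)
    have hb0 : Ge Q 0 b := by
      right
      have h1 := hb2.resolve_left (pow_ne_zero 2 hb)
      rw [Q.ord_pow] at h1
      push_cast at h1
      omega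
    have hd := der_eq hab hb hη
    obtain ⟨ga, hga, ea⟩ := der_mul Q (ord_unif Q) hD ha
    obtain ⟨gb, hgb, eb⟩ := der_mul Q (ord_unif Q) hD hb0
    obtain ⟨π', hπ'⟩ : ∃ x, x = D (unif Q) := ⟨_, rfl⟩
    have hv : Ge Q (vo Q D) π' := by
      right
      rw [hπ']
      exact le_refl _
    rw [← hπ'] at ea eb
    obtain ⟨G2, hG2⟩ : ∃ x, x = algebraMap ℂ L g₂ := ⟨_, rfl⟩
    obtain ⟨G3, hG3⟩ : ∃ x, x = algebraMap ℂ L g₃ := ⟨_, rfl⟩
    have r2 : Ge Q 0 G2 := by rw [hG2]; exact Ge.const g₂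
    have r3 : Ge Q 0 G3 := by rw [hG3]; exact Ge.const g₃
    obtain ⟨dl, hdl⟩ : ∃ x : ℂ, x = g₂ ^ 3 - 27 * g₃ ^ 2 := ⟨_, rfl⟩
    have hdl0 : dl ≠ 0 := by rw [hdl]; exact sub_ne_zero.2 hg
    have hdlL : algebraMap ℂ L dl = G2 ^ 3 - 27 * G3 ^ 2 := by
      rw [hdl, hG2, hG3, map_sub, map_mul, map_pow, map_pow, map_ofNat]
    have hdlL0 : algebraMap ℂ L dl ≠ 0 := by
      intro h
      exact hdl0 ((map_eq_zero (algebraMap ℂ L)).1 h)
    rw [← hG2, ← hG3] at hab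
    rw [← hG2] at hd
    have key : algebraMap ℂ L dl * η = π' * (-(9 * (2 * G2 * a - 3 * G3)) * b * ga +
        (6 * G2 * a ^ 2 - 9 * G3 * a - G2 ^ 2) * (2 * gb)) := by
      rw [hdlL]
      have e1 : η * b = π' * ga := by rw [hη, ea]
      have e2 : (12 * a ^ 2 - G2) * η = π' * (2 * gb) := by
        rw [← hd, eb]
        ring
      have e3 : (4 * a ^ 3 - G2 * a - G3) * η = b * (π' * ga) := by
        rw [← hab, ← e1]
        ring
      linear_combination (-(9 * (2 * G2 * a - 3 * G3))) * e3 +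
        (6 * G2 * a ^ 2 - 9 * G3 * a - G2 ^ 2) * e2
    have n2 : Ge Q 0 (2 : L) := by simpa using hnat 2
    have n3 : Ge Q 0 (3 : L) := by simpa using hnat 3
    have n6 : Ge Q 0 (6 : L) := by simpa using hnat 6
    have n9 : Ge Q 0 (9 : L) := by simpa using hnat 9
    have s1 : Ge Q 0 (-(9 * (2 * G2 * a - 3 * G3)) * b * ga) :=
      ge_mul0 (ge_mul0 (ge_mul0 n9 ((ge_mul0 (ge_mul0 n2 r2) ha).sub (ge_mul0 n3 r3))).neg hb0) hga
    have s2 : Ge Q 0 ((6 * G2 * a ^ 2 - 9 * G3 * a - G2 ^ 2) * (2 * gb)) :=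
      ge_mul0 (((ge_mul0 (ge_mul0 n6 r2) (ge_pow0 ha 2)).sub (ge_mul0 (ge_mul0 n9 r3) ha)).sub
        (ge_pow0 r2 2)) (ge_mul0 n2 hgb)
    have s3 := hv.mul (s1.add s2)
    rw [add_zero, ← key] at s3
    refine Ge.of_mul' (m := 0) hdlL0 (Q.ord_const hdl0) ?_
    rwa [add_zero]
  · -- `a` has a pole
    unfold Ge at ha
    push Not at ha
    obtain ⟨ha0, han⟩ := ha
    have h4 : (4 : L) ≠ 0 := by
      have e4 : (4 : L) = algebraMap ℂ L 4 := (map_ofNat (algebraMap ℂ L) 4).symm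
      rw [e4]
      exact (map_ne_zero (algebraMap ℂ L)).2 (by norm_num)
    have o4 : Q.ord (4 : L) = 0 := by
      have e4 : (4 : L) = algebraMap ℂ L 4 := (map_ofNat (algebraMap ℂ L) 4).symm
      rw [e4]
      exact Q.ord_const (by norm_num)
    have hm0 : (4 * a ^ 3 : L) ≠ 0 := mul_ne_zero h4 (pow_ne_zero 3 ha0)
    have om : Q.ord (4 * a ^ 3) = 3 * Q.ord a := by
      rw [Q.ord_mul h4 (pow_ne_zero 3 ha0), o4, Q.ord_pow]
      push_cast
      ring
    obtain ⟨ρ, hρ⟩ : ∃ x, x = -(algebraMap ℂ L g₂ * a) - algebraMap ℂ L g₃ := ⟨_, rfl⟩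
    have hρG : Ge Q (Q.ord a) ρ := by
      rw [hρ]
      have t1 : Ge Q (Q.ord a) (algebraMap ℂ L g₂ * a) := by
        have := (Ge.const (P := Q) g₂).mul (Or.inr le_rfl : Ge Q (Q.ord a) a)
        rwa [zero_add] at this
      exact t1.neg.sub ((Ge.const g₃).mono han.le)
    have hb2 : b ^ 2 = 4 * a ^ 3 + ρ := by rw [hab, hρ]; ring
    have ob2 : Q.ord (b ^ 2) = 3 * Q.ord a := by
      by_cases hρ0 : ρ = 0
      · rw [hb2, hρ0, add_zero, om]
      · have h5 := hρG.resolve_left hρ0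
        have h6 := Q.ord_add_eq (f := 4 * a ^ 3) (g := ρ) hm0 hρ0 (by rw [om]; omega)
        rw [hb2, h6.2, om]
    rw [Q.ord_pow] at ob2
    push_cast at ob2
    obtain ⟨hDa, oDa⟩ := ord_der Q hD (f := a) (by omega)
    have hη0 : η ≠ 0 := by
      rintro rfl
      rw [zero_mul] at hη
      exact hDa hη.symm
    right
    have h7 : Q.ord η + Q.ord b = Q.ord (D a) := by rw [← hη, Q.ord_mul hη0 hb]
    omega

end Pool.Agent.H918.PF
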