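import Pool.Agent.H918.G.Geo

/-! PROJECT PF, PF2-DISC (helper922): the holomorphic disc given by a pointed map and a Puiseux
expansion at infinity. -/

set_option autoImplicit false
set_option linter.unusedVariables false

open Polynomial FF Pool.Agent.W603.LV Pool.Agent.W602.GT Pool.Agent.N154.GG
open Filter Topology Metric
open scoped Polynomial.Bivariate LinearAlgebra.Projectivization

namespace Pool.Agent.H918.PF

variable {L : Type} [Field L] [Algebra ℂ L] {c : Place ℂ L} {ev : ℂ[X][Y] →ₐ[ℂ] L} {P : ℂ[X][Y]}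
  {B₀ : Finset ℂ} {n : ℕ} {ι : Type} {F : ι → MvPolynomial (Fin (n + 1)) ℂ} {Λ : PeriodPair}
  {α : (Fin (n + 1) → ℂ) → ℂ ⧸ Λ.lattice} {A : Fin 3 → MvPolynomial (Fin (n + 1)) ℂ}
  {R R' : Fin (n + 1) → ℂ[X][Y]} {T T' : ℂ → ℂ → ℙ ℂ (Fin (n + 1) → ℂ)}

namespace H922

lemma diff_evalEval (Q : ℂ[X][Y]) {f g : ℂ → ℂ} {t : ℂ} (hf : DifferentiableAt ℂ f t)
    (hg : DifferentiableAt ℂ g t) : DifferentiableAt ℂ (fun s => evalEval (f s) (g s) Q) t := by
  induction Q using Polynomial.induction_on' with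
  | add p q hp hq =>
    simp only [evalEval_add]
    exact hp.add hq
  | monomial m b =>
    have h : ∀ s, evalEval (f s) (g s) (monomial m b) = b.eval (f s) * g s ^ m := by
      intro s
      rw [← C_mul_X_pow_eq_monomial, evalEval_mul, evalEval_C, evalEval_pow, evalEval_X]
    simp only [h]
    exact ((b.differentiable.differentiableAt).comp t hf).mul (hg.pow m)

lemma big {N : ℕ} (hN : 0 < N) (r : ℝ) : ∃ δ : ℝ, 0 < δ ∧ ∀ t : ℂ, t ≠ 0 → ‖t‖ < δ →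
    r ≤ ‖(t ^ N)⁻¹‖ := by
  refine ⟨1 / (|r| + 1), by positivity, fun t ht h => ?_⟩
  have h0 : 0 < ‖t‖ := norm_pos_iff.2 ht
  have h1 : (0 : ℝ) < |r| + 1 := by positivity
  have h2 : ‖t‖ * (|r| + 1) < 1 := (lt_div_iff₀ h1).1 h
  have h3 : ‖t‖ ≤ 1 := by
    have h4 : (0 : ℝ) ≤ |r| := abs_nonneg r
    nlinarith
  have h5 : ‖t‖ ^ N ≤ ‖t‖ := pow_le_of_le_one h0.le h3 hN.ne'
  rw [norm_inv, norm_pow]
  have h6 : ‖t‖⁻¹ ≤ (‖t‖ ^ N)⁻¹ := inv_anti₀ (pow_pos h0 N) h5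
  refine le_trans ?_ h6
  rw [← one_div, le_div_iff₀ h0]
  have h7 := le_abs_self r
  nlinarith

lemma mk_eq {v w : Fin (n + 1) → ℂ} (hv : v ≠ 0) (hw : w ≠ 0) (b : ℂ) (h : v = b • w) :
    Projectivization.mk ℂ v hv = Projectivization.mk ℂ w hw :=
  (Projectivization.mk_eq_mk_iff' ℂ v w hv hw).2 ⟨b, h.symm⟩

/-- the point `T z y` if the coordinates are not all zero -/
lemma T_eq (hT : Pt P B₀ R T) {z y : ℂ} (hz : z ∉ B₀) (hy : evalEval z y P = 0)
    {j : Fin (n + 1)} (hj : vec R z y j ≠ 0) (v : Fin (n + 1) → ℂ) (hv : v ≠ 0)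
    (h : ∀ i, v i = vec R z y i / vec R z y j) : T z y = Projectivization.mk ℂ v hv := by
  obtain ⟨b, hb⟩ := hT.val z y hz hy
  have h1 : v = ((vec R z y j)⁻¹ * b) • (T z y).rep := by
    funext i
    rw [h i, Pi.smul_apply, smul_eq_mul]
    have h2 := congrFun hb i
    rw [Pi.smul_apply, smul_eq_mul] at h2
    conv_lhs => rw [h2]
    rw [div_eq_inv_mul, mul_assoc]
  rw [mk_eq hv (T z y).rep_nonzero _ h1, Projectivization.mk_rep]

/-- away from the centre -/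
lemma away (hT : Pt P B₀ R T) {N : ℕ} (hN : 0 < N) {ρ : ℝ} {a : ℂ → ℂ}
    (ha : DifferentiableOn ℂ a (ball 0 ρ \ {0}))
    (har : ∀ t ∈ ball (0 : ℂ) ρ \ {0}, (t ^ N)⁻¹ ∉ B₀ ∧ evalEval (t ^ N)⁻¹ (a t) P = 0)
    (t₀ : ℂ) (ht₀ : t₀ ∈ ball (0 : ℂ) ρ \ {0}) :
    ∃ (V : Set ℂ) (g : ℂ → Fin (n + 1) → ℂ), IsOpen V ∧ t₀ ∈ V ∧ DifferentiableOn ℂ g V ∧
      V ⊆ ball (0 : ℂ) ρ \ {0} ∧
      ∀ w ∈ V, ∃ h : g w ≠ 0, T (w ^ N)⁻¹ (a w) = Projectivization.mk ℂ (g w) h := by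
  have hD : IsOpen (ball (0 : ℂ) ρ \ {0}) := isOpen_ball.sdiff isClosed_singleton
  obtain ⟨h, hh⟩ : ∃ h : ℂ → ℂ, ∀ t, h t = (t ^ N)⁻¹ := ⟨_, fun _ => rfl⟩
  have hhe : h = fun t => (t ^ N)⁻¹ := funext hh
  have hder : ∀ t : ℂ, t ≠ 0 →
      HasStrictDerivAt h (-((t ^ N) ^ 2)⁻¹ * ((N : ℂ) * t ^ (N - 1))) t := by
    intro t ht
    rw [hhe]
    exact HasStrictDerivAt.comp t (hasStrictDerivAt_inv (pow_ne_zero N ht))
      (hasStrictDerivAt_pow N t)
  have hne : ∀ t : ℂ, t ≠ 0 → -((t ^ N) ^ 2)⁻¹ * ((N : ℂ) * t ^ (N - 1)) ≠ 0 := by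
    intro t ht
    refine mul_ne_zero (neg_ne_zero.2 (inv_ne_zero (pow_ne_zero _ (pow_ne_zero _ ht))))
      (mul_ne_zero ?_ (pow_ne_zero _ ht))
    exact_mod_cast hN.ne'
  have ht0 : t₀ ≠ 0 := ht₀.2
  set e := ((hder t₀ ht0).hasStrictFDerivAt_equiv (hne t₀ ht0)).toOpenPartialHomeomorph h with he
  have hes : t₀ ∈ e.source := HasStrictFDerivAt.mem_toOpenPartialHomeomorph_source _
  have hec : ∀ t, e t = h t := fun t => rfl
  have hUo : IsOpen (e.target ∩ e.symm ⁻¹' (ball (0 : ℂ) ρ \ {0})) :=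
    e.isOpen_inter_preimage_symm hD
  have hinv : ∀ z ∈ e.target, h (e.symm z) = z := fun z hz => e.right_inv hz
  have hbr : Branch P (e.target ∩ e.symm ⁻¹' (ball (0 : ℂ) ρ \ {0})) (fun z => a (e.symm z)) := by
    constructor
    · intro z hz
      have hz2 : e.symm z ∈ ball (0 : ℂ) ρ \ {0} := hz.2
      have hz0 : e.symm z ≠ 0 := hz2.2
      have h1 := e.hasDerivAt_symm hz.1 (hne _ hz0) (hder _ hz0).hasDerivAt
      have h2 : DifferentiableAt ℂ a (e.symm z) := (ha _ hz2).differentiableAt (hD.mem_nhds hz2)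
      exact (h2.comp z h1.differentiableAt).differentiableWithinAt
    · intro z hz
      have h1 := (har _ hz.2).2
      rw [← hh, hinv z hz.1] at h1
      exact h1
  have hUB : ∀ z ∈ e.target ∩ e.symm ⁻¹' (ball (0 : ℂ) ρ \ {0}), z ∉ B₀ := by
    intro z hz
    have h1 := (har _ hz.2).1
    rw [← hh, hinv z hz.1] at h1
    exact h1
  have hz₀ : h t₀ ∈ e.target ∩ e.symm ⁻¹' (ball (0 : ℂ) ρ \ {0}) := by
    refine ⟨e.map_source hes, ?_⟩
    have h1 : e.symm (h t₀) = t₀ := e.left_inv hes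
    show e.symm (h t₀) ∈ ball (0 : ℂ) ρ \ {0}
    rw [h1]
    exact ht₀
  obtain ⟨V, g, hV, hzV, hgd, hg⟩ := hT.hol _ _ hUo hUB hbr (h t₀) hz₀
  refine ⟨(e.source ∩ e ⁻¹' V) ∩ (ball (0 : ℂ) ρ \ {0}), fun t => g (h t),
    (e.isOpen_inter_preimage hV).inter hD, ⟨⟨hes, hzV⟩, ht₀⟩, ?_, Set.inter_subset_right, ?_⟩
  · intro t ht
    have h1 : DifferentiableAt ℂ h t := (hder t ht.2.2).hasDerivAt.differentiableAt
    have h2 : DifferentiableAt ℂ g (h t) := (hgd _ ht.1.2).differentiableAt (hV.mem_nhds ht.1.2)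
    exact (h2.comp t h1).differentiableWithinAt
  · intro t ht
    obtain ⟨h1, h2⟩ := hg (h t) ht.1.2
    refine ⟨h1, ?_⟩
    have h3 : e.symm (h t) = t := e.left_inv ht.1.1
    have h4 : T (h t) (a (e.symm (h t))) = Projectivization.mk ℂ (g (h t)) h1 := h2
    rw [h3] at h4
    rw [← hh]
    exact h4

end H922

/-- PF2-DISC: the holomorphic disc given by a pointed map and a Puiseux expansion at infinity. -/
theorem exists_disc (hM : Model c ev P) (hs : SepOff P B₀) (hT : Pt P B₀ R T) {k : Fin (n + 1)}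
    (hk : ev (R k) ≠ 0) {x : Fin (n + 1) → ℂ} (hx : x ≠ 0) {j : Fin (n + 1)} (hj : x j ≠ 0)
    (hinf : ∀ ε : ℝ, 0 < ε → ∃ r : ℝ, ∀ z y : ℂ, r ≤ ‖z‖ → evalEval z y P = 0 →
      vec R z y j ≠ 0 ∧ ∀ i, ‖vec R z y i / vec R z y j - x i / x j‖ ≤ ε) {N : ℕ} (hN : 0 < N)
    {ρ : ℝ} (hρ : 0 < ρ) {a : ℂ → ℂ} (ha : DifferentiableOn ℂ a (ball 0 ρ \ {0}))
    (ham : MeromorphicAt a 0)
    (har : ∀ t ∈ ball (0 : ℂ) ρ \ {0}, (t ^ N)⁻¹ ∉ B₀ ∧ evalEval (t ^ N)⁻¹ (a t) P = 0) :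
    ∃ φ : ℂ → ℙ ℂ (Fin (n + 1) → ℂ), HolMapOn (ball 0 ρ) φ ∧ φ 0 = Projectivization.mk ℂ x hx ∧
      ∀ t ∈ ball (0 : ℂ) ρ \ {0}, φ t = T (t ^ N)⁻¹ (a t) := by
  classical
  have hD : IsOpen (ball (0 : ℂ) ρ \ {0}) := isOpen_ball.sdiff isClosed_singleton
  obtain ⟨φ, hφ0, hφ1⟩ : ∃ φ : ℂ → ℙ ℂ (Fin (n + 1) → ℂ), φ 0 = Projectivization.mk ℂ x hx ∧
      ∀ t, t ≠ 0 → φ t = T (t ^ N)⁻¹ (a t) :=
    ⟨fun t => if t = 0 then Projectivization.mk ℂ x hx else T (t ^ N)⁻¹ (a t), if_pos rfl,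
      fun t ht => if_neg ht⟩
  refine ⟨φ, ?_, hφ0, fun t ht => hφ1 t ht.2⟩
  · intro t₀ ht₀
    by_cases h0 : t₀ = 0
    · subst h0
      -- the centre
      obtain ⟨r₁, hr₁⟩ := hinf 1 one_pos
      obtain ⟨δ₁, hδ₁, hb₁⟩ := H922.big hN r₁
      set δ : ℝ := min δ₁ ρ with hδ
      have hδ0 : 0 < δ := lt_min hδ₁ hρ
      have hmem : ∀ t ∈ ball (0 : ℂ) δ, t ≠ 0 → t ∈ ball (0 : ℂ) ρ \ {0} ∧
          vec R (t ^ N)⁻¹ (a t) j ≠ 0 := by
        intro t ht ht0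
        rw [mem_ball_zero_iff] at ht
        have h1 : t ∈ ball (0 : ℂ) ρ \ {0} :=
          ⟨mem_ball_zero_iff.2 (ht.trans_le (min_le_right _ _)), ht0⟩
        exact ⟨h1, (hr₁ _ _ (hb₁ t ht0 (ht.trans_le (min_le_left _ _))) (har t h1).2).1⟩
      set G : ℂ → Fin (n + 1) → ℂ := fun t i =>
        if t = 0 then x i / x j else vec R (t ^ N)⁻¹ (a t) i / vec R (t ^ N)⁻¹ (a t) j with hG
      have hG0 : ∀ i, G 0 i = x i / x j := fun i => if_pos rfl
      have hG1 : ∀ t, t ≠ 0 → ∀ i, G t i =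
          vec R (t ^ N)⁻¹ (a t) i / vec R (t ^ N)⁻¹ (a t) j := fun t ht i => if_neg ht
      have hGd : DifferentiableOn ℂ G (ball 0 δ) := by
        rw [← Complex.differentiableOn_compl_singleton_and_continuousAt_iff (c := 0)
          (ball_mem_nhds 0 hδ0)]
        constructor
        · rintro t ⟨ht, ht0⟩
          have ht0' : t ≠ 0 := ht0
          obtain ⟨h1, h2⟩ := hmem t ht ht0'
          have hia : DifferentiableAt ℂ a t := (ha t h1).differentiableAt (hD.mem_nhds h1)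
          have hip : DifferentiableAt ℂ (fun s : ℂ => (s ^ N)⁻¹) t :=
            (differentiableAt_id.pow N).inv (pow_ne_zero N ht0')
          have h3 : DifferentiableAt ℂ (fun s i => vec R (s ^ N)⁻¹ (a s) i /
              vec R (s ^ N)⁻¹ (a s) j : ℂ → Fin (n + 1) → ℂ) t := by
            rw [differentiableAt_pi]
            intro i
            exact (H922.diff_evalEval (R i) hip hia).div (H922.diff_evalEval (R j) hip hia) h2
          have h4 : G =ᶠ[𝓝 t] fun s i => vec R (s ^ N)⁻¹ (a s) i / vec R (s ^ N)⁻¹ (a s) j := by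
            filter_upwards [isOpen_ne.mem_nhds ht0'] with s hs0
            funext i
            exact hG1 s hs0 i
          exact (h3.congr_of_eventuallyEq h4).differentiableWithinAt
        · rw [Metric.continuousAt_iff]
          intro ε hε
          obtain ⟨r₂, hr₂⟩ := hinf (ε / 2) (by positivity)
          obtain ⟨δ₂, hδ₂, hb₂⟩ := H922.big hN r₂
          refine ⟨min δ₂ ρ, lt_min hδ₂ hρ, fun {t} ht => ?_⟩
          rw [dist_zero_right] at ht
          by_cases ht0 : t = 0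
          · rw [ht0, dist_self]
            exact hε
          · have h1 : t ∈ ball (0 : ℂ) ρ \ {0} :=
              ⟨mem_ball_zero_iff.2 (ht.trans_le (min_le_right _ _)), ht0⟩
            have h2 := (hr₂ _ _ (hb₂ t ht0 (ht.trans_le (min_le_left _ _))) (har t h1).2).2
            have h3 : dist (G t) (G 0) ≤ ε / 2 := by
              rw [dist_pi_le_iff (by positivity)]
              intro i
              rw [dist_eq_norm, hG0, hG1 t ht0]
              exact h2 i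
            linarith
      have hGne : ∀ t ∈ ball (0 : ℂ) δ, G t ≠ 0 := by
        intro t ht h
        have h1 := congrFun h j
        by_cases ht0 : t = 0
        · subst ht0
          rw [hG0, div_self hj] at h1
          exact one_ne_zero h1
        · rw [hG1 t ht0, div_self (hmem t ht ht0).2] at h1
          exact one_ne_zero h1
      refine ⟨ball 0 δ, G, isOpen_ball, mem_ball_self hδ0, hGd, fun t ht => ⟨hGne t ht, ?_⟩⟩
      by_cases ht0 : t = 0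
      · subst ht0
        rw [hφ0]
        refine (H922.mk_eq (hGne 0 ht) hx (x j)⁻¹ ?_).symm
        funext i
        rw [hG0, Pi.smul_apply, smul_eq_mul, div_eq_inv_mul]
      · rw [hφ1 t ht0]
        obtain ⟨h1, h2⟩ := hmem t ht ht0
        exact H922.T_eq hT (har t h1).1 (har t h1).2 h2 (G t) (hGne t ht) (hG1 t ht0)
    · obtain ⟨V, g, hV, htV, hgd, hVs, hg⟩ := H922.away hT hN ha har t₀ ⟨ht₀, h0⟩
      refine ⟨V, g, hV, htV, hgd, fun w hw => ?_⟩
      obtain ⟨h1, h2⟩ := hg w hw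
      refine ⟨h1, ?_⟩
      have hw0 : w ≠ 0 := (hVs hw).2
      rw [hφ1 w hw0]
      exact h2

end Pool.Agent.H918.PF
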