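import Pool.Agent.H918.G.Defs

/-!
# PF-DER: a derivation `d / dZ`
-/

set_option autoImplicit false

open Polynomial FF Pool.Agent.W603.LV Filter Topology Metric
open scoped Polynomial.Bivariate

namespace Pool.Agent.H918.PF

variable {L : Type} [Field L] [Algebra ℂ L] {c : Place ℂ L} {ev : ℂ[X][Y] →ₐ[ℂ] L} {P : ℂ[X][Y]}

/-- PF-DER: a derivation `d / dZ`. -/
theorem exists_dz [IsFF ℂ L] (hM : Model c ev P) :
    ∃ D : Derivation ℂ L L, D (ev (C X)) = 1 := by
  obtain ⟨D, hD⟩ := exists_der (k := ℂ) (K := L)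
  have ht : Transcendental ℂ (ev (C X)) := c.transcendental_of_ord_ne hM.pole.ne
  have h0 : D (ev (C X)) ≠ 0 := der_ne_zero hD ht
  exact ⟨(D (ev (C X)))⁻¹ • D, by
    rw [Derivation.coe_smul, Pi.smul_apply, smul_eq_mul, inv_mul_cancel₀ h0]⟩

end Pool.Agent.H918.PF
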