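import Pool.Agent.H918.G.Defs

/-!
# PROJECT PF (helper918): plane models
-/

set_option autoImplicit false

open Polynomial FF Pool.Agent.W603.LV Module IntermediateField
open scoped Polynomial.Bivariate

namespace Pool.Agent.H918.PF.H21

variable {L : Type} [Field L] [Algebra ℂ L]

/-- a function with the only pole `c` -/
theorem exists_fun [IsFF ℂ L] (c : Place ℂ L) :
    ∃ z : L, c.ord z < 0 ∧ ∀ Q : Place ℂ L, Q ≠ c → Ge Q 0 z := by
  classical
  obtain ⟨γ, N, h1, -⟩ := riemann (k := ℂ) (K := L)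
  have hdeg : (1 : ℤ) ≤ c.deg := by exact_mod_cast c.deg_pos
  obtain ⟨n, hn⟩ : ∃ n : ℕ, γ + 2 ≤ n := ⟨(γ + 2).toNat, Int.self_le_toNat _⟩
  have h2 := h1 (Finsupp.single c (n : ℤ))
  rw [ddeg_single] at h2
  have hn0 : (0 : ℤ) ≤ n := Int.natCast_nonneg n
  have h3 : 2 ≤ ell (Finsupp.single c (n : ℤ)) := by nlinarith
  by_contra hcon
  have hcon' : ∀ z : L, (∀ Q : Place ℂ L, Q ≠ c → Ge Q 0 z) → 0 ≤ c.ord z := by
    intro z hz
    by_contra hc
    exact hcon ⟨z, not_le.mp hc, hz⟩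
  have h4 : LL (Finsupp.single c (n : ℤ)) ≤ Submodule.span ℂ {(1 : L)} := by
    intro f hf
    by_cases hf0 : f = 0
    · rw [hf0]; exact zero_mem _
    have hf' := (mem_LL.mp hf).resolve_left hf0
    have hQ : ∀ Q : Place ℂ L, Q ≠ c → 0 ≤ Q.ord f := by
      intro Q hQ
      have h5 := hf' Q
      rw [Finsupp.single_apply, if_neg (Ne.symm hQ)] at h5
      simpa using h5
    have hc : 0 ≤ c.ord f := hcon' f fun Q hQc => Or.inr (hQ Q hQc)
    have hall : ∀ Q : Place ℂ L, 0 ≤ Q.ord f := by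
      intro Q
      by_cases hQc : Q = c
      · rw [hQc]; exact hc
      · exact hQ Q hQc
    have halg : IsAlgebraic ℂ f := by
      by_contra htr
      have htr' : Transcendental ℂ f := htr
      obtain ⟨S, hS, hS2⟩ := poles (k := ℂ) (f := f) htr'
      have hSe : S = ∅ := by
        rw [Finset.eq_empty_iff_forall_notMem]
        intro w hw
        have h6 := (hS w).mp hw
        have h7 := hall w
        omega
      rw [hSe, Finset.sum_empty] at hS2
      have h8 := IsFF.finite htr'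
      have h9 : 0 < finrank ℂ⟮f⟯ L := finrank_pos
      omega
    have hmin : (minpoly ℂ f).degree = 1 :=
      IsAlgClosed.degree_eq_one_of_irreducible ℂ (minpoly.irreducible halg.isIntegral)
    obtain ⟨a, ha⟩ := minpoly.mem_range_of_degree_eq_one ℂ f hmin
    rw [Submodule.mem_span_singleton]
    refine ⟨a, ?_⟩
    rw [← ha, Algebra.smul_def, mul_one]
  have h5 := Submodule.finrank_mono h4
  have h6 : finrank ℂ (Submodule.span ℂ {(1 : L)}) ≤ 1 := by
    have h7 := finrank_span_singleton (K := ℂ) (v := (1 : L)) one_ne_zero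
    omega
  unfold ell at h3
  omega

/-- the algebraic part -/
theorem model_of_transcendental [IsFF ℂ L] {z : L} (hz : Transcendental ℂ z) :
    ∃ (ev : ℂ[X][Y] →ₐ[ℂ] L) (P : ℂ[X][Y]), ev (C X) = z ∧ P.Monic ∧ 0 < P.natDegree ∧
      (∀ R : ℂ[X][Y], ev R = 0 ↔ P ∣ R) ∧
      ∀ h : L, ∃ (R : ℂ[X][Y]) (S : ℂ[X]), S ≠ 0 ∧ h * ev (C S) = ev R := by
  open scoped algebraAdjoinAdjoin in
  classical
  let A := Algebra.adjoin ℂ {z}
  let e := Polynomial.algEquivOfTranscendental ℂ z hz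
  have hpid : IsPrincipalIdealRing A := IsPrincipalIdealRing.of_surjective e.toRingEquiv e.surjective
  have hded : IsDedekindDomain A := inferInstance
  have hint : IsIntegrallyClosed A := inferInstance
  have hfin := IsFF.finite hz
  have hchar : CharZero ℂ⟮z⟯ := charZero_of_injective_algebraMap (algebraMap ℂ ℂ⟮z⟯).injective
  have hsep : Algebra.IsSeparable ℂ⟮z⟯ L := inferInstance
  obtain ⟨α, hα⟩ := Field.exists_primitive_element ℂ⟮z⟯ L
  have hαalg : IsAlgebraic A α := by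
    have h1 : IsAlgebraic ℂ⟮z⟯ α := Algebra.IsAlgebraic.isAlgebraic α
    exact (IsFractionRing.isAlgebraic_iff A ℂ⟮z⟯ L).mpr h1
  obtain ⟨b, hb0, hbint⟩ := hαalg.exists_integral_multiple
  obtain ⟨y, hy⟩ : ∃ y : L, y = b • α := ⟨_, rfl⟩
  rw [← hy] at hbint
  -- `y` is a primitive element
  have hyalg : IsAlgebraic ℂ⟮z⟯ y := Algebra.IsAlgebraic.isAlgebraic y
  have hytop : ∀ h : L, ∃ q : ℂ⟮z⟯[X], aeval y q = h := by
    have h1 : ℂ⟮z⟯⟮α⟯ ≤ ℂ⟮z⟯⟮y⟯ := by
      rw [IntermediateField.adjoin_simple_le_iff]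
      have h2 : α = (algebraMap A ℂ⟮z⟯ b)⁻¹ • y := by
        rw [hy, ← algebraMap_smul ℂ⟮z⟯ b α, smul_smul, inv_mul_cancel₀, one_smul]
        intro h3
        exact hb0 ((IsFractionRing.injective A ℂ⟮z⟯) (by rw [h3, map_zero]))
      rw [h2]
      exact ℂ⟮z⟯⟮y⟯.smul_mem (IntermediateField.mem_adjoin_simple_self ℂ⟮z⟯ y)
    intro h
    have h3 : h ∈ ℂ⟮z⟯⟮y⟯ := h1 (by rw [hα]; exact IntermediateField.mem_top)
    have h4 : h ∈ (ℂ⟮z⟯⟮y⟯).toSubalgebra := h3
    rw [IntermediateField.adjoin_simple_toSubalgebra_of_isAlgebraic hyalg,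
      Algebra.adjoin_singleton_eq_range_aeval] at h4
    exact h4
  obtain ⟨ev, hev⟩ : ∃ ev : ℂ[X][Y] →ₐ[ℂ] L, ∀ R : ℂ[X][Y],
      ev R = aeval y (R.map (e : ℂ[X] →+* A)) :=
    ⟨((aeval y : A[X] →ₐ[A] L).restrictScalars ℂ).comp (Polynomial.mapAlgHom (e : ℂ[X] →ₐ[ℂ] A)),
      fun R => rfl⟩
  have hes : ∀ q : A[X], (q.map (e.symm : A →+* ℂ[X])).map (e : ℂ[X] →+* A) = q := by
    intro q
    rw [Polynomial.map_map]
    have h1 : ((e : ℂ[X] →+* A).comp (e.symm : A →+* ℂ[X])) = RingHom.id A := by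
      ext x
      simp
    rw [h1, Polynomial.map_id]
  have hse : ∀ q : ℂ[X][Y], (q.map (e : ℂ[X] →+* A)).map (e.symm : A →+* ℂ[X]) = q := by
    intro q
    rw [Polynomial.map_map]
    have h1 : ((e.symm : A →+* ℂ[X]).comp (e : ℂ[X] →+* A)) = RingHom.id ℂ[X] := by
      ext x <;> simp
    rw [h1, Polynomial.map_id]
  have hevC : ∀ S : ℂ[X], ev (C S) = algebraMap A L (e S) := by
    intro S
    rw [hev, Polynomial.map_C, aeval_C]
    rfl
  refine ⟨ev, (minpoly A y).map (e.symm : A →+* ℂ[X]), ?_, ?_, ?_, ?_, ?_⟩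
  · rw [hevC]
    have h1 : e X = ⟨z, Algebra.self_mem_adjoin_singleton ℂ z⟩ :=
      Polynomial.algEquivOfTranscendental_apply_X ℂ z hz
    rw [h1]
    rfl
  · exact (minpoly.monic hbint).map _
  · rw [(minpoly.monic hbint).natDegree_map]
    exact minpoly.natDegree_pos hbint
  · intro R
    rw [hev, minpoly.isIntegrallyClosed_dvd_iff hbint]
    constructor
    · intro h
      have h1 := Polynomial.map_dvd (e.symm : A →+* ℂ[X]) h
      rwa [hse] at h1
    · intro h
      have h1 := Polynomial.map_dvd (e : ℂ[X] →+* A) h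
      rwa [hes] at h1
  · intro h
    obtain ⟨q, hq⟩ := hytop h
    obtain ⟨b', hb', hb'q⟩ := IsLocalization.integerNormalization_spec (nonZeroDivisors A) q
    obtain ⟨R', hR'⟩ : ∃ R' : A[X], R' = IsLocalization.integerNormalization (nonZeroDivisors A) q :=
      ⟨_, rfl⟩
    rw [← hR'] at hb'q
    have h1 : aeval y R' = algebraMap A L b' * h := by
      have h2 : aeval y (R'.map (algebraMap A ℂ⟮z⟯)) = aeval y R' := Polynomial.aeval_map_algebraMap _ _ _
      rw [← h2, hb'q, ← hq]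
      show aeval y (b' • q) = algebraMap A L b' * aeval y q
      rw [← algebraMap_smul ℂ⟮z⟯ b' q, map_smul, algebraMap_smul, Algebra.smul_def]
    refine ⟨R'.map (e.symm : A →+* ℂ[X]), e.symm b', ?_, ?_⟩
    · intro h2
      have h3 : b' = 0 := by
        have h4 := congrArg e h2
        rwa [AlgEquiv.apply_symm_apply, map_zero] at h4
      exact nonZeroDivisors.ne_zero hb' h3
    · rw [hevC, hev, hes, h1, AlgEquiv.apply_symm_apply, mul_comm]

end Pool.Agent.H918.PF.H21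

namespace Pool.Agent.H918.PF

variable {L : Type} [Field L] [Algebra ℂ L] {c : Place ℂ L} {ev : ℂ[X][Y] →ₐ[ℂ] L} {P : ℂ[X][Y]}

/-- PF-MODEL: every function field of a curve over `ℂ` has a plane model such that the only pole of
`Z` is a given place. -/
theorem exists_model [IsFF ℂ L] (c : Place ℂ L) :
    ∃ (ev : ℂ[X][Y] →ₐ[ℂ] L) (P : ℂ[X][Y]), Model c ev P := by
  obtain ⟨z, hz, hreg⟩ := H21.exists_fun c
  obtain ⟨ev, P, h1, h2, h3, h4, h5⟩ :=
    H21.model_of_transcendental (c.transcendental_of_ord_ne (f := z) (by omega))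
  refine ⟨ev, P, ⟨h2, h3, h4, h5, ?_, ?_⟩⟩
  · rw [h1]; exact hreg
  · rw [h1]; exact hz

end Pool.Agent.H918.PF
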