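import Pool.Agent.H918.G.Stm
import Pool.Agent.H918.E.Defs
import Pool.Graph.R_pool_sql_team_seeded_63374d34.N154.DD.KDefs
import Pool.Graph.R_seed8.W602.RG.Stm3
import Pool.Graph.R_seed8.Y216.Point

/-!
# PROJECT PF (helper918): maps from curves to projective surfaces over elliptic curves

Definitions for the geometric part.
-/

set_option autoImplicit false

open Polynomial FF Pool.Agent.W603.LV Pool.Agent.W602.GT Pool.Agent.N154.GG
open scoped Polynomial.Bivariate LinearAlgebra.Projectivization

namespace Pool.Agent.H918.PF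

/-- The vector with the coordinates `R k` at the point `(z, y)`. -/
noncomputable def vec {n : ℕ} (R : Fin (n + 1) → ℂ[X][Y]) (z y : ℂ) : Fin (n + 1) → ℂ :=
  fun k => evalEval z y (R k)

/-- `T` is the map from the points `(z, y)`, `z ∉ B₀`, of the curve `P = 0` to projective space with
the homogeneous coordinates `R k`; it is holomorphic along the branches (the common zeros of the `R k`
along a branch are divided out). -/
structure Pt {n : ℕ} (P : ℂ[X][Y]) (B₀ : Finset ℂ) (R : Fin (n + 1) → ℂ[X][Y])
    (T : ℂ → ℂ → ℙ ℂ (Fin (n + 1) → ℂ)) : Prop where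
  hol : ∀ (U : Set ℂ) (g : ℂ → ℂ), IsOpen U → (∀ z ∈ U, z ∉ B₀) → Branch P U g →
    HolMapOn U fun w => T w (g w)
  val : ∀ z y : ℂ, z ∉ B₀ → evalEval z y P = 0 → ∃ a : ℂ, vec R z y = a • (T z y).rep

/-- The composition of the map `α` from the projective set `X = {F = 0}` to the elliptic curve `ℂ / Λ`
with the embedding of `ℂ / Λ` into the projective plane by `(1 : ℘ : ℘')` is given by the forms `A j`.
(By Chow's theorem such forms exist for every holomorphic map `α` from an irreducible projective variety
to an elliptic curve whose image is not the point `0`.) -/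
structure WForms {n : ℕ} {ι : Type} (F : ι → MvPolynomial (Fin (n + 1)) ℂ) (Λ : PeriodPair)
    (α : (Fin (n + 1) → ℂ) → ℂ ⧸ Λ.lattice) (A : Fin 3 → MvPolynomial (Fin (n + 1)) ℂ) : Prop where
  form : ∃ e : ℕ, ∀ j, (A j).IsHomogeneous e
  zero : ∀ u ∈ Cone F, α u = 0 → val u (A 0) = 0
  eq : ∀ u ∈ Cone F, ∀ w : ℂ, w ∉ Λ.lattice → α u = Submodule.Quotient.mk w →
    val u (A 1) = Λ.weierstrassP w * val u (A 0) ∧
      val u (A 2) = Λ.derivWeierstrassP w * val u (A 0)

end Pool.Agent.H918.PF
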