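import Pool.Agent.H918.G.Defs
import Pool.Graph.R_seed8.Helper272.Arn.J5652

/-! PROJECT PF (helper918), task PF-BR: a branch through a given point over a convex open set. -/

set_option autoImplicit false

open Polynomial Filter Topology Metric
open scoped Polynomial.Bivariate

namespace Pool.Agent.H918.PF

/-- PF-BR: a branch through a given point over a convex open set (for example with
`AR.J5652.root_functions`, `Pool/Graph/R_pool_sql_team_seeded_b3bd081e/H734R3/Fib/Picard.lean`, used
in `H734R3/Fib/Puiseux.lean` next to it). -/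
theorem exists_branch {P : ℂ[X][Y]} (hP : P.Monic) {B₀ : Finset ℂ} (hs : SepOff P B₀) {U : Set ℂ}
    (hU : IsOpen U) (hc : Convex ℝ U) (hUB : ∀ z ∈ U, z ∉ B₀) {z₀ y₀ : ℂ} (hz : z₀ ∈ U)
    (hy : evalEval z₀ y₀ P = 0) : ∃ g : ℂ → ℂ, Branch P U g ∧ g z₀ = y₀ := by
  obtain ⟨α, hα1, -, hα3⟩ := AR.J5652.root_functions hU hc P.natDegree
    (fun z => P.map (evalRingHom z)) (fun i => by
      simp only [coeff_map, coe_evalRingHom]
      exact (P.coeff i).differentiable.differentiableOn)
    (fun z _ => hP.natDegree_map _) (fun z hz => hs z (hUB z hz))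
  have h0 : (P.map (evalRingHom z₀)).eval y₀ = 0 := by
    rw [map_evalRingHom_eval]; exact hy
  obtain ⟨j, hj⟩ := (hα3 z₀ hz y₀).mp h0
  refine ⟨α j, ⟨hα1 j, fun z hz' => ?_⟩, hj.symm⟩
  have h1 := (hα3 z hz' (α j z)).mpr ⟨j, rfl⟩
  rw [← map_evalRingHom_eval]
  exact h1

end Pool.Agent.H918.PF
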