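import Pool.Agent.H918.G.Geo
import Pool.Agent.H918.G.ZerosFinite
import Pool.Agent.H918.G.ExistsBranch

/-! PROJECT PF (helper918), task PF2-FORM (helper415): forms which vanish at the point `ev ∘ R`
vanish at the points `T z y`. -/

set_option autoImplicit false

open Polynomial FF Pool.Agent.W603.LV Pool.Agent.W603.PV Pool.Agent.W602.GT Pool.Agent.N154.GG
open Filter Topology Metric
open Pool.Agent.W602.RG (HasValue PointedMaps)
open Pool.Agent.Y216 (OnVar)
open Pool.Agent.H918.SS (ProjVariety HasReduction)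
open scoped Polynomial.Bivariate LinearAlgebra.Projectivization

namespace Pool.Agent.H918.PF

namespace H415

variable {n : ℕ}

/-- the value of `H (R)` at the point `(z, y)` -/
theorem evalEval_aeval (R : Fin (n + 1) → ℂ[X][Y]) (H : MvPolynomial (Fin (n + 1)) ℂ) (z y : ℂ) :
    evalEval z y (MvPolynomial.aeval R H) = val (vec R z y) H := by
  have h1 : (evalEvalRingHom z y).comp (algebraMap ℂ ℂ[X][Y]) = algebraMap ℂ ℂ := by
    ext a
    · simp [Polynomial.algebraMap_apply]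
  rw [← coe_evalEvalRingHom, MvPolynomial.aeval_def, MvPolynomial.hom_eval₂, h1]
  rfl

/-- the value of `H (R)` in the function field -/
theorem ev_aeval {L : Type} [Field L] [Algebra ℂ L] (ev : ℂ[X][Y] →ₐ[ℂ] L)
    (R : Fin (n + 1) → ℂ[X][Y]) (H : MvPolynomial (Fin (n + 1)) ℂ) :
    ev (MvPolynomial.aeval R H) = val (fun k => ev (R k)) H := by
  have h := MvPolynomial.comp_aeval R ev
  exact DFunLike.congr_fun h H

/-- forms are homogeneous functions -/
theorem val_smul {d : ℕ} {H : MvPolynomial (Fin (n + 1)) ℂ} (hd : H.IsHomogeneous d) (a : ℂ)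
    (u : Fin (n + 1) → ℂ) : val (a • u) H = a ^ d * val u H := by
  unfold val
  rw [MvPolynomial.aeval_def, MvPolynomial.aeval_def, MvPolynomial.eval₂_eq, MvPolynomial.eval₂_eq,
    Finset.mul_sum]
  refine Finset.sum_congr rfl fun m hm => ?_
  have h1 : ∑ i ∈ m.support, m i = d := by
    have := hd (MvPolynomial.mem_support_iff.1 hm)
    rw [← this, Finsupp.weight_apply, Finsupp.sum]
    simp
  have h2 : ∏ i ∈ m.support, (a • u) i ^ m i = a ^ d * ∏ i ∈ m.support, u i ^ m i := by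
    rw [← h1, ← Finset.prod_pow_eq_pow_sum, ← Finset.prod_mul_distrib]
    refine Finset.prod_congr rfl fun i _ => ?_
    rw [Pi.smul_apply, smul_eq_mul, mul_pow]
  rw [h2]
  ring

theorem val_smul_eq_zero {H : MvPolynomial (Fin (n + 1)) ℂ} (hH : IsForm H) {a : ℂ} (ha : a ≠ 0)
    {u : Fin (n + 1) → ℂ} : val (a • u) H = 0 ↔ val u H = 0 := by
  obtain ⟨d, hd⟩ := hH
  rw [val_smul hd]
  simp [ha]

/-- vanishing of a form at a point does not depend on the representative -/
theorem val_rep_mk {H : MvPolynomial (Fin (n + 1)) ℂ} (hH : IsForm H) {u : Fin (n + 1) → ℂ}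
    (hu : u ≠ 0) : val (Projectivization.mk ℂ u hu).rep H = 0 ↔ val u H = 0 := by
  obtain ⟨a, ha⟩ := Projectivization.exists_smul_eq_mk_rep ℂ u hu
  rw [← ha, Units.smul_def]
  exact val_smul_eq_zero hH a.ne_zero

/-- the values of a form along a continuous vector function -/
theorem continuousAt_val {H : MvPolynomial (Fin (n + 1)) ℂ} {φ : ℂ → Fin (n + 1) → ℂ} {z : ℂ}
    (hφ : ContinuousAt φ z) : ContinuousAt (fun w => val (φ w) H) z := by
  have h1 : Continuous fun u : Fin (n + 1) → ℂ => val u H := by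
    have : (fun u : Fin (n + 1) → ℂ => val u H) = fun u => MvPolynomial.eval u H := by
      funext u
      rfl
    rw [this]
    exact MvPolynomial.continuous_eval H
  exact h1.continuousAt.comp hφ

end H415

variable {L : Type} [Field L] [Algebra ℂ L] {c : Place ℂ L} {ev : ℂ[X][Y] →ₐ[ℂ] L} {P : ℂ[X][Y]}
  {B₀ : Finset ℂ} {n : ℕ} {ι : Type} {F : ι → MvPolynomial (Fin (n + 1)) ℂ} {Λ : PeriodPair}
  {α : (Fin (n + 1) → ℂ) → ℂ ⧸ Λ.lattice} {A : Fin 3 → MvPolynomial (Fin (n + 1)) ℂ}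
  {R R' : Fin (n + 1) → ℂ[X][Y]} {T T' : ℂ → ℂ → ℙ ℂ (Fin (n + 1) → ℂ)}

/-- PF2-FORM: forms which vanish at the point `ev ∘ R` vanish at the points `T z y`. -/
theorem pt_form (hM : Model c ev P) (hs : SepOff P B₀) (hT : Pt P B₀ R T) {k : Fin (n + 1)}
    (hk : ev (R k) ≠ 0) {H : MvPolynomial (Fin (n + 1)) ℂ} (hH : IsForm H)
    (h : val (fun k => ev (R k)) H = 0) {z y : ℂ} (hz : z ∉ B₀) (hy : evalEval z y P = 0) :
    val (T z y).rep H = 0 := by
  -- the form vanishes at the vectors `vec R w x`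
  have hvec : ∀ w x : ℂ, evalEval w x P = 0 → val (vec R w x) H = 0 := by
    intro w x hx
    have h1 : ev (MvPolynomial.aeval R H) = 0 := by rw [H415.ev_aeval, h]
    obtain ⟨E, hE⟩ := (hM.ker _).1 h1
    rw [← H415.evalEval_aeval, hE, evalEval_mul, hx, zero_mul]
  -- hence at the points `T w x` with `vec R w x ≠ 0`
  have hne : ∀ w x : ℂ, w ∉ B₀ → evalEval w x P = 0 → vec R w x ≠ 0 → val (T w x).rep H = 0 := by
    intro w x hw hx hv
    obtain ⟨a, ha⟩ := hT.val w x hw hx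
    have ha0 : a ≠ 0 := by
      rintro rfl
      exact hv (by rw [ha, zero_smul])
    have h1 := hvec w x hx
    rw [ha] at h1
    exact (H415.val_smul_eq_zero hH ha0).1 h1
  -- a branch through `(z, y)`
  obtain ⟨r, hr, hrB⟩ : ∃ r > 0, ∀ w ∈ ball z r, w ∉ B₀ := by
    have h1 : (↑B₀ : Set ℂ)ᶜ ∈ 𝓝 z :=
      (B₀.finite_toSet.isClosed.isOpen_compl).mem_nhds (by simpa using hz)
    obtain ⟨r, hr, hrs⟩ := Metric.mem_nhds_iff.1 h1
    exact ⟨r, hr, fun w hw => by simpa using hrs hw⟩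
  obtain ⟨g, hg, hgz⟩ := exists_branch hM.monic hs isOpen_ball (convex_ball z r) hrB
    (mem_ball_self hr) hy
  obtain ⟨V, φ, hV, hzV, hφ, hTφ⟩ := hT.hol (ball z r) g isOpen_ball hrB hg z (mem_ball_self hr)
  obtain ⟨s, hs0, hsz⟩ := zeros_finite hM hk
  have hev : ∀ᶠ w in 𝓝[≠] z, val (φ w) H = 0 := by
    have h1 : ∀ᶠ w in 𝓝[≠] z, w ∈ V := nhdsWithin_le_nhds (hV.mem_nhds hzV)
    have h2 : ∀ᶠ w in 𝓝[≠] z, w ∈ ball z r := nhdsWithin_le_nhds (ball_mem_nhds z hr)
    have h3 : ∀ᶠ w in 𝓝[≠] z, s.eval w ≠ 0 := by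
      have hfin : ({w : ℂ | s.eval w = 0}).Finite := by
        refine s.roots.toFinset.finite_toSet.subset fun w hw => ?_
        simpa [hs0] using hw
      have h4 : ∀ᶠ w in 𝓝[≠] z, w ∉ {w : ℂ | s.eval w = 0} \ {z} := by
        refine nhdsWithin_le_nhds (((hfin.subset Set.sdiff_subset).isClosed.isOpen_compl).mem_nhds ?_)
        simp
      filter_upwards [h4, self_mem_nhdsWithin] with w hw hwz h5
      exact hw ⟨h5, hwz⟩
    filter_upwards [h1, h2, h3] with w hw1 hw2 hw3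
    obtain ⟨hφw, hTw⟩ := hTφ w hw1
    have h5 : vec R w (g w) ≠ 0 := by
      intro h6
      exact hw3 (hsz w (g w) (hg.root w hw2) (congrFun h6 k))
    have h7 := hne w (g w) (hrB w hw2) (hg.root w hw2) h5
    have hTw' : T w (g w) = Projectivization.mk ℂ (φ w) hφw := hTw
    rw [hTw'] at h7
    exact (H415.val_rep_mk hH hφw).1 h7
  have hcont : ContinuousAt (fun w => val (φ w) H) z :=
    H415.continuousAt_val ((hφ z hzV).differentiableAt (hV.mem_nhds hzV)).continuousAt
  have hz0 : val (φ z) H = 0 := by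
    have h1 : Tendsto (fun w => val (φ w) H) (𝓝[≠] z) (𝓝 (val (φ z) H)) :=
      hcont.tendsto.mono_left nhdsWithin_le_nhds
    have h2 : Tendsto (fun w => val (φ w) H) (𝓝[≠] z) (𝓝 0) :=
      (tendsto_const_nhds (x := (0 : ℂ))).congr' (hev.mono fun w hw => hw.symm)
    exact tendsto_nhds_unique h1 h2
  obtain ⟨hφz, hTz⟩ := hTφ z hzV
  have hTz' : T z y = Projectivization.mk ℂ (φ z) hφz := by rw [← hgz]; exact hTz
  rw [hTz']
  exact (H415.val_rep_mk hH hφz).2 hz0

end Pool.Agent.H918.PF
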