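import Pool.Agent.H918.G.Defs
import Pool.Graph.R_pool_sql_team_seeded_b3bd081e.H734R3.Fib.Puiseux

/-! PROJECT PF (helper918), task PF-PUI: a Puiseux expansion at infinity. -/

set_option autoImplicit false

open Polynomial Filter Topology Metric
open scoped Polynomial.Bivariate

namespace Pool.Agent.H918.PF

namespace H881

/-- a polynomial is bounded by a power of `|w|` outside of the unit disc -/
theorem eval_growth (q : ℂ[X]) (D : ℕ) (hD : q.natDegree ≤ D) :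
    ∀ w : ℂ, 1 ≤ ‖w‖ → ‖q.eval w‖ ≤ (∑ i ∈ Finset.range (q.natDegree + 1), ‖q.coeff i‖) * ‖w‖ ^ D := by
  intro w hw
  rw [eval_eq_sum_range, Finset.sum_mul]
  refine (norm_sum_le _ _).trans (Finset.sum_le_sum fun i hi => ?_)
  rw [norm_mul, norm_pow]
  refine mul_le_mul_of_nonneg_left ?_ (norm_nonneg _)
  exact pow_le_pow_right₀ hw ((Nat.lt_succ_iff.mp (Finset.mem_range.mp hi)).trans hD)

/-- the roots of a monic polynomial of positive degree are bounded by `1 + ∑ |a_i|` -/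
theorem root_le {q : ℂ[X]} (hq : q.Monic) {v : ℂ} (hv : q.eval v = 0) :
    ‖v‖ ≤ 1 + ∑ i ∈ Finset.range q.natDegree, ‖q.coeff i‖ := by
  by_contra hcon
  push Not at hcon
  have hS : 0 ≤ ∑ i ∈ Finset.range q.natDegree, ‖q.coeff i‖ :=
    Finset.sum_nonneg fun _ _ => norm_nonneg _
  have hv1 : 1 < ‖v‖ := by linarith
  rw [eval_eq_sum_range, Finset.sum_range_succ, hq.coeff_natDegree, one_mul] at hv
  have h1 : v ^ q.natDegree = - ∑ i ∈ Finset.range q.natDegree, q.coeff i * v ^ i := by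
    linear_combination hv
  by_cases hd : q.natDegree = 0
  · rw [hd] at h1
    simp at h1
  have h2 : ‖v‖ ^ q.natDegree ≤ (∑ i ∈ Finset.range q.natDegree, ‖q.coeff i‖) *
      ‖v‖ ^ (q.natDegree - 1) := by
    rw [← norm_pow, h1, norm_neg, Finset.sum_mul]
    refine (norm_sum_le _ _).trans (Finset.sum_le_sum fun i hi => ?_)
    rw [norm_mul, norm_pow]
    refine mul_le_mul_of_nonneg_left ?_ (norm_nonneg _)
    exact pow_le_pow_right₀ hv1.le (Nat.le_sub_one_of_lt (Finset.mem_range.mp hi))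
  have h3 : ‖v‖ ^ q.natDegree = ‖v‖ * ‖v‖ ^ (q.natDegree - 1) := by
    rw [← pow_succ', Nat.sub_add_cancel (Nat.one_le_iff_ne_zero.mpr hd)]
  rw [h3] at h2
  have h4 := le_of_mul_le_mul_right h2 (pow_pos (by linarith) _)
  linarith

end H881

/-- PF-PUI: a Puiseux expansion at infinity (apply `Pool.Agent.H734R3.Fib.puiseux`,
`Pool/Graph/R_pool_sql_team_seeded_b3bd081e/H734R3/Fib/Puiseux.lean`, to `z ↦ P(1 / z, ·)`). -/
theorem puiseux_inf {P : ℂ[X][Y]} (hP : P.Monic) (hd : 0 < P.natDegree) {B₀ : Finset ℂ}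
    (hs : SepOff P B₀) : ∃ (N : ℕ) (ρ : ℝ) (a : ℂ → ℂ), 0 < N ∧ 0 < ρ ∧
      DifferentiableOn ℂ a (ball 0 ρ \ {0}) ∧ MeromorphicAt a 0 ∧
      ∀ t ∈ ball (0 : ℂ) ρ \ {0}, (t ^ N)⁻¹ ∉ B₀ ∧ evalEval (t ^ N)⁻¹ (a t) P = 0 := by
  classical
  -- the radius
  set R : ℝ := 1 + ∑ b ∈ B₀, ‖b‖ with hR
  have hR1 : 1 ≤ R := by
    rw [hR]
    have : 0 ≤ ∑ b ∈ B₀, ‖b‖ := Finset.sum_nonneg fun _ _ => norm_nonneg _
    linarith
  have hR0 : 0 < R := by linarith
  have hexp : Real.exp (-Real.log R) = R⁻¹ := by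
    rw [Real.exp_neg, Real.exp_log hR0]
  have hlarge : ∀ z ∈ ball (0 : ℂ) (Real.exp (-Real.log R)) \ {0}, R < ‖z⁻¹‖ := by
    intro z hz
    rw [hexp] at hz
    have hz0 : z ≠ 0 := hz.2
    have hz1 : ‖z‖ < R⁻¹ := by simpa using hz.1
    rw [norm_inv]
    exact (lt_inv_comm₀ hR0 (norm_pos_iff.mpr hz0)).mpr hz1
  have hnot : ∀ z ∈ ball (0 : ℂ) (Real.exp (-Real.log R)) \ {0}, z⁻¹ ∉ B₀ := by
    intro z hz hb
    have h1 := hlarge z hz
    have h2 : ‖z⁻¹‖ ≤ ∑ b ∈ B₀, ‖b‖ :=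
      Finset.single_le_sum (f := fun b : ℂ => ‖b‖) (fun _ _ => norm_nonneg _) hb
    rw [hR] at h1
    linarith
  -- the degree of the coefficients
  set d := P.natDegree with hdd
  set D : ℕ := ∑ i ∈ Finset.range d, (P.coeff i).natDegree with hD
  set K : ℝ := ∑ i ∈ Finset.range d, ∑ j ∈ Finset.range ((P.coeff i).natDegree + 1),
    ‖(P.coeff i).coeff j‖ with hK
  have hK0 : 0 ≤ K := Finset.sum_nonneg fun _ _ => Finset.sum_nonneg fun _ _ => norm_nonneg _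
  have hmon : ∀ z : ℂ, (P.map (evalRingHom z)).Monic := fun z => hP.map _
  have hdeg : ∀ z : ℂ, (P.map (evalRingHom z)).natDegree = d := fun z => hP.natDegree_map _
  have hbd : ∀ z ∈ ball (0 : ℂ) (Real.exp (-Real.log R)) \ {0}, ∀ v,
      (P.map (evalRingHom z⁻¹)).eval v = 0 → ‖v‖ * ‖z‖ ^ D ≤ 1 + K := by
    intro z hz v hv
    have hz0 : z ≠ 0 := hz.2
    have hzp : 0 < ‖z‖ := norm_pos_iff.mpr hz0
    have hl := hlarge z hz
    have hw1 : 1 ≤ ‖z⁻¹‖ := by linarith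
    have h1 := H881.root_le (hmon z⁻¹) hv
    rw [hdeg] at h1
    have h2 : ∑ i ∈ Finset.range d, ‖(P.map (evalRingHom z⁻¹)).coeff i‖ ≤ K * ‖z⁻¹‖ ^ D := by
      rw [hK, Finset.sum_mul]
      refine Finset.sum_le_sum fun i hi => ?_
      rw [coeff_map, coe_evalRingHom]
      exact H881.eval_growth _ D (Finset.single_le_sum (f := fun i => (P.coeff i).natDegree)
        (fun _ _ => Nat.zero_le _) hi) _ hw1
    have h3 : ‖z⁻¹‖ ^ D * ‖z‖ ^ D = 1 := by
      rw [← mul_pow, norm_inv, inv_mul_cancel₀ hzp.ne', one_pow]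
    have hz1 : ‖z‖ ≤ 1 := by
      by_contra h
      push Not at h
      rw [norm_inv] at hw1
      have := inv_lt_one_of_one_lt₀ h
      linarith
    have h4 : ‖z‖ ^ D ≤ 1 := pow_le_one₀ hzp.le hz1
    have h5 : 0 ≤ ‖z‖ ^ D := by positivity
    calc ‖v‖ * ‖z‖ ^ D ≤ (1 + K * ‖z⁻¹‖ ^ D) * ‖z‖ ^ D := by
          apply mul_le_mul_of_nonneg_right _ h5
          linarith
      _ = ‖z‖ ^ D + K * (‖z⁻¹‖ ^ D * ‖z‖ ^ D) := by ring
      _ ≤ 1 + K := by rw [h3]; linarith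
  obtain ⟨N, a, hN, ha1, -, ha3, ha4, ha5⟩ := Pool.Agent.H734R3.Fib.puiseux (-Real.log R) d
    (fun z => P.map (evalRingHom z⁻¹))
    (by
      intro i z hz
      have hz0 : z ≠ 0 := hz.2
      apply DifferentiableAt.differentiableWithinAt
      simp only [coeff_map, coe_evalRingHom]
      exact ((P.coeff i).differentiable _).comp z (differentiableAt_inv hz0))
    (fun z _ => hdeg _) (fun z hz => hs _ (hnot z hz)) (1 + K) D hbd
  refine ⟨N, Real.exp (-Real.log R / N), a ⟨0, hd⟩, hN, Real.exp_pos _, ha1 _, ha5 _, ?_⟩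
  intro t ht
  refine ⟨hnot _ (ha3 t ht), ?_⟩
  have h1 := (ha4 t ht (a ⟨0, hd⟩ t)).mpr ⟨_, rfl⟩
  rwa [map_evalRingHom_eval] at h1

end Pool.Agent.H918.PF

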