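import Pool.Agent.H918.G.Geo

/-! PROJECT PF, geometric tasks: TINF. -/

set_option autoImplicit false

open Polynomial FF Pool.Agent.W603.LV Pool.Agent.W602.GT Pool.Agent.N154.GG
open Filter Topology Metric
open scoped Polynomial.Bivariate LinearAlgebra.Projectivization

namespace Pool.Agent.H918.PF

namespace H643

theorem aeval_smul_hom {n d : ℕ} {G : MvPolynomial (Fin n) ℂ} (hG : G.IsHomogeneous d) (c : ℂ)
    (u : Fin n → ℂ) : MvPolynomial.aeval (c • u) G = c ^ d * MvPolynomial.aeval u G := by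
  rw [MvPolynomial.aeval_def, MvPolynomial.aeval_def, MvPolynomial.eval₂_eq,
    MvPolynomial.eval₂_eq, Finset.mul_sum]
  refine Finset.sum_congr rfl fun m hm => ?_
  have h1 : ∏ i ∈ m.support, (c • u) i ^ m i = c ^ d * ∏ i ∈ m.support, u i ^ m i := by
    have h2 : ∑ i ∈ m.support, m i = d := by
      have h3 := hG (MvPolynomial.mem_support_iff.1 hm)
      rw [Finsupp.weight_apply, Finsupp.sum] at h3
      simpa using h3
    simp only [Pi.smul_apply, smul_eq_mul, mul_pow, Finset.prod_mul_distrib]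
    rw [Finset.prod_pow_eq_pow_sum, h2]
  rw [h1]
  ring

theorem cone_smul {n : ℕ} {ι : Type} {F : ι → MvPolynomial (Fin (n + 1)) ℂ}
    (hF : ∀ i, IsForm (F i)) {u : Fin (n + 1) → ℂ} (hu : u ∈ Cone F) {c : ℂ} (hc : c ≠ 0) :
    c • u ∈ Cone F := by
  refine ⟨smul_ne_zero hc hu.1, fun i => ?_⟩
  obtain ⟨e, he⟩ := hF i
  have h1 : MvPolynomial.aeval u (F i) = 0 := hu.2 i
  unfold val
  rw [aeval_smul_hom he, h1, mul_zero]

end H643

variable {P : ℂ[X][Y]}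
  {B₀ : Finset ℂ} {n : ℕ} {ι : Type} {F : ι → MvPolynomial (Fin (n + 1)) ℂ} {Λ : PeriodPair}
  {α : (Fin (n + 1) → ℂ) → ℂ ⧸ Λ.lattice}
  {R : Fin (n + 1) → ℂ[X][Y]} {T : ℂ → ℂ → ℙ ℂ (Fin (n + 1) → ℂ)}

/-- PF2-TINF: the limit at infinity of the composition with the map to the elliptic curve. -/
theorem tau_inf (hF : ∀ i, IsForm (F i)) (hα : HolToTorus (Cone F) Λ α) {x : Fin (n + 1) → ℂ}
    (hx : x ∈ Cone F) {u₀ : ℂ} (hu : α x = Submodule.Quotient.mk u₀) (hT : Pt P B₀ R T)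
    (hTF : ∀ z y : ℂ, z ∉ B₀ → evalEval z y P = 0 → (T z y).rep ∈ Cone F) {j : Fin (n + 1)}
    (hj : x j ≠ 0) (hinf : ∀ ε : ℝ, 0 < ε → ∃ r : ℝ, ∀ z y : ℂ, r ≤ ‖z‖ → evalEval z y P = 0 →
      vec R z y j ≠ 0 ∧ ∀ i, ‖vec R z y i / vec R z y j - x i / x j‖ ≤ ε) {ε : ℝ} (hε : 0 < ε) :
    ∃ r : ℝ, ∀ z y : ℂ, r ≤ ‖z‖ → z ∉ B₀ → evalEval z y P = 0 →
      ∃ w : ℂ, ‖w‖ ≤ ε ∧ α (T z y).rep = Submodule.Quotient.mk (u₀ + w) := by
  obtain ⟨w, hw, hev⟩ := hα.hol x hx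
  have h1 : α x = Submodule.Quotient.mk (w x) := hev.self_of_nhds hx
  have h2 : w x - u₀ ∈ Λ.lattice := by
    rw [← Submodule.Quotient.eq, ← h1, hu]
  have h3 : ∀ᶠ u in 𝓝 x, ‖w u - w x‖ < ε := by
    have h4 := hw.continuousAt.tendsto
    rw [Metric.tendsto_nhds] at h4
    simpa only [dist_eq_norm] using h4 ε hε
  obtain ⟨δ, hδ, hball⟩ := Metric.eventually_nhds_iff.1 (hev.and h3)
  have hxj : 0 < ‖x j‖ := norm_pos_iff.2 hj
  obtain ⟨r, hr⟩ := hinf (δ / (2 * ‖x j‖)) (by positivity)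
  refine ⟨r, fun z y hz hzB hP => ?_⟩
  obtain ⟨h5, h6⟩ := hr z y hz hP
  obtain ⟨a, ha⟩ := hT.val z y hzB hP
  have ha0 : a ≠ 0 := by
    rintro rfl
    apply h5
    rw [ha, zero_smul]
    rfl
  have hc : x j / vec R z y j * a ≠ 0 := mul_ne_zero (div_ne_zero hj h5) ha0
  set v : Fin (n + 1) → ℂ := (x j / vec R z y j) • vec R z y with hv
  have hv1 : v = (x j / vec R z y j * a) • (T z y).rep := by
    rw [hv, mul_smul, ← ha]
  have hvF : v ∈ Cone F := by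
    rw [hv1]
    exact H643.cone_smul hF (hTF z y hzB hP) hc
  have hvα : α v = α (T z y).rep := by
    rw [hv1]
    exact hα.homog _ (hTF z y hzB hP) _ hc
  have hdist : dist v x < δ := by
    rw [dist_pi_lt_iff hδ]
    intro i
    rw [dist_eq_norm]
    have e : v i - x i = x j * (vec R z y i / vec R z y j - x i / x j) := by
      rw [hv, Pi.smul_apply, smul_eq_mul]
      field_simp
    rw [e, norm_mul]
    have h7 := mul_le_mul_of_nonneg_left (h6 i) hxj.le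
    have h8 : ‖x j‖ * (δ / (2 * ‖x j‖)) = δ / 2 := by
      field_simp
    linarith
  obtain ⟨h7, h8⟩ := hball hdist
  refine ⟨w v - w x, h8.le, ?_⟩
  rw [← hvα, h7 hvF, Submodule.Quotient.eq]
  have e : w v - (u₀ + (w v - w x)) = w x - u₀ := by ring
  rw [e]
  exact h2

end Pool.Agent.H918.PF
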