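import Pool.Agent.H918.G.Geo
import Pool.Agent.H918.G.ZerosFinite
import Pool.Agent.H918.G.Chain
import Pool.Agent.H918.E.Push

/-! PROJECT PF: the task `tau_loc` (helper603). -/

set_option autoImplicit false

open Polynomial FF Pool.Agent.W603.LV Pool.Agent.W603.PV Pool.Agent.W602.GT Pool.Agent.N154.GG
open Filter Topology Metric
open scoped Polynomial.Bivariate LinearAlgebra.Projectivization

namespace Pool.Agent.H918.PF

namespace H603

theorem evalEval_aeval {n : ℕ} (R : Fin (n + 1) → ℂ[X][Y]) (z y : ℂ)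
    (H : MvPolynomial (Fin (n + 1)) ℂ) :
    evalEval z y (MvPolynomial.aeval R H) = val (vec R z y) H := by
  unfold val
  induction H using MvPolynomial.induction_on with
  | C a =>
    rw [MvPolynomial.aeval_C, MvPolynomial.aeval_C]
    have h1 : algebraMap ℂ ℂ[X][Y] a = C (C a) := rfl
    rw [h1, evalEval_C, eval_C]
    rfl
  | add p q hp hq => rw [map_add, map_add, evalEval_add, hp, hq]
  | mul_X p k hp =>
    rw [map_mul, map_mul, MvPolynomial.aeval_X, MvPolynomial.aeval_X, evalEval_mul, hp]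
    rfl

theorem ev_aeval {L : Type} [Field L] [Algebra ℂ L] {n : ℕ} (ev : ℂ[X][Y] →ₐ[ℂ] L)
    (R : Fin (n + 1) → ℂ[X][Y]) (H : MvPolynomial (Fin (n + 1)) ℂ) :
    ev (MvPolynomial.aeval R H) = val (fun k => ev (R k)) H := by
  unfold val
  induction H using MvPolynomial.induction_on with
  | C a =>
    rw [MvPolynomial.aeval_C, MvPolynomial.aeval_C]
    exact ev.commutes a
  | add p q hp hq => rw [map_add, map_add, map_add, hp, hq]
  | mul_X p k hp =>
    rw [map_mul, map_mul, map_mul, MvPolynomial.aeval_X, MvPolynomial.aeval_X, hp]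

theorem val_smul' {n : ℕ} {H : MvPolynomial (Fin (n + 1)) ℂ} {d : ℕ} (hH : H.IsHomogeneous d)
    (a : ℂ) (v : Fin (n + 1) → ℂ) : val (a • v) H = a ^ d * val v H := by
  have h0 : (a • v) = fun i => a * v i := rfl
  rw [h0]
  unfold val
  rw [MvPolynomial.aeval_def, MvPolynomial.aeval_def, MvPolynomial.eval₂_eq',
    MvPolynomial.eval₂_eq', Finset.mul_sum]
  refine Finset.sum_congr rfl fun b hb => ?_
  have h1 : ∑ i, b i = d := by
    have h2 := hH (MvPolynomial.mem_support_iff.1 hb)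
    rw [← h2]
    simp [Finsupp.weight_apply, Finsupp.sum_fintype]
  have h2 : ∏ i, (a * v i) ^ b i = a ^ d * ∏ i, v i ^ b i := by
    rw [← h1, ← Finset.prod_pow_eq_pow_sum, ← Finset.prod_mul_distrib]
    exact Finset.prod_congr rfl fun i _ => by rw [mul_pow]
  rw [h2]
  ring

theorem val_cont {n : ℕ} (H : MvPolynomial (Fin (n + 1)) ℂ) :
    Continuous fun v : Fin (n + 1) → ℂ => val v H := by
  unfold val
  have h1 : (fun v : Fin (n + 1) → ℂ => MvPolynomial.aeval v H) =
      fun v => MvPolynomial.eval v H := by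
    funext v
    rw [MvPolynomial.aeval_eq_eval]
  rw [h1]
  exact MvPolynomial.continuous_eval H

/-- the exceptional points of a polynomial are isolated -/
theorem ev_ne {s : ℂ[X]} (hs : s ≠ 0) (z : ℂ) : ∀ᶠ w in 𝓝[≠] z, s.eval w ≠ 0 := by
  have h1 : (s.rootSet ℂ).Finite := s.rootSet_finite ℂ
  have h2 : ∀ᶠ w in 𝓝[≠] z, w ∉ s.rootSet ℂ := by
    have h3 : (s.rootSet ℂ \ {z}).Finite := h1.subset Set.sdiff_subset
    have h4 : (s.rootSet ℂ \ {z})ᶜ ∈ 𝓝 z :=
      h3.isClosed.isOpen_compl.mem_nhds fun h => h.2 rfl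
    filter_upwards [nhdsWithin_le_nhds h4, self_mem_nhdsWithin] with w hw1 hw2 hw3
    exact hw1 ⟨hw3, hw2⟩
  filter_upwards [h2] with w hw h0
  apply hw
  rw [mem_rootSet]
  refine ⟨hs, ?_⟩
  rw [coe_aeval_eq_eval]
  exact h0

/-- two continuous functions which agree outside of a point -/
theorem eq_at {f g : ℂ → ℂ} {z : ℂ} (hf : ContinuousAt f z) (hg : ContinuousAt g z)
    (h : ∀ᶠ w in 𝓝[≠] z, f w = g w) : f z = g z := by
  have h1 : Tendsto f (𝓝[≠] z) (𝓝 (f z)) := hf.tendsto.mono_left nhdsWithin_le_nhds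
  have h2 : Tendsto f (𝓝[≠] z) (𝓝 (g z)) :=
    (hg.tendsto.mono_left nhdsWithin_le_nhds).congr' (h.mono fun w hw => hw.symm)
  exact tendsto_nhds_unique h1 h2

end H603

variable {L : Type} [Field L] [Algebra ℂ L] {c : Place ℂ L} {ev : ℂ[X][Y] →ₐ[ℂ] L} {P : ℂ[X][Y]}
  {B₀ : Finset ℂ} {n : ℕ} {ι : Type} {F : ι → MvPolynomial (Fin (n + 1)) ℂ} {Λ : PeriodPair}
  {α : (Fin (n + 1) → ℂ) → ℂ ⧸ Λ.lattice} {A : Fin 3 → MvPolynomial (Fin (n + 1)) ℂ}
  {R R' : Fin (n + 1) → ℂ[X][Y]} {T T' : ℂ → ℂ → ℙ ℂ (Fin (n + 1) → ℂ)}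

open H603 in
/-- PF2-LOC: the composition with the map to the elliptic curve is holomorphic along the branches and
its derivative with respect to `z` is the rational function `η = (d a / dZ) / b`, where `a`, `b` are
the pull-backs of `℘`, `℘'`. (`hk` is needed.) -/
theorem tau_loc (hM : Model c ev P) (hs : SepOff P B₀) {k : Fin (n + 1)} (hk : ev (R k) ≠ 0)
    {D : Derivation ℂ L L}
    (hD : D (ev (C X)) = 1) (hF : ∀ i, IsForm (F i)) (hα : HolToTorus (Cone F) Λ α)
    (hA : WForms F Λ α A) (hT : Pt P B₀ R T) (hFR : ∀ i, val (fun k => ev (R k)) (F i) = 0)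
    (h0 : val (fun k => ev (R k)) (A 0) ≠ 0) (h2 : val (fun k => ev (R k)) (A 2) ≠ 0) {η : L}
    (hη : η * (val (fun k => ev (R k)) (A 2) / val (fun k => ev (R k)) (A 0)) =
      D (val (fun k => ev (R k)) (A 1) / val (fun k => ev (R k)) (A 0)))
    (U : Set ℂ) (g : ℂ → ℂ) (hU : IsOpen U) (hUB : ∀ z ∈ U, z ∉ B₀) (hg : Branch P U g) (z : ℂ)
    (hz : z ∈ U) : ∃ β : ℂ → ℂ, AnalyticAt ℂ β z ∧ ∀ᶠ w in 𝓝 z,
      α (T w (g w)).rep = Submodule.Quotient.mk (β w) ∧
      ∀ (R' : ℂ[X][Y]) (S : ℂ[X]), η * ev (C S) = ev R' →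
        S.eval w * deriv β w = evalEval w (g w) R' := by
  obtain ⟨e, hAe⟩ := hA.form
  -- the exceptional polynomials
  obtain ⟨s₁, hs₁, hz₁⟩ := zeros_finite hM (W := MvPolynomial.aeval R (A 0))
    (by rw [ev_aeval]; exact h0)
  obtain ⟨s₂, hs₂, hz₂⟩ := zeros_finite hM hk
  obtain ⟨s₃, hs₃, hz₃⟩ := zeros_finite hM (W := MvPolynomial.aeval R (A 2))
    (by rw [ev_aeval]; exact h2)
  obtain ⟨a, ha⟩ : ∃ a : L, a = val (fun k => ev (R k)) (A 1) / val (fun k => ev (R k)) (A 0) :=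
    ⟨_, rfl⟩
  obtain ⟨R₁, S₁, hS₁, hR₁⟩ := hM.frac a
  obtain ⟨R₂, S₂, hS₂, hR₂⟩ := hM.frac (D a)
  rw [← ha] at hη
  have ha' : a * val (fun k => ev (R k)) (A 0) = val (fun k => ev (R k)) (A 1) := by
    rw [ha, div_mul_cancel₀ _ h0]
  have hη' : η * val (fun k => ev (R k)) (A 2) = D a * val (fun k => ev (R k)) (A 0) := by
    rw [← hη]
    field_simp
  -- identities on the curve
  have id1 : ∀ w y : ℂ, evalEval w y P = 0 →
      evalEval w y R₁ * val (vec R w y) (A 0) = val (vec R w y) (A 1) * S₁.eval w := by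
    intro w y hy
    have h3 : ev (R₁ * MvPolynomial.aeval R (A 0) - MvPolynomial.aeval R (A 1) * C S₁) = 0 := by
      rw [map_sub, map_mul, map_mul, ev_aeval, ev_aeval, ← hR₁, ← ha']
      ring
    obtain ⟨E, hE⟩ := (hM.ker _).1 h3
    have h4 : evalEval w y (R₁ * MvPolynomial.aeval R (A 0) -
        MvPolynomial.aeval R (A 1) * C S₁) = 0 := by
      rw [hE, evalEval_mul, hy, zero_mul]
    rw [evalEval_sub, evalEval_mul, evalEval_mul, evalEval_aeval, evalEval_aeval, evalEval_C] at h4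
    exact sub_eq_zero.mp h4
  have id2 : ∀ (R' : ℂ[X][Y]) (S : ℂ[X]), η * ev (C S) = ev R' → ∀ w y : ℂ,
      evalEval w y P = 0 → evalEval w y R' * val (vec R w y) (A 2) * S₂.eval w =
        evalEval w y R₂ * val (vec R w y) (A 0) * S.eval w := by
    intro R' S hRS w y hy
    have h3 : ev (R' * MvPolynomial.aeval R (A 2) * C S₂ -
        R₂ * MvPolynomial.aeval R (A 0) * C S) = 0 := by
      rw [map_sub, map_mul, map_mul, map_mul, map_mul, ev_aeval, ev_aeval, ← hR₂, ← hRS]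
      linear_combination (ev (C S) * ev (C S₂)) * hη'
    obtain ⟨E, hE⟩ := (hM.ker _).1 h3
    have h4 : evalEval w y (R' * MvPolynomial.aeval R (A 2) * C S₂ -
        R₂ * MvPolynomial.aeval R (A 0) * C S) = 0 := by
      rw [hE, evalEval_mul, hy, zero_mul]
    rw [evalEval_sub, evalEval_mul, evalEval_mul, evalEval_mul, evalEval_mul, evalEval_aeval,
      evalEval_aeval, evalEval_C, evalEval_C] at h4
    exact sub_eq_zero.mp h4
  -- the points are in the cone
  have hcone : ∀ w ∈ U, s₂.eval w ≠ 0 → (T w (g w)).rep ∈ Cone F := by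
    intro w hw hsw
    refine ⟨Projectivization.rep_nonzero _, fun i => ?_⟩
    obtain ⟨d, hd⟩ := hF i
    obtain ⟨b, hb⟩ := hT.val w (g w) (hUB w hw) (hg.root w hw)
    have h3 : ev (MvPolynomial.aeval R (F i)) = 0 := by rw [ev_aeval]; exact hFR i
    obtain ⟨E, hE⟩ := (hM.ker _).1 h3
    have h4 : val (vec R w (g w)) (F i) = 0 := by
      rw [← evalEval_aeval, hE, evalEval_mul, hg.root w hw, zero_mul]
    rw [hb, val_smul' hd] at h4
    have hb0 : b ≠ 0 := by
      intro h5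
      apply hsw
      apply hz₂ w (g w) (hg.root w hw)
      have h6 := congrFun hb k
      rw [h5, zero_smul] at h6
      exact h6
    exact (mul_eq_zero.mp h4).resolve_left (pow_ne_zero _ hb0)
  -- the lift
  have hhol := hT.hol U g hU hUB hg
  obtain ⟨l, hl, hlf⟩ := Pool.Agent.H918.SS.H665p.lift hhol hz
  have hlne : ∀ᶠ w in 𝓝[≠] z, l w ∈ Cone F := by
    filter_upwards [nhdsWithin_le_nhds hlf, ev_ne hs₂ z, nhdsWithin_le_nhds (hU.mem_nhds hz)]
      with w h3 h4 h5
    obtain ⟨-, b, hb, h6⟩ := h3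
    rw [h6]
    exact Pool.Agent.H918.SS.cone_smulF hF (hcone w h5 h4) hb
  have hlz : l z ∈ Cone F := by
    refine ⟨hlf.self_of_nhds.1, fun i => ?_⟩
    exact eq_at (g := fun _ => (0 : ℂ)) ((val_cont (F i)).continuousAt.comp hl.continuousAt)
      continuousAt_const (hlne.mono fun w hw => hw.2 i)
  have hlC : ∀ᶠ w in 𝓝 z, l w ∈ Cone F := by
    rw [eventually_nhdsWithin_iff] at hlne
    filter_upwards [hlne] with w hw
    by_cases h3 : w = z
    · rw [h3]; exact hlz
    · exact hw h3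
  obtain ⟨β, hβ, hβe⟩ := Pool.Agent.H918.SS.H665p.tor hα hl hlz
  have hβα : ∀ᶠ w in 𝓝 z, α (T w (g w)).rep = Submodule.Quotient.mk (β w) ∧
      (T w (g w)).rep ∈ Cone F := by
    filter_upwards [hlf, hlC, hβe] with w h3 h4 h5
    obtain ⟨-, b, hb, h6⟩ := h3
    have h7 : (T w (g w)).rep = b⁻¹ • l w := by
      rw [h6, smul_smul, inv_mul_cancel₀ hb, one_smul]
    have h8 : (T w (g w)).rep ∈ Cone F := by
      rw [h7]
      exact Pool.Agent.H918.SS.cone_smulF hF h4 (inv_ne_zero hb)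
    refine ⟨?_, h8⟩
    rw [← h5 h4, h6, hα.homog _ h8 b hb]
  -- the values of the Weierstrass functions
  have hgood : ∀ᶠ w in 𝓝[≠] z, w ∈ U ∧ β w ∉ Λ.lattice ∧ val (vec R w (g w)) (A 0) ≠ 0 ∧
      val (vec R w (g w)) (A 1) = Λ.weierstrassP (β w) * val (vec R w (g w)) (A 0) ∧
      val (vec R w (g w)) (A 2) = Λ.derivWeierstrassP (β w) * val (vec R w (g w)) (A 0) := by
    filter_upwards [nhdsWithin_le_nhds hβα, ev_ne hs₁ z, nhdsWithin_le_nhds (hU.mem_nhds hz)]
      with w h3 h4 h5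
    obtain ⟨h6, h7⟩ := h3
    have hA0 : val (vec R w (g w)) (A 0) ≠ 0 := by
      intro h8
      apply h4
      apply hz₁ w (g w) (hg.root w h5)
      rw [evalEval_aeval]
      exact h8
    obtain ⟨b, hb⟩ := hT.val w (g w) (hUB w h5) (hg.root w h5)
    have hA0' : val (T w (g w)).rep (A 0) ≠ 0 := by
      intro h8
      apply hA0
      rw [hb, val_smul' (hAe 0), h8, mul_zero]
    have hβΛ : β w ∉ Λ.lattice := by
      intro h8
      apply hA0'
      apply hA.zero _ h7
      rw [h6]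
      exact (Submodule.Quotient.mk_eq_zero _).mpr h8
    obtain ⟨h9, h10⟩ := hA.eq _ h7 (β w) hβΛ h6
    refine ⟨h5, hβΛ, hA0, ?_, ?_⟩
    · rw [hb, val_smul' (hAe 1), val_smul' (hAe 0), h9]
      ring
    · rw [hb, val_smul' (hAe 2), val_smul' (hAe 0), h10]
      ring
  -- the derivative
  have hder : ∀ᶠ w in 𝓝[≠] z, ∀ (R' : ℂ[X][Y]) (S : ℂ[X]), η * ev (C S) = ev R' →
      S.eval w * deriv β w = evalEval w (g w) R' := by
    have hβan : ∀ᶠ w in 𝓝[≠] z, AnalyticAt ℂ β w :=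
      nhdsWithin_le_nhds hβ.eventually_analyticAt
    have hev : ∀ᶠ w in 𝓝[≠] z, ∀ᶠ x in 𝓝 w, x ∈ U ∧ β x ∉ Λ.lattice ∧
        val (vec R x (g x)) (A 0) ≠ 0 ∧
        val (vec R x (g x)) (A 1) = Λ.weierstrassP (β x) * val (vec R x (g x)) (A 0) ∧
        val (vec R x (g x)) (A 2) = Λ.derivWeierstrassP (β x) * val (vec R x (g x)) (A 0) := by
      have h3 := eventually_eventually_nhdsWithin.mpr hgood
      filter_upwards [h3, self_mem_nhdsWithin] with w hw hwz
      have h4 : 𝓝[≠] z ≤ 𝓝[≠] z := le_rfl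
      have h5 : 𝓝[{z}ᶜ] w = 𝓝 w := isOpen_compl_singleton.nhdsWithin_eq hwz
      rw [h5] at hw
      exact hw
    have hevS : ∀ᶠ w in 𝓝[≠] z, ∀ᶠ x in 𝓝 w, S₁.eval x ≠ 0 := by
      filter_upwards [ev_ne hS₁ z] with w hw
      exact S₁.continuous.continuousAt.eventually_ne hw
    filter_upwards [hβan, hev, hevS, ev_ne hS₁ z, ev_ne hS₂ z, ev_ne hs₃ z] with
      w h3 h4 h5 h6 h7 h8
    intro R' S hRS
    obtain ⟨g1, g2, g3, g4, g5⟩ := h4.self_of_nhds
    have hchain := chain hM hD hs hR₁ hR₂ hU hUB hg g1 h6 h7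
    have hP : HasDerivAt Λ.weierstrassP (Λ.derivWeierstrassP (β w)) (β w) := by
      have h9 : DifferentiableAt ℂ Λ.weierstrassP (β w) :=
        (Λ.analyticOnNhd_weierstrassP (β w) g2).differentiableAt
      have h10 := h9.hasDerivAt
      rw [PeriodPair.deriv_weierstrassP] at h10
      exact h10
    have hcomp : HasDerivAt (fun x => Λ.weierstrassP (β x))
        (Λ.derivWeierstrassP (β w) * deriv β w) w :=
      hP.comp w h3.differentiableAt.hasDerivAt
    have hcongr : (fun x => evalEval x (g x) R₁ / S₁.eval x) =ᶠ[𝓝 w]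
        fun x => Λ.weierstrassP (β x) := by
      filter_upwards [h4, h5] with x h9 h10
      obtain ⟨k1, k2, k3, k4, k5⟩ := h9
      have h11 := id1 x (g x) (hg.root x k1)
      rw [k4] at h11
      rw [div_eq_iff h10]
      apply mul_right_cancel₀ k3
      linear_combination h11
    have hun := (hcomp.congr_of_eventuallyEq hcongr).unique hchain
    have hA2 : val (vec R w (g w)) (A 2) ≠ 0 := by
      intro h9
      apply h8
      apply hz₃ w (g w) (hg.root w g1)
      rw [evalEval_aeval]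
      exact h9
    have hP' : Λ.derivWeierstrassP (β w) ≠ 0 := by
      intro h9
      apply hA2
      rw [g5, h9, zero_mul]
    have h9 := id2 R' S hRS w (g w) (hg.root w g1)
    rw [g5] at h9
    have h10 : evalEval w (g w) R₂ = Λ.derivWeierstrassP (β w) * deriv β w * S₂.eval w := by
      rw [hun, div_mul_cancel₀ _ h7]
    rw [h10] at h9
    have h11 : (Λ.derivWeierstrassP (β w) * val (vec R w (g w)) (A 0) * S₂.eval w) *
        (S.eval w * deriv β w) = (Λ.derivWeierstrassP (β w) * val (vec R w (g w)) (A 0) *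
        S₂.eval w) * evalEval w (g w) R' := by
      linear_combination -h9
    exact mul_left_cancel₀ (mul_ne_zero (mul_ne_zero hP' g3) h7) h11
  have hderz : ∀ (R' : ℂ[X][Y]) (S : ℂ[X]), η * ev (C S) = ev R' →
      S.eval z * deriv β z = evalEval z (g z) R' := by
    intro R' S hRS
    have hgd : HasDerivAt g (deriv g z) z :=
      ((hg.diff z hz).differentiableAt (hU.mem_nhds hz)).hasDerivAt
    exact eq_at (f := fun w => S.eval w * deriv β w) (g := fun w => evalEval w (g w) R')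
      (S.continuous.continuousAt.mul hβ.deriv.continuousAt)
      (H767.hasDerivAt_ev R' g _ z hgd).continuousAt (hder.mono fun w hw => hw R' S hRS)
  refine ⟨β, hβ, ?_⟩
  rw [eventually_nhdsWithin_iff] at hder
  filter_upwards [hβα, hder] with w h3 h4
  refine ⟨h3.1, ?_⟩
  by_cases h5 : w = z
  · rw [h5]
    exact hderz
  · exact h4 h5

end Pool.Agent.H918.PF
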