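import Pool.Agent.H918.G.Stm

/-! PROJECT PF, the coefficient bound. -/

set_option autoImplicit false

open Polynomial FF Pool.Agent.W603.LV Filter Topology Metric
open scoped Polynomial.Bivariate

namespace Pool.Agent.H918.PF

variable {L : Type} [Field L] [Algebra ℂ L] {c : Place ℂ L} {ev : ℂ[X][Y] →ₐ[ℂ] L} {P : ℂ[X][Y]}

namespace H650

/-- a function which is not zero in `L` has zeros on the curve over finitely many `z` only -/
theorem zf (hM : Model c ev P) {W : ℂ[X][Y]} (hW : ev W ≠ 0) :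
    ∃ s : ℂ[X], s ≠ 0 ∧ ∀ z y : ℂ, evalEval z y P = 0 → evalEval z y W = 0 → s.eval z = 0 := by
  obtain ⟨R, S, hS, h⟩ := hM.frac (ev W)⁻¹
  have h1 : P ∣ C S - W * R := by
    rw [← hM.ker, map_sub, map_mul, ← h, mul_inv_cancel_left₀ hW, sub_self]
  obtain ⟨Q, hQ⟩ := h1
  refine ⟨S, hS, fun z y hP hW' => ?_⟩
  have h2 : evalEval z y (C S) = evalEval z y (W * R + P * Q) := by
    rw [← hQ, add_sub_cancel]
  rw [evalEval_C, evalEval_add, evalEval_mul, evalEval_mul, hP, hW'] at h2
  simpa using h2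

theorem ev_C_ne (hM : Model c ev P) {S : ℂ[X]} (hS : S ≠ 0) : ev (C S) ≠ 0 := by
  intro h
  rw [hM.ker] at h
  have h1 : (C S : ℂ[X][Y]) ≠ 0 := by rwa [Ne, C_eq_zero]
  have h2 := Polynomial.degree_le_of_dvd h h1
  have h3 := Polynomial.degree_C_le (a := S)
  have h4 : (0 : WithBot ℕ) < P.degree := by
    rw [Polynomial.degree_eq_natDegree hM.monic.ne_zero]
    exact_mod_cast hM.pos
  exact absurd (h2.trans h3) (not_le.mpr h4)

/-- common denominator -/
theorem common (hM : Model c ev P) {g : ℕ} (e : Fin g → L) :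
    ∃ (R : Fin g → ℂ[X][Y]) (S : ℂ[X]), S ≠ 0 ∧ ∀ i, e i * ev (C S) = ev (R i) := by
  choose R S hS h using fun i => hM.frac (e i)
  refine ⟨fun i => R i * C (∏ j ∈ Finset.univ.erase i, S j), ∏ j, S j,
    Finset.prod_ne_zero_iff.mpr fun j _ => hS j, fun i => ?_⟩
  have h1 : (∏ j, S j) = S i * ∏ j ∈ Finset.univ.erase i, S j :=
    (Finset.mul_prod_erase Finset.univ S (Finset.mem_univ i)).symm
  rw [h1, C_mul, map_mul, map_mul, ← h i, mul_assoc]

theorem not_zero_on {U : Set ℂ} (hU : IsOpen U) (hne : U.Nonempty) {s : ℂ[X]}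
    (h : ∀ z ∈ U, s.eval z = 0) : s = 0 := by
  apply Polynomial.eq_zero_of_infinite_isRoot
  have h1 : U.Infinite := by
    obtain ⟨z, hz⟩ := hne
    exact infinite_of_mem_nhds z (hU.mem_nhds hz)
  exact h1.mono h

end H650

/-- PF-NORM: on the space spanned by linearly independent functions `e i`, the coefficients are
bounded by the values on a branch. -/
theorem coeff_bound (hM : Model c ev P) {g : ℕ} {e : Fin g → L} (he : LinearIndependent ℂ e)
    {U : Set ℂ} (hU : IsOpen U) (hne : U.Nonempty) {γ : ℂ → ℂ} (hγ : Branch P U γ) :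
    ∃ K : ℝ, ∀ (a : Fin g → ℂ) (A : ℝ), 0 ≤ A →
      (∀ (R : ℂ[X][Y]) (S : ℂ[X]), (∑ i, a i • e i) * ev (C S) = ev R → ∀ z ∈ U,
        S.eval z ≠ 0 → ‖evalEval z (γ z) R‖ ≤ A * ‖S.eval z‖) → ∀ i, ‖a i‖ ≤ K * A := by
  obtain ⟨R, S, hS, hRS⟩ := H650.common hM e
  have hsum : ∀ a : Fin g → ℂ, (∑ i, a i • e i) * ev (C S) = ev (∑ i, a i • R i) := by
    intro a
    rw [map_sum, Finset.sum_mul]
    refine Finset.sum_congr rfl fun i _ => ?_
    rw [map_smul, ← hRS i, smul_mul_assoc]
  have hev : ∀ (a : Fin g → ℂ) (z y : ℂ), evalEval z y (∑ i, a i • R i) =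
      ∑ i, a i * evalEval z y (R i) := by
    intro a z y
    rw [evalEval_finsetSum]
    refine Finset.sum_congr rfl fun i _ => ?_
    have h1 : a i • R i = CC (a i) * R i := by
      ext n m
      simp [CC, Algebra.smul_def]
    rw [h1, evalEval_mul, evalEval_CC]
  have hLI : LinearIndependent ℂ (fun (i : Fin g) (x : {z : ℂ // z ∈ U ∧ S.eval z ≠ 0}) =>
      evalEval x.1 (γ x.1) (R i)) := by
    rw [Fintype.linearIndependent_iff] at he ⊢
    intro a ha
    apply he
    have h1 : ∀ z ∈ U, S.eval z ≠ 0 → evalEval z (γ z) (∑ i, a i • R i) = 0 := by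
      intro z hz hSz
      rw [hev]
      have h2 := congrFun ha ⟨z, hz, hSz⟩
      simpa using h2
    have h3 : ev (∑ i, a i • R i) = 0 := by
      by_contra h4
      obtain ⟨s, hs, hs2⟩ := H650.zf hM h4
      have h5 : s * S = 0 := by
        apply H650.not_zero_on hU hne
        intro z hz
        rw [eval_mul]
        by_cases h6 : S.eval z = 0
        · rw [h6, mul_zero]
        · rw [hs2 z (γ z) (hγ.root z hz) (h1 z hz h6), zero_mul]
      rcases mul_eq_zero.mp h5 with h6 | h6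
      · exact hs h6
      · exact hS h6
    rw [← hsum] at h3
    exact (mul_eq_zero.mp h3).resolve_right (H650.ev_C_ne hM hS)
  have hspan := span_flip_eq_top_iff_linearIndependent.mpr hLI
  have key : ∀ w : Fin g → ℂ, ∃ K : ℝ, ∀ (a : Fin g → ℂ) (A : ℝ), 0 ≤ A →
      (∀ (R : ℂ[X][Y]) (S : ℂ[X]), (∑ i, a i • e i) * ev (C S) = ev R → ∀ z ∈ U,
        S.eval z ≠ 0 → ‖evalEval z (γ z) R‖ ≤ A * ‖S.eval z‖) → ‖∑ i, a i * w i‖ ≤ K * A := by
    intro w
    have hw : w ∈ Submodule.span ℂ (Set.range (flip (fun (i : Fin g)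
        (x : {z : ℂ // z ∈ U ∧ S.eval z ≠ 0}) => evalEval x.1 (γ x.1) (R i)))) := by
      rw [hspan]; trivial
    induction hw using Submodule.span_induction with
    | mem v hv =>
      obtain ⟨x, rfl⟩ := hv
      refine ⟨‖S.eval x.1‖, fun a A _ h => ?_⟩
      have h1 := h _ _ (hsum a) x.1 x.2.1 x.2.2
      rw [hev] at h1
      rw [mul_comm]
      exact h1
    | zero => exact ⟨0, fun a A _ _ => by simp⟩
    | add v v' _ _ hv hv' =>
      obtain ⟨K, hK⟩ := hv
      obtain ⟨K', hK'⟩ := hv'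
      refine ⟨K + K', fun a A hA h => ?_⟩
      have h1 := hK a A hA h
      have h2 := hK' a A hA h
      have h3 : ∑ i, a i * (v + v') i = (∑ i, a i * v i) + ∑ i, a i * v' i := by
        rw [← Finset.sum_add_distrib]
        exact Finset.sum_congr rfl fun i _ => by rw [Pi.add_apply, mul_add]
      rw [h3, add_mul]
      exact (norm_add_le _ _).trans (add_le_add h1 h2)
    | smul b v _ hv =>
      obtain ⟨K, hK⟩ := hv
      refine ⟨‖b‖ * K, fun a A hA h => ?_⟩
      have h1 := hK a A hA h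
      have h3 : ∑ i, a i * (b • v) i = b * ∑ i, a i * v i := by
        rw [Finset.mul_sum]
        exact Finset.sum_congr rfl fun i _ => by
          rw [Pi.smul_apply, smul_eq_mul]; ring
      rw [h3, norm_mul, mul_assoc]
      exact mul_le_mul_of_nonneg_left h1 (norm_nonneg b)
  choose K hK using fun i : Fin g => key (Pi.single i 1)
  refine ⟨∑ i, |K i|, fun a A hA h i => ?_⟩
  have h1 := hK i a A hA h
  have h2 : ∑ j, a j * (Pi.single i (1 : ℂ) : Fin g → ℂ) j = a i := by
    rw [Finset.sum_eq_single i]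
    · rw [Pi.single_eq_same, mul_one]
    · intro j _ hj
      rw [Pi.single_eq_of_ne hj, mul_zero]
    · intro h; exact absurd (Finset.mem_univ i) h
  rw [h2] at h1
  refine h1.trans (mul_le_mul_of_nonneg_right ?_ hA)
  exact (le_abs_self (K i)).trans
    (Finset.single_le_sum (f := fun i => |K i|) (fun j _ => abs_nonneg _) (Finset.mem_univ i))

end Pool.Agent.H918.PF
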