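import Pool.Agent.H918.G.Defs
set_option autoImplicit false

open Polynomial Filter Topology Metric
open scoped Polynomial.Bivariate

namespace Pool.Agent.H918.PF

namespace H399

/-- a point of a segment -/
theorem seg_param {p q b : ℂ} (hb : b ∈ segment ℝ p q) (hbp : b ≠ p) :
    ∃ u : ℝ, 1 ≤ u ∧ q = p + (u : ℂ) * (b - p) := by
  rw [segment_eq_image_lineMap] at hb
  obtain ⟨s, ⟨hs0, hs1⟩, rfl⟩ := hb
  have hs : 0 < s := lt_of_le_of_ne hs0 (fun h => hbp (by rw [← h, AffineMap.lineMap_apply_zero]))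
  refine ⟨s⁻¹, (one_le_inv₀ hs).2 hs1, ?_⟩
  have h1 : AffineMap.lineMap p q s = p + (s : ℂ) * (q - p) := by
    rw [AffineMap.lineMap_apply, vsub_eq_sub, vadd_eq_add, Complex.real_smul, add_comm]
  rw [h1]
  have h2 : (s : ℂ) ≠ 0 := Complex.ofReal_ne_zero.2 hs.ne'
  push_cast
  field_simp
  ring

theorem aux {r : ℝ} {p b q₁ q₂ : ℂ} (hb : ‖b‖ < r) {u₁ u₂ : ℝ} (h1 : 1 ≤ u₁) (h12 : u₁ < u₂)
    (e1 : q₁ = p + (u₁ : ℂ) * (b - p)) (e2 : q₂ = p + (u₂ : ℂ) * (b - p)) (n1 : ‖q₁‖ = r)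
    (n2 : ‖q₂‖ = r) : False := by
  have hd : 0 < u₂ - 1 := by linarith
  have hdC : ((u₂ - 1 : ℝ) : ℂ) ≠ 0 := Complex.ofReal_ne_zero.2 hd.ne'
  have h3 : ((u₂ - 1 : ℝ) : ℂ) * q₁ = ((u₂ - u₁ : ℝ) : ℂ) * b + ((u₁ - 1 : ℝ) : ℂ) * q₂ := by
    rw [e1, e2]
    push_cast
    ring
  have h4 : (u₂ - 1) * r ≤ (u₂ - u₁) * ‖b‖ + (u₁ - 1) * r := by
    calc (u₂ - 1) * r = ‖((u₂ - 1 : ℝ) : ℂ) * q₁‖ := by
          rw [norm_mul, Complex.norm_real, Real.norm_of_nonneg hd.le, n1]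
      _ ≤ ‖((u₂ - u₁ : ℝ) : ℂ) * b‖ + ‖((u₁ - 1 : ℝ) : ℂ) * q₂‖ := by
          rw [h3]; exact norm_add_le _ _
      _ = (u₂ - u₁) * ‖b‖ + (u₁ - 1) * r := by
          rw [norm_mul, norm_mul, Complex.norm_real, Complex.norm_real,
            Real.norm_of_nonneg (by linarith), Real.norm_of_nonneg (by linarith), n2]
  nlinarith [mul_pos (sub_pos.2 h12) (sub_pos.2 hb)]

theorem sub_bad {r : ℝ} {p b : ℂ} (hb : ‖b‖ < r) (hbp : b ≠ p) :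
    {q : ℂ | ‖q‖ = r ∧ b ∈ segment ℝ p q}.Subsingleton := by
  rintro q₁ ⟨n1, s1⟩ q₂ ⟨n2, s2⟩
  obtain ⟨u₁, h1, e1⟩ := seg_param s1 hbp
  obtain ⟨u₂, h2, e2⟩ := seg_param s2 hbp
  rcases lt_trichotomy u₁ u₂ with h | h | h
  · exact (aux hb h1 h e1 e2 n1 n2).elim
  · rw [e1, e2, h]
  · exact (aux hb h2 h e2 e1 n2 n1).elim

theorem circle_inf {r : ℝ} (hr : 0 < r) : {q : ℂ | ‖q‖ = r}.Infinite := by
  refine Set.infinite_of_injOn_mapsTo (s := Set.Icc (-1 : ℝ) 1)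
    (f := fun t : ℝ => (⟨r * t, r * √(1 - t ^ 2)⟩ : ℂ)) ?_ ?_ (Set.Icc_infinite (by norm_num))
  · intro t _ t' _ h
    have h1 := congrArg Complex.re h
    exact mul_left_cancel₀ hr.ne' h1
  · rintro t ⟨ht1, ht2⟩
    show ‖(⟨r * t, r * √(1 - t ^ 2)⟩ : ℂ)‖ = r
    have h1 : 0 ≤ 1 - t ^ 2 := by nlinarith
    have h2 : ‖(⟨r * t, r * √(1 - t ^ 2)⟩ : ℂ)‖ ^ 2 = r ^ 2 := by
      rw [← Complex.normSq_eq_norm_sq, Complex.normSq_mk]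
      have h3 := Real.mul_self_sqrt h1
      linear_combination r ^ 2 * h3
    exact (pow_left_inj₀ (norm_nonneg _) hr.le two_ne_zero).1 h2

end H399

theorem exists_path (B₁ : Finset ℂ) {r : ℝ} (hr : 0 < r) (hB : ∀ b ∈ B₁, ‖b‖ < r) {p : ℂ}
    (hp : ‖p‖ ≤ r) (hpB : p ∉ B₁) : ∃ (q : ℂ) (U : Set ℂ), ‖q‖ = r ∧ IsOpen U ∧ Convex ℝ U ∧
      segment ℝ p q ⊆ U ∧ ∀ z ∈ U, z ∉ B₁ := by
  have hfin : (⋃ b ∈ B₁, {q : ℂ | ‖q‖ = r ∧ b ∈ segment ℝ p q}).Finite :=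
    B₁.finite_toSet.biUnion fun b hb =>
      (H399.sub_bad (p := p) (hB b hb) (fun h => hpB (by rw [← h]; exact hb))).finite
  obtain ⟨q, hq, hqn⟩ := ((H399.circle_inf hr).sdiff hfin).nonempty
  have hseg : segment ℝ p q ⊆ ((B₁ : Set ℂ))ᶜ := by
    intro z hz hzB
    exact hqn (Set.mem_biUnion hzB ⟨hq, hz⟩)
  have hc : IsCompact (segment ℝ p q) := by
    rw [segment_eq_image_lineMap]
    exact isCompact_Icc.image AffineMap.lineMap_continuous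
  obtain ⟨δ, hδ, hU⟩ := hc.exists_thickening_subset_open B₁.finite_toSet.isClosed.isOpen_compl hseg
  exact ⟨q, thickening δ (segment ℝ p q), hq, isOpen_thickening, (convex_segment p q).thickening δ,
    self_subset_thickening hδ _, fun z hz hzB => hU hz hzB⟩

end Pool.Agent.H918.PF
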