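import Pool.Agent.H918.G.Defs

/-! PROJECT PF: lifts of functions with values in `ℂ / Λ` on convex open sets (helper795). -/

set_option autoImplicit false

open Polynomial Filter Topology Metric
open scoped Polynomial.Bivariate

namespace Pool.Agent.H918.PF

namespace H795

/-- A function with values in the lattice which is continuous at a point is locally constant there. -/
theorem lat_const (Λ : PeriodPair) {f : ℂ → ℂ} {z : ℂ} (hf : ContinuousAt f z)
    (h : ∀ᶠ w in 𝓝 z, f w ∈ Λ.lattice) : ∀ᶠ w in 𝓝 z, f w = f z := by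
  have h0 : ∀ᶠ u in 𝓝 (f z), u ∈ (↑Λ.lattice \ {f z} : Set ℂ)ᶜ :=
    Λ.compl_lattice_sdiff_singleton_mem_nhds (f z)
  filter_upwards [hf.eventually h0, h] with w h1 h2
  by_contra h3
  exact h1 ⟨h2, h3⟩

/-- The derivative of a lift does not depend on the lift. -/
theorem deriv_eq (Λ : PeriodPair) {t : ℂ → ℂ ⧸ Λ.lattice} {β₁ β₂ : ℂ → ℂ} {z : ℂ}
    (h₁ : AnalyticAt ℂ β₁ z) (h₂ : AnalyticAt ℂ β₂ z)
    (e₁ : ∀ᶠ w in 𝓝 z, t w = Submodule.Quotient.mk (β₁ w))
    (e₂ : ∀ᶠ w in 𝓝 z, t w = Submodule.Quotient.mk (β₂ w)) : deriv β₁ z = deriv β₂ z := by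
  have h3 : ∀ᶠ w in 𝓝 z, β₁ w - β₂ w ∈ Λ.lattice := by
    filter_upwards [e₁, e₂] with w h4 h5
    exact (Submodule.Quotient.eq _).1 (h4.symm.trans h5)
  have h4 := lat_const Λ (f := fun w => β₁ w - β₂ w)
    (h₁.continuousAt.sub h₂.continuousAt) h3
  have h5 : β₁ =ᶠ[𝓝 z] fun w => β₂ w + (β₁ z - β₂ z) := by
    filter_upwards [h4] with w h6
    have h7 : β₁ w - β₂ w = β₁ z - β₂ z := h6
    linear_combination h7
  rw [h5.deriv_eq, deriv_add_const]

end H795

open H795 in
/-- PF-GLUE: lifts of functions with values in `ℂ / Λ` on convex open sets. -/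
theorem glue_lift (Λ : PeriodPair) {U : Set ℂ} (hU : IsOpen U) (hc : Convex ℝ U) {t : ℂ → ℂ ⧸ Λ.lattice}
    (h : ∀ z ∈ U, ∃ β : ℂ → ℂ, AnalyticAt ℂ β z ∧ ∀ᶠ w in 𝓝 z, t w = Submodule.Quotient.mk (β w)) :
    ∃ β : ℂ → ℂ, DifferentiableOn ℂ β U ∧ ∀ z ∈ U, t z = Submodule.Quotient.mk (β z) := by
  classical
  rcases U.eq_empty_or_nonempty with rfl | ⟨z₀, hz₀⟩
  · exact ⟨fun _ => 0, differentiableOn_empty, fun z hz => absurd hz (Set.notMem_empty z)⟩
  have h' : ∀ z, ∃ β : ℂ → ℂ, z ∈ U →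
      AnalyticAt ℂ β z ∧ ∀ᶠ w in 𝓝 z, t w = Submodule.Quotient.mk (β w) := by
    intro z
    by_cases hz : z ∈ U
    · obtain ⟨β, hβ⟩ := h z hz
      exact ⟨β, fun _ => hβ⟩
    · exact ⟨fun _ => 0, fun h0 => absurd h0 hz⟩
  choose b hb using h'
  -- the local derivatives
  have hD : ∀ z ∈ U, ∀ᶠ w in 𝓝 z, w ∈ U ∧ AnalyticAt ℂ (b z) w ∧
      t w = Submodule.Quotient.mk (b z w) ∧ deriv (b w) w = deriv (b z) w := by
    intro z hz
    filter_upwards [hU.mem_nhds hz, (hb z hz).1.eventually_analyticAt,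
      (hb z hz).2.eventually_nhds] with w h1 h2 h3
    exact ⟨h1, h2, h3.self_of_nhds, deriv_eq Λ (hb w h1).1 h2 (hb w h1).2 h3⟩
  have hdiff : DifferentiableOn ℂ (fun w => deriv (b w) w) U := by
    intro z hz
    have h1 : (fun w => deriv (b w) w) =ᶠ[𝓝 z] deriv (b z) := by
      filter_upwards [hD z hz] with w hw
      exact hw.2.2.2
    exact ((hb z hz).1.deriv.differentiableAt.congr_of_eventuallyEq h1).differentiableWithinAt
  obtain ⟨B, hB⟩ := hc.exists_forall_hasDerivWithinAt hdiff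
  have hB' : ∀ z ∈ U, HasDerivAt B (deriv (b z) z) z := fun z hz =>
    (hB z hz).hasDerivAt (hU.mem_nhds hz)
  -- the difference is locally constant
  have hloc : ∀ z ∈ U, ∀ᶠ w in 𝓝 z, t w - Submodule.Quotient.mk (B w) =
      t z - Submodule.Quotient.mk (B z) := by
    intro z hz
    obtain ⟨ε, hε, hball⟩ := Metric.eventually_nhds_iff_ball.1 (hD z hz)
    have hderiv : ∀ w ∈ ball z ε, HasDerivAt (fun w => b z w - B w) 0 w := by
      intro w hw
      obtain ⟨h1, h2, -, h4⟩ := hball w hw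
      have h5 := h2.differentiableAt.hasDerivAt.sub (hB' w h1)
      rwa [h4, sub_self] at h5
    filter_upwards [Metric.ball_mem_nhds z hε] with w hw
    have h1 : b z w - B w = b z z - B z :=
      isOpen_ball.is_const_of_deriv_eq_zero (convex_ball z ε).isPreconnected
        (fun v hv => (hderiv v hv).differentiableAt.differentiableWithinAt)
        (fun v hv => (hderiv v hv).deriv) hw (Metric.mem_ball_self hε)
    rw [(hball w hw).2.2.1, (hball z (Metric.mem_ball_self hε)).2.2.1,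
      ← Submodule.Quotient.mk_sub, ← Submodule.Quotient.mk_sub, h1]
  have hpc : PreconnectedSpace U := Subtype.preconnectedSpace hc.isPreconnected
  have hlc : IsLocallyConstant (fun z : U => t z - Submodule.Quotient.mk (B z)) := by
    rw [IsLocallyConstant.iff_eventually_eq]
    intro z
    exact continuous_subtype_val.continuousAt.eventually (hloc z z.2)
  obtain ⟨κ, hκ⟩ := Submodule.Quotient.mk_surjective Λ.lattice (t z₀ - Submodule.Quotient.mk (B z₀))
  refine ⟨fun z => B z + κ, fun z hz =>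
    ((hB' z hz).differentiableAt.add_const κ).differentiableWithinAt, fun z hz => ?_⟩
  have h1 : t z - Submodule.Quotient.mk (B z) = t z₀ - Submodule.Quotient.mk (B z₀) :=
    hlc.apply_eq_of_preconnectedSpace ⟨z, hz⟩ ⟨z₀, hz₀⟩
  rw [Submodule.Quotient.mk_add, hκ, ← h1]
  abel

end Pool.Agent.H918.PF
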