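import Pool.Agent.H918.G.Stm

/-! PROJECT PF: PF-GROW (helper353). -/

set_option autoImplicit false

open Polynomial FF Pool.Agent.W603.LV Filter Topology Metric
open scoped Polynomial.Bivariate

namespace Pool.Agent.H918.PF

variable {L : Type} [Field L] [Algebra ℂ L] {c : Place ℂ L} {ev : ℂ[X][Y] →ₐ[ℂ] L} {P : ℂ[X][Y]}

namespace H353

theorem ev_const (ev : ℂ[X][Y] →ₐ[ℂ] L) (b : ℂ) : ev (C (C b)) = algebraMap ℂ L b := by
  rw [← ev.commutes b]
  rfl

theorem ev_sub (ev : ℂ[X][Y] →ₐ[ℂ] L) (b : ℂ) :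
    ev (C (X - C b)) = ev (C X) - algebraMap ℂ L b := by
  rw [C_sub, map_sub, ev_const]

/-- `Z` is not a constant -/
theorem sub_ne (hM : Model c ev P) (b : ℂ) : ev (C X) - algebraMap ℂ L b ≠ 0 := by
  intro h
  have h1 := hM.pole
  rw [sub_eq_zero.1 h] at h1
  by_cases hb : b = 0
  · rw [hb, map_zero, c.ord_zero] at h1
    omega
  · rw [c.ord_const hb] at h1
    omega

theorem D_ne {D : Derivation ℂ L L} (hD : D (ev (C X)) = 1) : D ≠ 0 := by
  rintro rfl
  simp at hD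

/-- the order of the derivation at a finite place -/
theorem vo_fin [IsFF ℂ L] (hM : Model c ev P) {D : Derivation ℂ L L} (hD : D (ev (C X)) = 1)
    {Q : Place ℂ L} {b : ℂ} (hb : Ge Q 1 (ev (C X) - algebraMap ℂ L b)) :
    1 ≤ Q.ord (ev (C X) - algebraMap ℂ L b) ∧
      vo Q D = 1 - Q.ord (ev (C X) - algebraMap ℂ L b) := by
  have h1 : 1 ≤ Q.ord (ev (C X) - algebraMap ℂ L b) := hb.resolve_left (sub_ne hM b)
  have h2 := (ord_der Q (D_ne hD) (f := ev (C X) - algebraMap ℂ L b) (by omega)).2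
  rw [map_sub, Derivation.map_algebraMap, sub_zero, hD, Q.ord_one] at h2
  exact ⟨h1, by omega⟩

/-- the order of the derivation at infinity -/
theorem vo_inf [IsFF ℂ L] (hM : Model c ev P) {D : Derivation ℂ L L} (hD : D (ev (C X)) = 1) :
    vo c D = 1 - c.ord (ev (C X)) := by
  have h1 := hM.pole
  have h2 := (ord_der c (D_ne hD) (f := ev (C X)) (by omega)).2
  rw [hD, c.ord_one] at h2
  omega

end H353

/-- PF-GROW: the growth of the functions `η` near the branch points and near infinity. -/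
theorem growth (hBF : S_BFIN) (hBI : S_BINF) [IsFF ℂ L] (hM : Model c ev P) {D : Derivation ℂ L L} (hD : D (ev (C X)) = 1)
    (B₀ : Finset ℂ) : ∃ (M : ℕ) (B₁ : Finset ℂ), 1 ≤ M ∧ B₀ ⊆ B₁ ∧
      ∀ η : L, (∀ Q, Ge Q (vo Q D) η) →
      (∀ r : ℝ, ∃ K : ℝ, ∀ (R : ℂ[X][Y]) (S : ℂ[X]), η * ev (C S) = ev R → ∀ z y : ℂ, ‖z‖ ≤ r →
        evalEval z y P = 0 → S.eval z ≠ 0 →
        (‖evalEval z y R‖ / ‖S.eval z‖) ^ M * ∏ b ∈ B₁, ‖z - b‖ ^ (M - 1) ≤ K) ∧
      ∃ K r : ℝ, ∀ (R : ℂ[X][Y]) (S : ℂ[X]), η * ev (C S) = ev R → ∀ z y : ℂ, r ≤ ‖z‖ →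
        evalEval z y P = 0 → S.eval z ≠ 0 →
        (‖evalEval z y R‖ / ‖S.eval z‖) ^ M * ‖z‖ ^ (M + 1) ≤ K := by
  classical
  have hDn := H353.D_ne hD
  -- the values of `Z`
  have hval : ∀ Q : Place ℂ L, ∃ b : ℂ, Q ≠ c → Ge Q 1 (ev (C X) - algebraMap ℂ L b) := by
    intro Q
    by_cases hQ : Q = c
    · exact ⟨0, fun h => absurd hQ h⟩
    · obtain ⟨b, hb⟩ := exists_const Q (hM.reg Q hQ)
      exact ⟨b, fun _ => hb⟩
  choose val hval using hval
  set T : Finset (Place ℂ L) := (vo_finite hDn).toFinset with hT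
  have hTmem : ∀ Q : Place ℂ L, vo Q D ≠ 0 → Q ∈ T := fun Q hQ =>
    (vo_finite hDn).mem_toFinset.2 hQ
  obtain ⟨M, hMdef⟩ : ∃ M : ℕ, M = (∑ Q ∈ T, (vo Q D).natAbs) + 1 := ⟨_, rfl⟩
  have hM1 : 1 ≤ M := by omega
  have hMle : ∀ Q : Place ℂ L, (vo Q D).natAbs + 1 ≤ M := by
    intro Q
    by_cases hQ : vo Q D = 0
    · rw [hQ]; simpa using hM1
    · have h1 : (vo Q D).natAbs ≤ ∑ Q ∈ T, (vo Q D).natAbs :=
        Finset.single_le_sum (f := fun Q => (vo Q D).natAbs) (fun _ _ => Nat.zero_le _) (hTmem Q hQ)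
      omega
  refine ⟨M, B₀ ∪ T.image val, hM1, Finset.subset_union_left, fun η hη => ⟨fun r => ?_, ?_⟩⟩
  · -- the finite part
    set B₁ : Finset ℂ := B₀ ∪ T.image val with hB₁
    have hreg : ∀ Q : Place ℂ L, Q ≠ c →
        Ge Q 0 (η ^ M * ∏ b ∈ B₁, (ev (C X) - algebraMap ℂ L b) ^ (M - 1)) := by
      intro Q hQ
      have h0 : ∀ b : ℂ, Ge Q 0 ((ev (C X) - algebraMap ℂ L b) ^ (M - 1)) := by
        intro b
        have := ((hM.reg Q hQ).sub (Ge.const b)).pow (M - 1)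
        simpa using this
      have h1 := (hη Q).pow M
      obtain ⟨he1, he2⟩ := H353.vo_fin hM hD (hval Q hQ)
      by_cases hv : vo Q D = 0
      · rw [hv] at h1
        have h2 : Ge Q 0 (∏ b ∈ B₁, (ev (C X) - algebraMap ℂ L b) ^ (M - 1)) := by
          have := Ge.prod B₁ (fun b => (ev (C X) - algebraMap ℂ L b) ^ (M - 1)) (fun _ => 0)
            (fun b _ => h0 b)
          simpa using this
        simpa using h1.mul h2
      · have hmem : val Q ∈ B₁ :=
          Finset.mem_union_right _ (Finset.mem_image_of_mem _ (hTmem Q hv))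
        rw [← Finset.mul_prod_erase B₁ _ hmem]
        have h2 : Ge Q 0 (∏ b ∈ B₁.erase (val Q), (ev (C X) - algebraMap ℂ L b) ^ (M - 1)) := by
          have := Ge.prod (B₁.erase (val Q)) (fun b => (ev (C X) - algebraMap ℂ L b) ^ (M - 1))
            (fun _ => 0) (fun b _ => h0 b)
          simpa using this
        have h3 : Ge Q (((M - 1 : ℕ) : ℤ) * Q.ord (ev (C X) - algebraMap ℂ L (val Q)))
            ((ev (C X) - algebraMap ℂ L (val Q)) ^ (M - 1)) :=
          Ge.pow (Or.inr le_rfl) (M - 1)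
        refine (h1.mul (h3.mul h2)).mono ?_
        have h4 := hMle Q
        have h5 : ((M - 1 : ℕ) : ℤ) = M - 1 := by omega
        rw [h5, he2]
        have h6 : Q.ord (ev (C X) - algebraMap ℂ L (val Q)) ≤ M := by
          rw [he2] at h4
          omega
        nlinarith
    obtain ⟨K, hK⟩ := hBF L c ev P hM _ hreg r
    refine ⟨K, fun R S hRS z y hz hP hS => ?_⟩
    have h1 := hK (R ^ M * ∏ b ∈ B₁, (C (X - C b)) ^ (M - 1)) (S ^ M) (by
      simp only [map_mul, map_pow, map_prod, H353.ev_sub, ← hRS]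
      ring) z y hz hP (by rw [eval_pow]; exact pow_ne_zero _ hS)
    have h2 : evalEval z y (R ^ M * ∏ b ∈ B₁, (C (X - C b)) ^ (M - 1)) =
        evalEval z y R ^ M * ∏ b ∈ B₁, (z - b) ^ (M - 1) := by
      simp only [evalEval_mul, evalEval_pow, evalEval_prod, evalEval_C, eval_sub, eval_X, eval_C]
    rw [h2, norm_mul, norm_pow, norm_prod, eval_pow, norm_pow] at h1
    simp only [norm_pow] at h1
    have h3 : 0 < ‖S.eval z‖ ^ M := pow_pos (norm_pos_iff.2 hS) _
    rw [div_pow, div_mul_eq_mul_div, div_le_iff₀ h3]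
    exact h1
  · -- the infinite part
    have hreg : Ge c 0 (η ^ M * ev (C X) ^ (M + 1)) := by
      have h1 := (hη c).pow M
      have h2 : Ge c (((M + 1 : ℕ) : ℤ) * c.ord (ev (C X))) (ev (C X) ^ (M + 1)) :=
        Ge.pow (Or.inr le_rfl) (M + 1)
      refine (h1.mul h2).mono ?_
      have h3 := H353.vo_inf hM hD
      have h4 := hMle c
      have h5 := hM.pole
      rw [h3] at h4 ⊢
      push_cast
      have h6 : - c.ord (ev (C X)) ≤ M := by omega
      nlinarith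
    obtain ⟨K, r, hK⟩ := hBI L c ev P hM _ hreg
    refine ⟨K, r, fun R S hRS z y hz hP hS => ?_⟩
    have h1 := hK (R ^ M * (C X) ^ (M + 1)) (S ^ M) (by
      simp only [map_mul, map_pow, ← hRS]
      ring) z y hz hP (by rw [eval_pow]; exact pow_ne_zero _ hS)
    have h2 : evalEval z y (R ^ M * (C X) ^ (M + 1)) =
        evalEval z y R ^ M * z ^ (M + 1) := by
      simp only [evalEval_mul, evalEval_pow, evalEval_C, eval_X]
    rw [h2, norm_mul, norm_pow, norm_pow, eval_pow, norm_pow] at h1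
    have h3 : 0 < ‖S.eval z‖ ^ M := pow_pos (norm_pos_iff.2 hS) _
    rw [div_pow, div_mul_eq_mul_div, div_le_iff₀ h3]
    exact h1

end Pool.Agent.H918.PF
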