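import Pool.Agent.H918.G.Defs
import Pool.Graph.R_seed8.Helper272.Arn.J5652

/-! PROJECT PF, task PF-MLIO: a Liouville theorem for functions on the curve `P = 0`. -/

set_option autoImplicit false

open Polynomial Filter Topology Metric
open scoped Polynomial.Bivariate

namespace Pool.Agent.H918.PF

namespace H706

/-- The polynomial `P(z, ·)`. -/
noncomputable def pz (P : ℂ[X][Y]) (z : ℂ) : ℂ[X] := P.map (evalRingHom z)

theorem pz_root_iff {P : ℂ[X][Y]} {z y : ℂ} : (pz P z).eval y = 0 ↔ evalEval z y P = 0 := by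
  unfold pz
  rw [map_evalRingHom_eval]

theorem mem_roots_pz {P : ℂ[X][Y]} (hP : P.Monic) {z y : ℂ} :
    y ∈ (pz P z).roots.toFinset ↔ evalEval z y P = 0 := by
  have h0 : pz P z ≠ 0 := (hP.map (evalRingHom z)).ne_zero
  rw [Multiset.mem_toFinset, mem_roots h0, IsRoot.def, pz_root_iff]

theorem card_roots_pz {P : ℂ[X][Y]} (hP : P.Monic) (z : ℂ) :
    ((pz P z).roots.toFinset.card : ℝ) ≤ P.natDegree := by
  have h1 : (pz P z).roots.toFinset.card ≤ P.natDegree := by
    refine (Multiset.toFinset_card_le _).trans ((card_roots' _).trans ?_)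
    unfold pz
    rw [hP.natDegree_map]
  exact_mod_cast h1

/-- The product over the fibre. -/
noncomputable def F (P : ℂ[X][Y]) (γ : ℂ → ℂ → ℂ) (t z : ℂ) : ℂ :=
  ∏ y ∈ (pz P z).roots.toFinset, (1 + t * γ z y)

theorem exists_ball_avoid (B₀ : Finset ℂ) (z₀ : ℂ) :
    ∃ ρ : ℝ, 0 < ρ ∧ ∀ z ∈ ball z₀ ρ, z ≠ z₀ → z ∉ B₀ := by
  have h1 : ((B₀ : Set ℂ) \ {z₀})ᶜ ∈ 𝓝 z₀ := by
    apply IsOpen.mem_nhds
    · exact ((B₀.finite_toSet.subset Set.sdiff_subset).isClosed).isOpen_compl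
    · simp
  obtain ⟨ρ, hρ, h2⟩ := Metric.mem_nhds_iff.1 h1
  refine ⟨ρ, hρ, fun z hz hne hB => h2 hz ⟨hB, hne⟩⟩

theorem F_diff {P : ℂ[X][Y]} (hP : P.Monic) {B₀ : Finset ℂ} (hs : SepOff P B₀)
    {γ : ℂ → ℂ → ℂ}
    (hhol : ∀ (U : Set ℂ) (g : ℂ → ℂ), IsOpen U → (∀ z ∈ U, z ∉ B₀) → Branch P U g →
      DifferentiableOn ℂ (fun z => γ z (g z)) U) (t : ℂ) {z₀ : ℂ} (hz₀ : z₀ ∉ B₀) :
    DifferentiableAt ℂ (F P γ t) z₀ := by
  classical
  obtain ⟨ρ, hρ, hav⟩ := exists_ball_avoid B₀ z₀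
  have hav' : ∀ z ∈ ball z₀ ρ, z ∉ B₀ := by
    intro z hz
    by_cases h : z = z₀
    · rw [h]; exact hz₀
    · exact hav z hz h
  obtain ⟨α, hα1, hα2, hα3⟩ := AR.J5652.root_functions (isOpen_ball (x := z₀) (ε := ρ))
    (convex_ball z₀ ρ) P.natDegree (pz P) (by
      intro i
      have : (fun h => (pz P h).coeff i) = fun h => (P.coeff i).eval h := by
        funext h
        simp [pz, coeff_map]
      rw [this]
      exact (P.coeff i).differentiable.differentiableOn) (by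
      intro z _
      exact hP.natDegree_map _) (fun z hz => hs z (hav' z hz))
  have hF : ∀ z ∈ ball z₀ ρ, F P γ t z = ∏ j, (1 + t * γ z (α j z)) := by
    intro z hz
    have h1 : (pz P z).roots.toFinset = Finset.univ.image (fun j => α j z) := by
      ext y
      rw [mem_roots_pz hP, ← pz_root_iff, hα3 z hz y]
      simp [eq_comm]
    unfold F
    rw [h1, Finset.prod_image]
    intro i _ j _ hij
    exact hα2 z hz hij
  have hd : DifferentiableOn ℂ (fun z => ∏ j, (1 + t * γ z (α j z))) (ball z₀ ρ) := by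
    apply DifferentiableOn.fun_finsetProd
    intro j _
    refine (DifferentiableOn.const_mul (hhol _ (α j) isOpen_ball hav' ⟨hα1 j, ?_⟩) t).const_add 1
    intro z hz
    rw [← pz_root_iff, hα3 z hz]
    exact ⟨j, rfl⟩
  have h2 : DifferentiableAt ℂ (fun z => ∏ j, (1 + t * γ z (α j z))) z₀ :=
    hd.differentiableAt (ball_mem_nhds z₀ hρ)
  refine h2.congr_of_eventuallyEq ?_
  filter_upwards [ball_mem_nhds z₀ hρ] with z hz using hF z hz

theorem F_bound {P : ℂ[X][Y]} (hP : P.Monic) {γ : ℂ → ℂ → ℂ} {t z : ℂ} {ε : ℝ}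
    (hb : ∀ y : ℂ, evalEval z y P = 0 → ‖γ z y‖ ≤ ε) :
    ‖F P γ t z - 1‖ ≤ Real.exp (P.natDegree * (‖t‖ * |ε|)) - 1 := by
  unfold F
  refine (Finset.norm_prod_one_add_sub_one_le _ _).trans ?_
  have h1 : ∑ y ∈ (pz P z).roots.toFinset, ‖t * γ z y‖ ≤ P.natDegree * (‖t‖ * |ε|) := by
    calc ∑ y ∈ (pz P z).roots.toFinset, ‖t * γ z y‖
        ≤ ∑ y ∈ (pz P z).roots.toFinset, (‖t‖ * |ε|) := by
          apply Finset.sum_le_sum
          intro y hy
          rw [norm_mul]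
          exact mul_le_mul_of_nonneg_left ((hb y ((mem_roots_pz hP).1 hy)).trans (le_abs_self ε))
            (norm_nonneg t)
      _ = ((pz P z).roots.toFinset.card : ℝ) * (‖t‖ * |ε|) := by
          rw [Finset.sum_const, nsmul_eq_mul]
      _ ≤ _ := mul_le_mul_of_nonneg_right (card_roots_pz hP z) (by positivity)
  have := Real.exp_le_exp.2 h1
  linarith

/-- A function which is holomorphic and bounded off a finite set and tends to `c` at infinity is
constant. -/
theorem liouville_off {B₀ : Finset ℂ} {f : ℂ → ℂ} {C : ℝ} {c : ℂ}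
    (hd : ∀ z, z ∉ B₀ → DifferentiableAt ℂ f z) (hb : ∀ z, z ∉ B₀ → ‖f z‖ ≤ C)
    (hinf : Tendsto f (cocompact ℂ) (𝓝 c)) {z : ℂ} (hz : z ∉ B₀) : f z = c := by
  classical
  set g : ℂ → ℂ := fun z => limUnder (𝓝[≠] z) f with hg
  have hgf : ∀ z, z ∉ B₀ → g z = f z := by
    intro z hz
    have h1 : Tendsto f (𝓝[≠] z) (𝓝 (f z)) := (hd z hz).continuousAt.tendsto.mono_left
      nhdsWithin_le_nhds
    exact h1.limUnder_eq
  have hgd : Differentiable ℂ g := by
    intro z₀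
    obtain ⟨ρ, hρ, hav⟩ := exists_ball_avoid B₀ z₀
    have h1 : DifferentiableOn ℂ f (ball z₀ ρ \ {z₀}) := fun z hz =>
      (hd z (hav z hz.1 hz.2)).differentiableWithinAt
    have h2 : BddAbove (norm ∘ f '' (ball z₀ ρ \ {z₀})) := by
      refine ⟨C, ?_⟩
      rintro _ ⟨z, hz, rfl⟩
      exact hb z (hav z hz.1 hz.2)
    have h3 := Complex.differentiableOn_update_limUnder_of_bddAbove (ball_mem_nhds z₀ hρ) h1 h2
    have h4 := h3.differentiableAt (ball_mem_nhds z₀ hρ)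
    refine h4.congr_of_eventuallyEq ?_
    filter_upwards [ball_mem_nhds z₀ hρ] with z hz
    by_cases h : z = z₀
    · subst h
      simp [hg]
    · rw [Function.update_of_ne h]
      exact hgf z (hav z hz h)
  have hginf : Tendsto g (cocompact ℂ) (𝓝 c) := by
    refine hinf.congr' ?_
    have h1 : ((B₀ : Set ℂ))ᶜ ∈ cocompact ℂ := B₀.finite_toSet.isCompact.compl_mem_cocompact
    filter_upwards [h1] with z hz
    exact (hgf z hz).symm
  rw [← hgf z hz]
  exact hgd.apply_eq_of_tendsto_cocompact z hginf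

end H706

open H706 in
/-- PF-MLIO: a bounded function on the curve `P = 0` which is holomorphic along the branches and tends
to `0` at infinity is zero (the elementary symmetric functions, or the power sums, of its values at the
points over `z` are bounded holomorphic functions of `z`, hence constant). -/
theorem multi_liouville {P : ℂ[X][Y]} (hP : P.Monic) {B₀ : Finset ℂ} (hs : SepOff P B₀)
    {γ : ℂ → ℂ → ℂ} {K : ℝ}
    (hb : ∀ z y : ℂ, z ∉ B₀ → evalEval z y P = 0 → ‖γ z y‖ ≤ K)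
    (hhol : ∀ (U : Set ℂ) (g : ℂ → ℂ), IsOpen U → (∀ z ∈ U, z ∉ B₀) → Branch P U g →
      DifferentiableOn ℂ (fun z => γ z (g z)) U)
    (hinf : ∀ ε : ℝ, 0 < ε → ∃ r : ℝ, ∀ z y : ℂ, r ≤ ‖z‖ → z ∉ B₀ → evalEval z y P = 0 →
      ‖γ z y‖ ≤ ε) :
    ∀ z y : ℂ, z ∉ B₀ → evalEval z y P = 0 → γ z y = 0 := by
  intro z y hz hy
  by_contra hne
  have key : ∀ t : ℂ, F P γ t z = 1 := by
    intro t
    refine liouville_off (B₀ := B₀) (f := F P γ t)
      (C := Real.exp (P.natDegree * (‖t‖ * |K|)) - 1 + 1)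
      (fun w hw => F_diff hP hs hhol t hw) ?_ ?_ hz
    · intro w hw
      have h1 := F_bound (t := t) hP (fun y hy => hb w y hw hy)
      calc ‖F P γ t w‖ = ‖(F P γ t w - 1) + 1‖ := by rw [sub_add_cancel]
        _ ≤ ‖F P γ t w - 1‖ + ‖(1 : ℂ)‖ := norm_add_le _ _
        _ ≤ _ := by rw [norm_one]; linarith
    · rw [Metric.tendsto_nhds]
      intro δ hδ
      -- choose `ε`
      have hcont : Tendsto (fun ε : ℝ => Real.exp (P.natDegree * (‖t‖ * |ε|)) - 1) (𝓝[>] 0)
          (𝓝 0) := by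
        have h1 : Continuous (fun ε : ℝ => Real.exp (P.natDegree * (‖t‖ * |ε|)) - 1) := by
          fun_prop
        have h2 := (h1.tendsto 0).mono_left (nhdsWithin_le_nhds (s := Set.Ioi (0 : ℝ)))
        simpa using h2
      have h3 : ∀ᶠ ε : ℝ in 𝓝[>] 0, Real.exp (P.natDegree * (‖t‖ * |ε|)) - 1 < δ :=
        hcont.eventually_lt_const hδ
      obtain ⟨ε, h4, hε⟩ := (h3.and self_mem_nhdsWithin).exists
      obtain ⟨r, hr⟩ := hinf ε hε
      have h5 : ((B₀ : Set ℂ))ᶜ ∈ cocompact ℂ := B₀.finite_toSet.isCompact.compl_mem_cocompact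
      have h6 : (closedBall (0 : ℂ) r)ᶜ ∈ cocompact ℂ :=
        (isCompact_closedBall (0 : ℂ) r).compl_mem_cocompact
      filter_upwards [h5, h6] with w hw1 hw2
      rw [dist_eq_norm]
      refine lt_of_le_of_lt (F_bound (ε := ε) hP (fun y hy => hr w y ?_ hw1 hy)) h4
      have : ¬ ‖w‖ ≤ r := by simpa using hw2
      exact (not_le.1 this).le
  have h1 := key (-(γ z y)⁻¹)
  have h2 : F P γ (-(γ z y)⁻¹) z = 0 := by
    unfold F
    apply Finset.prod_eq_zero ((mem_roots_pz hP).2 hy)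
    rw [neg_mul, inv_mul_cancel₀ hne]
    ring
  rw [h2] at h1
  exact zero_ne_one h1

end Pool.Agent.H918.PF
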