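import Pool.Agent.H918.G.Defs

/-! PF pigeon (for helper918). -/

set_option autoImplicit false

open Polynomial Filter Topology Metric

namespace Pool.Agent.H918.PF

/-- PF-PIG: among infinitely many vectors in a bounded set there are two which are close. -/
theorem pigeon {g : ℕ} {I : Type} [Infinite I] (a : I → Fin g → ℂ) {K : ℝ}
    (ha : ∀ i k, ‖a i k‖ ≤ K) {ε : ℝ} (hε : 0 < ε) :
    ∃ i j, i ≠ j ∧ ∀ k, ‖a i k - a j k‖ ≤ ε := by
  have hc : IsCompact (closedBall (0 : Fin g → ℂ) |K|) := isCompact_closedBall 0 _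
  obtain ⟨T, hT⟩ := hc.elim_finite_subcover (fun t : Fin g → ℂ => ball t (ε / 2))
    (fun t => isOpen_ball) (fun x _ => Set.mem_iUnion.mpr ⟨x, mem_ball_self (half_pos hε)⟩)
  have hmem : ∀ i : I, ∃ t : T, a i ∈ ball (t : Fin g → ℂ) (ε / 2) := by
    intro i
    have h1 : a i ∈ closedBall (0 : Fin g → ℂ) |K| := by
      rw [mem_closedBall, dist_zero_right, pi_norm_le_iff_of_nonneg (abs_nonneg K)]
      intro k
      exact (ha i k).trans (le_abs_self K)
    have h2 := hT h1
    simp only [Set.mem_iUnion] at h2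
    obtain ⟨t, ht, h3⟩ := h2
    exact ⟨⟨t, ht⟩, h3⟩
  choose f hf using hmem
  obtain ⟨i, j, hij, heq⟩ := Finite.exists_ne_map_eq_of_infinite f
  refine ⟨i, j, hij, fun k => ?_⟩
  have h1 := hf i
  have h2 := hf j
  rw [heq] at h1
  rw [mem_ball] at h1 h2
  have h3 : dist (a i) (a j) ≤ ε := by
    have := dist_triangle_right (a i) (a j) (f j : Fin g → ℂ)
    linarith
  have h4 : dist (a i k) (a j k) ≤ dist (a i) (a j) := dist_le_pi_dist (a i) (a j) k
  rw [dist_eq_norm] at h4
  exact h4.trans h3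

end Pool.Agent.H918.PF
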