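import Pool.Agent.H918.G.Defs

/-! PROJECT PF, the variation along rays (helper113). -/

set_option autoImplicit false

open Polynomial Filter Topology Metric
open scoped Polynomial.Bivariate

namespace Pool.Agent.H918.PF

theorem H113.deriv_le {M : ℕ} (hM : 1 ≤ M) {x s D κ : ℝ} (hx : 0 < x) (hs : 1 ≤ s) (hD : 0 ≤ D)
    (hκ : 0 ≤ κ) (h : D ^ M * (s * x) ^ (M + 1) ≤ κ ^ M) :
    x * D ≤ κ * x ^ (-(1 / (M : ℝ))) * (s ^ (-(1 / (M : ℝ))) * s⁻¹) := by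
  have hs0 : 0 < s := by linarith
  have hM0 : (M : ℝ) ≠ 0 := by
    have : (1 : ℝ) ≤ M := by exact_mod_cast hM
    positivity
  have hpw : ∀ y : ℝ, 0 < y → (y ^ (-(1 / (M : ℝ)))) ^ M = y⁻¹ := by
    intro y hy
    rw [← Real.rpow_natCast, ← Real.rpow_mul hy.le]
    have : -(1 / (M : ℝ)) * (M : ℝ) = -1 := by
      field_simp
    rw [this, Real.rpow_neg_one]
  have hb : 0 ≤ κ * x ^ (-(1 / (M : ℝ))) * (s ^ (-(1 / (M : ℝ))) * s⁻¹) := by positivity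
  refine (pow_le_pow_iff_left₀ (by positivity) hb (by omega : M ≠ 0)).1 ?_
  rw [mul_pow, mul_pow, mul_pow, mul_pow, hpw x hx, hpw s hs0]
  have e1 : x ^ M * D ^ M = (D ^ M * (s * x) ^ (M + 1)) * (x⁻¹ * (s⁻¹ * s⁻¹ ^ M)) := by
    rw [mul_pow, pow_succ, pow_succ, inv_pow]
    field_simp
  rw [e1]
  have h2 : 0 ≤ x⁻¹ * (s⁻¹ * s⁻¹ ^ M) := by positivity
  calc (D ^ M * (s * x) ^ (M + 1)) * (x⁻¹ * (s⁻¹ * s⁻¹ ^ M)) ≤ κ ^ M * (x⁻¹ * (s⁻¹ * s⁻¹ ^ M)) :=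
        mul_le_mul_of_nonneg_right h h2
    _ = κ ^ M * x⁻¹ * (s⁻¹ * s⁻¹ ^ M) := by ring

/-- PF-RAD: the variation along rays to infinity of functions whose derivatives are bounded by
`κ * |z| ^ (- (1 + 1 / M))`. -/
theorem rad_bound {M : ℕ} (hM : 1 ≤ M) {r : ℝ} (hr : 0 < r) : ∃ K : ℝ, 0 ≤ K ∧
    ∀ (p : ℂ), r ≤ ‖p‖ → ∀ (U : Set ℂ) (β : ℂ → ℂ), IsOpen U → (∀ s : ℝ, 1 ≤ s → (s : ℂ) * p ∈ U) →
      DifferentiableOn ℂ β U → ∀ κ : ℝ, 0 ≤ κ → (∀ s : ℝ, 1 ≤ s →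
        ‖deriv β ((s : ℂ) * p)‖ ^ M * ‖(s : ℂ) * p‖ ^ (M + 1) ≤ κ ^ M) →
      ∀ s : ℝ, 1 ≤ s → ‖β ((s : ℂ) * p) - β p‖ ≤ K * κ := by
  have hMp : (0 : ℝ) < M := by
    have : (1 : ℝ) ≤ M := by exact_mod_cast hM
    linarith
  refine ⟨M * r ^ (-(1 / (M : ℝ))), by positivity, ?_⟩
  intro p hp U β hU hin hβ κ hκ hder s hs
  set x := ‖p‖ with hxd
  have hx : 0 < x := hr.trans_le hp
  have hd : ∀ t : ℝ, 1 ≤ t → HasDerivAt (fun t : ℝ => β ((t : ℂ) * p) - β p)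
      (p * deriv β ((t : ℂ) * p)) t := by
    intro t ht
    have h1 : HasDerivAt (fun t : ℝ => (t : ℂ) * p) (1 * p) t :=
      (Complex.ofRealCLM.hasDerivAt (x := t)).mul_const p
    rw [one_mul] at h1
    have h2 : HasDerivAt β (deriv β ((t : ℂ) * p)) ((t : ℂ) * p) :=
      ((hβ _ (hin t ht)).differentiableAt (hU.mem_nhds (hin t ht))).hasDerivAt
    exact (HasDerivAt.scomp t h2 h1).sub_const _
  have hB : ∀ t : ℝ, 1 ≤ t → HasDerivAt (fun t : ℝ => κ * x ^ (-(1 / (M : ℝ))) * M *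
      (1 - t ^ (-(1 / (M : ℝ))))) (κ * x ^ (-(1 / (M : ℝ))) * (t ^ (-(1 / (M : ℝ))) * t⁻¹)) t := by
    intro t ht
    have ht0 : t ≠ 0 := by
      intro h
      rw [h] at ht
      linarith
    have h1 := (Real.hasDerivAt_rpow_const (x := t) (p := -(1 / (M : ℝ))) (Or.inl ht0)).const_sub 1
    have h2 := h1.const_mul (κ * x ^ (-(1 / (M : ℝ))) * M)
    have e : κ * x ^ (-(1 / (M : ℝ))) * M * -(-(1 / (M : ℝ)) * t ^ (-(1 / (M : ℝ)) - 1)) =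
        κ * x ^ (-(1 / (M : ℝ))) * (t ^ (-(1 / (M : ℝ))) * t⁻¹) := by
      rw [Real.rpow_sub_one ht0]
      field_simp
    rwa [e] at h2
  have key := image_norm_le_of_norm_deriv_right_le_deriv_boundary' (a := 1) (b := s)
    (f := fun t : ℝ => β ((t : ℂ) * p) - β p) (f' := fun t => p * deriv β ((t : ℂ) * p))
    (B := fun t : ℝ => κ * x ^ (-(1 / (M : ℝ))) * M * (1 - t ^ (-(1 / (M : ℝ)))))
    (B' := fun t => κ * x ^ (-(1 / (M : ℝ))) * (t ^ (-(1 / (M : ℝ))) * t⁻¹))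
    (fun t ht => (hd t ht.1).continuousAt.continuousWithinAt)
    (fun t ht => (hd t ht.1).hasDerivWithinAt)
    (by simp)
    (fun t ht => (hB t ht.1).continuousAt.continuousWithinAt)
    (fun t ht => (hB t ht.1).hasDerivWithinAt)
    (fun t ht => ?_) (⟨hs, le_rfl⟩ : s ∈ Set.Icc 1 s)
  · refine key.trans ?_
    have h1 : x ^ (-(1 / (M : ℝ))) ≤ r ^ (-(1 / (M : ℝ))) :=
      Real.rpow_le_rpow_of_nonpos hr hp (by
        have : 0 < 1 / (M : ℝ) := by positivity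
        linarith)
    have h2 : 0 ≤ s ^ (-(1 / (M : ℝ))) := by positivity
    have h3 : 0 ≤ x ^ (-(1 / (M : ℝ))) := by positivity
    calc κ * x ^ (-(1 / (M : ℝ))) * M * (1 - s ^ (-(1 / (M : ℝ))))
        ≤ κ * x ^ (-(1 / (M : ℝ))) * M * 1 :=
          mul_le_mul_of_nonneg_left (by linarith) (by positivity)
      _ ≤ κ * r ^ (-(1 / (M : ℝ))) * M * 1 := by gcongr
      _ = M * r ^ (-(1 / (M : ℝ))) * κ := by ring
  · have h1 := hder t ht.1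
    have h2 : ‖(t : ℂ) * p‖ = t * x := by
      rw [norm_mul, Complex.norm_real, Real.norm_eq_abs, abs_of_pos (by linarith [ht.1])]
    rw [h2] at h1
    rw [norm_mul]
    exact H113.deriv_le hM hx ht.1 (norm_nonneg _) hκ h1

end Pool.Agent.H918.PF
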