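import Pool.Agent.H918.G.Defs

set_option autoImplicit false

open Polynomial Filter Topology Metric
open scoped Polynomial.Bivariate

namespace Pool.Agent.H918.PF.H663

open MeasureTheory Set

/-- `|x|^(-s)` is interval integrable. -/
theorem ii_abs {s : ℝ} (hs : s < 1) (a b : ℝ) :
    IntervalIntegrable (fun x : ℝ => |x| ^ (-s)) volume a b := by
  have h := (intervalIntegral.intervalIntegrable_cpow' (a := a) (b := b) (r := ((-s : ℝ) : ℂ))
    (by simpa using by linarith)).norm
  refine h.congr ?_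
  intro x _
  simp only
  rw [Complex.norm_cpow_real]
  simp

theorem ii_shift {s : ℝ} (hs : s < 1) (c a b : ℝ) :
    IntervalIntegrable (fun x : ℝ => |x - c| ^ (-s)) volume a b := by
  have h := (ii_abs hs (a - c) (b - c)).comp_sub_right c
  simpa using h

/-- uniform bound of `∫₀¹ |t - c|^(-s)`. -/
theorem int_bound {s : ℝ} (hs0 : 0 ≤ s) (hs : s < 1) : ∃ K : ℝ, 0 ≤ K ∧ ∀ c : ℝ,
    ∫ t in (0:ℝ)..1, |t - c| ^ (-s) ≤ K := by
  refine ⟨1 + ∫ t in (-1:ℝ)..1, |t| ^ (-s), ?_, fun c => ?_⟩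
  · have : 0 ≤ ∫ t in (-1:ℝ)..1, |t| ^ (-s) :=
      intervalIntegral.integral_nonneg (by norm_num) fun t _ => by positivity
    linarith
  have hI : IntegrableOn (fun x : ℝ => |x| ^ (-s)) (Ioc (-1) 1) volume :=
    (intervalIntegrable_iff_integrableOn_Ioc_of_le (by norm_num)).1 (ii_abs hs (-1) 1)
  have hi : Integrable ((Ioc (-1:ℝ) 1).indicator fun x : ℝ => |x| ^ (-s)) volume :=
    hI.integrable_indicator measurableSet_Ioc
  have hsub : ∫ t in (0:ℝ)..1, |t - c| ^ (-s) = ∫ t in (0 - c)..(1 - c), |t| ^ (-s) := by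
    rw [intervalIntegral.integral_comp_sub_right (fun x => |x| ^ (-s)) c]
  rw [hsub]
  have h1 : ∫ t in (0 - c)..(1 - c), |t| ^ (-s) ≤
      ∫ t in (0 - c)..(1 - c), (1 + (Ioc (-1:ℝ) 1).indicator (fun x : ℝ => |x| ^ (-s)) t) := by
    apply intervalIntegral.integral_mono_on (by linarith) (ii_abs hs _ _)
    · exact (intervalIntegrable_const).add hi.intervalIntegrable
    · intro x _
      by_cases hx : x ∈ Ioc (-1:ℝ) 1
      · rw [indicator_of_mem hx]; linarith
      · rw [indicator_of_notMem hx]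
        have : 1 ≤ |x| := by
          rw [mem_Ioc, not_and_or] at hx
          rcases hx with hx | hx
          · rw [le_abs]; right; linarith
          · rw [le_abs]; left; linarith
        have := Real.rpow_le_one_of_one_le_of_nonpos this (by linarith : -s ≤ 0)
        linarith
  refine h1.trans ?_
  rw [intervalIntegral.integral_add intervalIntegrable_const hi.intervalIntegrable]
  have h2 : ∫ t in (0 - c)..(1 - c), (Ioc (-1:ℝ) 1).indicator (fun x : ℝ => |x| ^ (-s)) t ≤
      ∫ t in (-1:ℝ)..1, |t| ^ (-s) := by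
    rw [intervalIntegral.integral_of_le (by linarith),
      intervalIntegral.integral_of_le (by norm_num : (-1:ℝ) ≤ 1),
      ← MeasureTheory.integral_indicator measurableSet_Ioc (f := fun x : ℝ => |x| ^ (-s))]
    exact setIntegral_le_integral hi (Filter.Eventually.of_forall fun x =>
      indicator_nonneg (fun _ _ => by positivity) x)
  have h3 : ∫ _t in (0 - c)..(1 - c), (1:ℝ) = 1 := by simp
  rw [h3]
  linarith

/-- products of the singularities are bounded by sums. -/
theorem prod_bound {s : ℝ} (hs0 : 0 ≤ s) (B : Finset ℂ) : ∃ C : ℝ, 0 ≤ C ∧ ∀ z : ℂ, z ∉ B →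
    ∏ b ∈ B, ‖z - b‖ ^ (-s) ≤ C * (1 + ∑ b ∈ B, ‖z - b‖ ^ (-s)) := by
  classical
  induction B using Finset.induction_on with
  | empty => exact ⟨1, by norm_num, fun z _ => by simp⟩
  | insert a B ha ih =>
    obtain ⟨C, hC, h⟩ := ih
    -- the constant
    refine ⟨C * (1 + ∑ b ∈ B, (‖a - b‖ / 2) ^ (-s)), by positivity, fun z hz => ?_⟩
    rw [Finset.mem_insert, not_or] at hz
    have hza : 0 < ‖z - a‖ := norm_pos_iff.2 (sub_ne_zero.2 hz.1)
    rw [Finset.prod_insert ha, Finset.sum_insert ha]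
    have h0 : 0 ≤ ‖z - a‖ ^ (-s) := by positivity
    calc ‖z - a‖ ^ (-s) * ∏ b ∈ B, ‖z - b‖ ^ (-s)
        ≤ ‖z - a‖ ^ (-s) * (C * (1 + ∑ b ∈ B, ‖z - b‖ ^ (-s))) :=
          mul_le_mul_of_nonneg_left (h z hz.2) h0
      _ = C * (‖z - a‖ ^ (-s) + ∑ b ∈ B, ‖z - a‖ ^ (-s) * ‖z - b‖ ^ (-s)) := by
          rw [← Finset.mul_sum]; ring
      _ ≤ C * ((1 + ∑ b ∈ B, (‖a - b‖ / 2) ^ (-s)) *
            (1 + (‖z - a‖ ^ (-s) + ∑ b ∈ B, ‖z - b‖ ^ (-s)))) := by
          apply mul_le_mul_of_nonneg_left _ hC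
          have hterm : ∀ b ∈ B, ‖z - a‖ ^ (-s) * ‖z - b‖ ^ (-s) ≤
              (‖a - b‖ / 2) ^ (-s) * (1 + (‖z - a‖ ^ (-s) + ∑ b ∈ B, ‖z - b‖ ^ (-s))) := by
            intro b hb
            have hab : a ≠ b := fun h => ha (h ▸ hb)
            have habp : 0 < ‖a - b‖ / 2 := by
              have := norm_pos_iff.2 (sub_ne_zero.2 hab); positivity
            have hzb : 0 < ‖z - b‖ := norm_pos_iff.2 (sub_ne_zero.2 fun h => hz.2 (h ▸ hb))
            have htri : ‖a - b‖ ≤ ‖z - a‖ + ‖z - b‖ := by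
              have := norm_add_le (a - z) (z - b)
              rw [norm_sub_rev a z] at this
              simpa using this
            have hsb : ‖z - b‖ ^ (-s) ≤ ∑ b ∈ B, ‖z - b‖ ^ (-s) :=
              Finset.single_le_sum (f := fun b => ‖z - b‖ ^ (-s)) (fun _ _ => by positivity) hb
            have hb0 : 0 ≤ ‖z - b‖ ^ (-s) := by positivity
            have hd0 : 0 ≤ (‖a - b‖ / 2) ^ (-s) := by positivity
            rcases le_total (‖z - a‖) (‖z - b‖) with hle | hle
            · have h2 : ‖a - b‖ / 2 ≤ ‖z - b‖ := by linarith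
              have h3 : ‖z - b‖ ^ (-s) ≤ (‖a - b‖ / 2) ^ (-s) :=
                Real.rpow_le_rpow_of_nonpos habp h2 (by linarith)
              calc ‖z - a‖ ^ (-s) * ‖z - b‖ ^ (-s) ≤ ‖z - a‖ ^ (-s) * (‖a - b‖ / 2) ^ (-s) :=
                    mul_le_mul_of_nonneg_left h3 h0
                _ = (‖a - b‖ / 2) ^ (-s) * ‖z - a‖ ^ (-s) := by ring
                _ ≤ _ := mul_le_mul_of_nonneg_left (by linarith) hd0
            · have h2 : ‖a - b‖ / 2 ≤ ‖z - a‖ := by linarith
              have h3 : ‖z - a‖ ^ (-s) ≤ (‖a - b‖ / 2) ^ (-s) :=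
                Real.rpow_le_rpow_of_nonpos habp h2 (by linarith)
              calc ‖z - a‖ ^ (-s) * ‖z - b‖ ^ (-s) ≤ (‖a - b‖ / 2) ^ (-s) * ‖z - b‖ ^ (-s) :=
                    mul_le_mul_of_nonneg_right h3 hb0
                _ ≤ _ := mul_le_mul_of_nonneg_left (by linarith) hd0
          have hsum := Finset.sum_le_sum hterm
          rw [← Finset.sum_mul] at hsum
          have hS : 0 ≤ ∑ b ∈ B, ‖z - b‖ ^ (-s) := Finset.sum_nonneg fun _ _ => by positivity
          nlinarith [hsum, h0, hS]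
      _ = _ := by ring

/-- the distance of a point of the line to `b` is at least the distance of the parameters. -/
theorem line_dist (p q b : ℂ) (hpq : p ≠ q) : ∃ c : ℝ, ∀ t : ℝ,
    |t - c| * ‖q - p‖ ≤ ‖p + t • (q - p) - b‖ := by
  set v : ℂ := q - p with hv
  have hv0 : v ≠ 0 := sub_ne_zero.2 hpq.symm
  refine ⟨((b - p) / v).re, fun t => ?_⟩
  have h1 : p + t • v - b = ((t : ℂ) - (b - p) / v) * v := by
    rw [sub_mul, div_mul_cancel₀ _ hv0, Complex.real_smul]; ring
  rw [h1, norm_mul]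
  apply mul_le_mul_of_nonneg_right _ (norm_nonneg _)
  have h2 := Complex.abs_re_le_norm ((t : ℂ) - (b - p) / v)
  simpa using h2

end Pool.Agent.H918.PF.H663

namespace Pool.Agent.H918.PF

/-- PF-SEG: the variation along segments of functions whose derivatives have bounded singularities of
the type `∏ |z - b| ^ (- (1 - 1 / M))`. -/
theorem seg_bound {M : ℕ} (hM : 1 ≤ M) (B₁ : Finset ℂ) (r : ℝ) : ∃ K : ℝ, 0 ≤ K ∧
    ∀ (p q : ℂ), ‖p‖ ≤ r → ‖q‖ ≤ r → (∀ z ∈ segment ℝ p q, z ∉ B₁) →
      ∀ (U : Set ℂ) (β : ℂ → ℂ), IsOpen U → segment ℝ p q ⊆ U → DifferentiableOn ℂ β U →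
      ∀ κ : ℝ, 0 ≤ κ → (∀ z ∈ segment ℝ p q,
        ‖deriv β z‖ ^ M * ∏ b ∈ B₁, ‖z - b‖ ^ (M - 1) ≤ κ ^ M) → ‖β q - β p‖ ≤ K * κ := by
  have hMpos : (0:ℝ) < M := by exact_mod_cast hM
  obtain ⟨s, hs⟩ : ∃ s : ℝ, s = (M - 1 : ℝ) / M := ⟨_, rfl⟩
  have hs0 : 0 ≤ s := by
    rw [hs]; apply div_nonneg _ hMpos.le
    have : (1:ℝ) ≤ M := by exact_mod_cast hM
    linarith
  have hs1 : s < 1 := by rw [hs, div_lt_one hMpos]; linarith
  obtain ⟨K₀, hK₀, hint⟩ := H663.int_bound hs0 hs1
  obtain ⟨C, hC, hprod⟩ := H663.prod_bound hs0 B₁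
  refine ⟨C * ((2 * |r|) + B₁.card * ((2 * |r|) ^ (1 - s) * K₀)), by positivity, ?_⟩
  intro p q hp hq hseg U β hU hsU hβ κ hκ hder
  have hr : 0 ≤ r := (norm_nonneg p).trans hp
  rw [abs_of_nonneg hr]
  rcases eq_or_ne p q with rfl | hpq
  · simp only [sub_self, norm_zero]; positivity
  set L : ℝ := ‖q - p‖ with hL
  have hLpos : 0 < L := norm_pos_iff.2 (sub_ne_zero.2 hpq.symm)
  have hL2 : L ≤ 2 * r := (norm_sub_le q p).trans (by linarith)
  -- the parametrisation
  have hmem : ∀ t ∈ Set.Icc (0:ℝ) 1, p + t • (q - p) ∈ segment ℝ p q := by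
    intro t ht
    rw [segment_eq_image']
    exact ⟨t, ht, rfl⟩
  -- pointwise bound of the derivative
  have hpt : ∀ z ∈ segment ℝ p q, ‖deriv β z‖ ≤ κ * (C * (1 + ∑ b ∈ B₁, ‖z - b‖ ^ (-s))) := by
    intro z hz
    have hzB := hseg z hz
    have hP : 0 < ∏ b ∈ B₁, ‖z - b‖ := Finset.prod_pos fun b hb =>
      norm_pos_iff.2 (sub_ne_zero.2 fun h => hzB (h ▸ hb))
    have h1 := hder z hz
    rw [Finset.prod_pow] at h1
    have h2 : ‖deriv β z‖ ≤ κ * (∏ b ∈ B₁, ‖z - b‖) ^ (-s) := by
      have hMne : M ≠ 0 := by omega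
      refine le_of_pow_le_pow_left₀ hMne (by positivity) ?_
      rw [mul_pow, ← Real.rpow_natCast ((∏ b ∈ B₁, ‖z - b‖) ^ (-s)) M, ← Real.rpow_mul hP.le]
      have he : -s * (M:ℝ) = -((M - 1 : ℕ) : ℝ) := by
        rw [hs, Nat.cast_sub hM]; field_simp; simp
      rw [he, Real.rpow_neg hP.le, Real.rpow_natCast, ← div_eq_mul_inv,
        le_div_iff₀ (by positivity)]
      exact h1
    refine h2.trans ?_
    rw [← Real.finsetProd_rpow _ _ (fun b _ => norm_nonneg _)]
    exact mul_le_mul_of_nonneg_left (hprod z hzB) hκ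
  -- choose the parameters
  choose c hc using fun b : ℂ => H663.line_dist p q b hpq
  -- the fundamental theorem
  have hcont : ContinuousOn (fun t : ℝ => deriv β (p + t • (q - p)) * (q - p)) (Set.Icc 0 1) := by
    apply ContinuousOn.mul _ continuousOn_const
    have hd : ContinuousOn (deriv β) U := (hβ.deriv hU).continuousOn
    exact hd.comp (by fun_prop) fun t ht => hsU (hmem t ht)
  have hFTC : ∫ t in (0:ℝ)..1, deriv β (p + t • (q - p)) * (q - p) = β q - β p := by
    have := intervalIntegral.integral_eq_sub_of_hasDerivAt (a := 0) (b := 1)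
      (f := fun t : ℝ => β (p + t • (q - p)))
      (f' := fun t : ℝ => deriv β (p + t • (q - p)) * (q - p)) ?_ ?_
    · simpa using this
    · intro t ht
      rw [Set.uIcc_of_le (by norm_num)] at ht
      have hz := hsU (hmem t ht)
      have hβd : HasDerivAt β (deriv β (p + t • (q - p))) (p + t • (q - p)) :=
        (hβ.differentiableAt (hU.mem_nhds hz)).hasDerivAt
      have hγ : HasDerivAt (fun t : ℝ => p + t • (q - p)) (q - p) t := by
        have := ((hasDerivAt_id t).smul_const (q - p)).const_add p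
        simpa using this
      exact hβd.comp_of_eq t hγ rfl
    · apply ContinuousOn.intervalIntegrable
      rw [Set.uIcc_of_le (by norm_num)]
      exact hcont
  rw [← hFTC]
  have hbound : ∀ t ∈ Set.Ioo (0:ℝ) 1, (∀ b ∈ B₁, t ≠ c b) →
      ‖deriv β (p + t • (q - p)) * (q - p)‖ ≤
      κ * (C * (L + ∑ b ∈ B₁, (L ^ (1 - s)) * |t - c b| ^ (-s))) := by
    intro t ht htc
    have hz := hmem t ⟨ht.1.le, ht.2.le⟩
    rw [norm_mul]
    calc ‖deriv β (p + t • (q - p))‖ * ‖q - p‖
        ≤ κ * (C * (1 + ∑ b ∈ B₁, ‖p + t • (q - p) - b‖ ^ (-s))) * L :=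
          mul_le_mul_of_nonneg_right (hpt _ hz) hLpos.le
      _ = κ * (C * (L + ∑ b ∈ B₁, L * ‖p + t • (q - p) - b‖ ^ (-s))) := by
          rw [← Finset.mul_sum]; ring
      _ ≤ _ := by
          apply mul_le_mul_of_nonneg_left _ hκ
          apply mul_le_mul_of_nonneg_left _ hC
          apply add_le_add_right
          apply Finset.sum_le_sum
          intro b hb
          have htb : 0 < |t - c b| := abs_pos.2 (sub_ne_zero.2 (htc b hb))
          have h1 : ‖p + t • (q - p) - b‖ ^ (-s) ≤ (|t - c b| * L) ^ (-s) :=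
            Real.rpow_le_rpow_of_nonpos (by positivity) (hc b t) (by linarith)
          rw [Real.mul_rpow htb.le hLpos.le] at h1
          calc L * ‖p + t • (q - p) - b‖ ^ (-s) ≤ L * (|t - c b| ^ (-s) * L ^ (-s)) :=
                mul_le_mul_of_nonneg_left h1 hLpos.le
            _ = L ^ (1 - s) * |t - c b| ^ (-s) := by
                rw [show (1 - s) = 1 + -s by ring, Real.rpow_add hLpos, Real.rpow_one]; ring
  have hsumI : IntervalIntegrable (fun t : ℝ => ∑ b ∈ B₁, (L ^ (1 - s)) * |t - c b| ^ (-s))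
      MeasureTheory.volume 0 1 := by
    have := IntervalIntegrable.sum (μ := MeasureTheory.volume) (a := 0) (b := 1) B₁
      (f := fun b (t : ℝ) => (L ^ (1 - s)) * |t - c b| ^ (-s))
      (fun b _ => (H663.ii_shift hs1 (c b) 0 1).const_mul _)
    refine this.congr ?_
    intro t _
    simp only [Finset.sum_apply]
  have hgi : IntervalIntegrable (fun t : ℝ =>
      κ * (C * (L + ∑ b ∈ B₁, (L ^ (1 - s)) * |t - c b| ^ (-s)))) MeasureTheory.volume 0 1 := by
    apply IntervalIntegrable.const_mul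
    apply IntervalIntegrable.const_mul
    apply IntervalIntegrable.add intervalIntegrable_const
    exact hsumI
  calc ‖∫ t in (0:ℝ)..1, deriv β (p + t • (q - p)) * (q - p)‖
      ≤ ∫ t in (0:ℝ)..1, κ * (C * (L + ∑ b ∈ B₁, (L ^ (1 - s)) * |t - c b| ^ (-s))) := by
        apply intervalIntegral.norm_integral_le_of_norm_le (by norm_num) _ hgi
        have hae : ∀ᵐ t : ℝ ∂MeasureTheory.volume, t ∉ ((B₁.image c : Finset ℝ) : Set ℝ) ∪ {0, 1} := by
          have hfin : (((B₁.image c : Finset ℝ) : Set ℝ) ∪ {0, 1}).Finite :=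
            (Finset.finite_toSet _).union (by simp)
          exact MeasureTheory.measure_eq_zero_iff_ae_notMem.1 (hfin.measure_zero _)
        filter_upwards [hae] with t ht htI
        rw [Set.mem_union, not_or] at ht
        have h01 : t ≠ 1 := fun h => ht.2 (by simp [h])
        refine hbound t ⟨htI.1, lt_of_le_of_ne htI.2 h01⟩ fun b hb h => ht.1 ?_
        rw [h]
        exact Finset.mem_coe.2 (Finset.mem_image_of_mem c hb)
    _ = κ * (C * (L + ∑ b ∈ B₁, (L ^ (1 - s)) * ∫ t in (0:ℝ)..1, |t - c b| ^ (-s))) := by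
        rw [intervalIntegral.integral_const_mul, intervalIntegral.integral_const_mul,
          intervalIntegral.integral_add intervalIntegrable_const,
          intervalIntegral.integral_finsetSum]
        · simp
        · intro b _
          exact (H663.ii_shift hs1 (c b) 0 1).const_mul _
        · exact hsumI
    _ ≤ κ * (C * ((2 * r) + B₁.card * ((2 * r) ^ (1 - s) * K₀))) := by
        apply mul_le_mul_of_nonneg_left _ hκ
        apply mul_le_mul_of_nonneg_left _ hC
        apply add_le_add hL2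
        have : ∑ b ∈ B₁, (L ^ (1 - s)) * ∫ t in (0:ℝ)..1, |t - c b| ^ (-s) ≤
            ∑ b ∈ B₁, (2 * r) ^ (1 - s) * K₀ := by
          apply Finset.sum_le_sum
          intro b _
          apply mul_le_mul
          · exact Real.rpow_le_rpow hLpos.le hL2 (by linarith)
          · exact hint (c b)
          · exact intervalIntegral.integral_nonneg (by norm_num) fun t _ => by positivity
          · positivity
        refine this.trans ?_
        rw [Finset.sum_const, nsmul_eq_mul]
    _ = _ := by ring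

end Pool.Agent.H918.PF
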