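import Pool.Agent.H918.G.ExistsBasis
import Pool.Agent.H918.G.Growth
import Pool.Agent.H918.G.CoeffBound
import Pool.Agent.H918.G.ZerosFinite
import Pool.Agent.H918.G.ExistsBranch
import Pool.Agent.H918.G.BranchUnique
import Pool.Agent.H918.G.SegBound
import Pool.Agent.H918.G.RadBound
import Pool.Agent.H918.G.ExistsPath
import Pool.Agent.H918.G.GlueLift
import Pool.Agent.H918.G.MultiLiouville
import Pool.Agent.H918.G.Pigeon
import Pool.Agent.H918.G.LatSmall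

/-! PROJECT PF: among infinitely many maps to an elliptic curve with bounded derivative there are two
which are equal. -/

set_option autoImplicit false

open Polynomial FF Pool.Agent.W603.LV Filter Topology Metric Set
open scoped Polynomial.Bivariate

namespace Pool.Agent.H918.PF

variable {L : Type} [Field L] [Algebra ℂ L] {c : Place ℂ L} {ev : ℂ[X][Y] →ₐ[ℂ] L} {P : ℂ[X][Y]}
  {B₀ B₁ : Finset ℂ} {Λ : PeriodPair} {u₀ : ℂ} {η : L} {τ : ℂ → ℂ → ℂ ⧸ Λ.lattice}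

/-- common denominators -/
theorem exists_common (hM : Model c ev P) {g : ℕ} (e : Fin g → L) :
    ∃ (S : ℂ[X]) (R : Fin g → ℂ[X][Y]), S ≠ 0 ∧ ∀ k, e k * ev (C S) = ev (R k) := by
  classical
  choose R S hS h using fun k => hM.frac (e k)
  refine ⟨∏ k, S k, fun k => R k * C (∏ l ∈ Finset.univ.erase k, S l),
    Finset.prod_ne_zero_iff.2 fun k _ => hS k, fun k => ?_⟩
  rw [← Finset.mul_prod_erase Finset.univ S (Finset.mem_univ k), C_mul, map_mul, map_mul, ← mul_assoc,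
    h k]

theorem Ell.mono (h : Ell ev P B₀ Λ u₀ η τ) (hB : B₀ ⊆ B₁) : Ell ev P B₁ Λ u₀ η τ where
  loc U g hU hUB hg := h.loc U g hU (fun z hz hzB => hUB z hz (hB hzB)) hg
  inf ε hε := by
    obtain ⟨r, hr⟩ := h.inf ε hε
    exact ⟨r, fun z y hz hzB => hr z y hz fun h => hzB (hB h)⟩

/-- functions with values in the lattice are locally constant -/
theorem lat_const (Λ : PeriodPair) {f : ℂ → ℂ} {z : ℂ} (hf : ContinuousAt f z)
    (hm : ∀ᶠ w in 𝓝 z, (Submodule.Quotient.mk (f w) : ℂ ⧸ Λ.lattice) = 0) :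
    ∀ᶠ w in 𝓝 z, f w = f z := by
  obtain ⟨δ, hδ, h⟩ := lat_small Λ
  have h1 : ∀ᶠ w in 𝓝 z, ‖f w - f z‖ < δ := by
    have := Metric.tendsto_nhds.1 hf δ hδ
    filter_upwards [this] with w hw
    rwa [dist_eq_norm] at hw
  filter_upwards [h1, hm] with w hw hw2
  refine sub_eq_zero.1 (h _ _ hw (by rwa [norm_zero]) ?_)
  rw [Submodule.Quotient.mk_sub, hw2, hm.self_of_nhds, sub_zero, Submodule.Quotient.mk_zero]

/-- lifts on convex sets -/
theorem Ell.lift (h : Ell ev P B₀ Λ u₀ η τ) {U : Set ℂ} (hU : IsOpen U) (hc : Convex ℝ U)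
    (hUB : ∀ z ∈ U, z ∉ B₀) {g : ℂ → ℂ} (hg : Branch P U g) :
    ∃ β : ℂ → ℂ, DifferentiableOn ℂ β U ∧ (∀ z ∈ U, τ z (g z) = Submodule.Quotient.mk (β z)) ∧
      ∀ z ∈ U, ∀ (R : ℂ[X][Y]) (S : ℂ[X]), η * ev (C S) = ev R →
        S.eval z * deriv β z = evalEval z (g z) R := by
  obtain ⟨β, h1, h2⟩ := glue_lift Λ hU hc (t := fun z => τ z (g z)) fun z hz => by
    obtain ⟨β, h1, h2⟩ := h.loc U g hU hUB hg z hz
    exact ⟨β, h1, h2.mono fun w hw => hw.1⟩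
  refine ⟨β, h1, h2, fun z hz R S hRS => ?_⟩
  obtain ⟨β', h3, h4⟩ := h.loc U g hU hUB hg z hz
  have h5 : ∀ᶠ w in 𝓝 z, (fun w => β w - β' w) w = (fun w => β w - β' w) z := by
    refine lat_const Λ ?_ ?_
    · exact ((h1.differentiableAt (hU.mem_nhds hz)).continuousAt).sub h3.continuousAt
    · filter_upwards [hU.mem_nhds hz, h4] with w hw hw2
      rw [Submodule.Quotient.mk_sub, ← h2 w hw, ← hw2.1, sub_self]
  have h6 : β =ᶠ[𝓝 z] fun w => β' w + (β z - β' z) := by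
    filter_upwards [h5] with w hw
    have hw' : β w - β' w = β z - β' z := hw
    rw [← hw']
    ring
  rw [h6.deriv_eq, deriv_add_const]
  exact h4.self_of_nhds.2 R S hRS

/-- the bound for a sum of powers -/
theorem sum_pow_bound {g M : ℕ} (hM : 1 ≤ M) {x : Fin g → ℝ} (hx : ∀ k, 0 ≤ x k) :
    (∑ k, x k) ^ M ≤ (g : ℝ) ^ M * ∑ k, x k ^ M := by
  have h0 : 0 ≤ ∑ k, x k ^ M := Finset.sum_nonneg fun k _ => pow_nonneg (hx k) M
  set T : ℝ := (∑ k, x k ^ M) ^ ((M : ℝ)⁻¹) with hT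
  have hT0 : 0 ≤ T := Real.rpow_nonneg h0 _
  have hTM : T ^ M = ∑ k, x k ^ M := by
    rw [hT, ← Real.rpow_natCast, ← Real.rpow_mul h0, inv_mul_cancel₀ (by positivity), Real.rpow_one]
  have hM0 : M ≠ 0 := by omega
  have h1 : ∀ k, x k ≤ T := by
    intro k
    refine le_of_pow_le_pow_left₀ hM0 hT0 ?_
    rw [hTM]
    exact Finset.single_le_sum (f := fun k => x k ^ M) (fun k _ => pow_nonneg (hx k) M)
      (Finset.mem_univ k)
  have h2 : ∑ k, x k ≤ g * T := by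
    refine (Finset.sum_le_sum fun k _ => h1 k).trans (le_of_eq ?_)
    simp
  calc (∑ k, x k) ^ M ≤ (g * T) ^ M := pow_le_pow_left₀ (Finset.sum_nonneg fun k _ => hx k) h2 M
    _ = (g : ℝ) ^ M * ∑ k, x k ^ M := by rw [mul_pow, hTM]


/-- a bound outside of the zeros of a polynomial is a bound everywhere -/
theorem ext_bound {U : Set ℂ} (hU : IsOpen U) {f : ℂ → ℝ} (hf : ContinuousOn f U) {S : ℂ[X]}
    (hS : S ≠ 0) {A : ℝ} (h : ∀ z ∈ U, S.eval z ≠ 0 → f z ≤ A) {z : ℂ} (hz : z ∈ U) : f z ≤ A := by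
  have h1 : ∀ᶠ w in 𝓝[≠] z, S.eval w ≠ 0 := by
    have h2 : (S.rootSet ℂ : Set ℂ).Finite := S.rootSet_finite ℂ
    have h3 : IsOpen ((S.rootSet ℂ : Set ℂ) \ {z})ᶜ := (h2.subset diff_subset).isClosed.isOpen_compl
    have h4 : ((S.rootSet ℂ : Set ℂ) \ {z})ᶜ ∈ 𝓝 z := h3.mem_nhds (by simp)
    filter_upwards [nhdsWithin_le_nhds h4, self_mem_nhdsWithin] with w hw hwz h0
    apply hw
    refine ⟨?_, hwz⟩
    rw [Polynomial.mem_rootSet]
    exact ⟨hS, by simpa using h0⟩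
  have h2 : Tendsto f (𝓝[≠] z) (𝓝 (f z)) :=
    ((hf z hz).continuousAt (hU.mem_nhds hz)).tendsto.mono_left nhdsWithin_le_nhds
  refine le_of_tendsto h2 ?_
  filter_upwards [h1, nhdsWithin_le_nhds (hU.mem_nhds hz)] with w hw hwU
  exact h w hwU hw

/-- the derivative of the difference of two lifts -/
theorem diff_bound {g M : ℕ} (hM1 : 1 ≤ M) {e : Fin g → L} {S : ℂ[X]} {R : Fin g → ℂ[X][Y]}
    (hS : S ≠ 0) (hR : ∀ k, e k * ev (C S) = ev (R k)) {a a' : Fin g → ℂ} {ε : ℝ} (hε : 0 ≤ ε)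
    (haa : ∀ k, ‖a k - a' k‖ ≤ ε) {U : Set ℂ} (hU : IsOpen U) {γ : ℂ → ℂ} (hγ : Branch P U γ)
    {β β' : ℂ → ℂ} (hβ : DifferentiableOn ℂ β U) (hβ' : DifferentiableOn ℂ β' U)
    (h1 : ∀ z ∈ U, ∀ (R : ℂ[X][Y]) (S : ℂ[X]), (∑ k, a k • e k) * ev (C S) = ev R →
        S.eval z * deriv β z = evalEval z (γ z) R)
    (h2 : ∀ z ∈ U, ∀ (R : ℂ[X][Y]) (S : ℂ[X]), (∑ k, a' k • e k) * ev (C S) = ev R →
        S.eval z * deriv β' z = evalEval z (γ z) R)
    {W : ℂ → ℝ} (hW : Continuous W) (hW0 : ∀ z, 0 ≤ W z) {K : Fin g → ℝ} (hK0 : ∀ k, 0 ≤ K k)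
    (hK : ∀ k, ∀ z ∈ U, S.eval z ≠ 0 →
      (‖evalEval z (γ z) (R k)‖ / ‖S.eval z‖) ^ M * W z ≤ K k) {z : ℂ} (hz : z ∈ U) :
    ‖deriv (fun w => β w - β' w) z‖ ^ M * W z ≤
      (ε * (g * (∑ k, K k) ^ ((M : ℝ)⁻¹))) ^ M := by
  have hd : ∀ w ∈ U, deriv (fun w => β w - β' w) w = deriv β w - deriv β' w := fun w hw =>
    deriv_fun_sub (hβ.differentiableAt (hU.mem_nhds hw)) (hβ'.differentiableAt (hU.mem_nhds hw))
  have hcont : ContinuousOn (fun w => ‖deriv (fun w => β w - β' w) w‖ ^ M * W w) U := by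
    have h3 : DifferentiableOn ℂ (deriv fun w => β w - β' w) U := (hβ.sub hβ').deriv hU
    exact (h3.continuousOn.norm.pow M).mul hW.continuousOn
  refine ext_bound hU hcont hS (fun w hw hSw => ?_) hz
  have hcomb : ∀ b : Fin g → ℂ, (∑ k, b k • e k) * ev (C S) =
      ev (∑ k, C (C (b k)) * R k) := by
    intro b
    rw [Finset.sum_mul, map_sum]
    refine Finset.sum_congr rfl fun k _ => ?_
    rw [smul_mul_assoc, hR k, map_mul]
    have : ev (C (C (b k))) = algebraMap ℂ L (b k) := by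
      have := ev.commutes (b k)
      rwa [show (algebraMap ℂ ℂ[X][Y]) (b k) = C (C (b k)) from rfl] at this
    rw [this, Algebra.smul_def]
  have hE : ∀ b : Fin g → ℂ, evalEval w (γ w) (∑ k, C (C (b k)) * R k) =
      ∑ k, b k * evalEval w (γ w) (R k) := by
    intro b
    rw [← Polynomial.coe_evalEvalRingHom, map_sum]
    refine Finset.sum_congr rfl fun k _ => ?_
    rw [map_mul]
    simp [Polynomial.coe_evalEvalRingHom]
  have h4 := h1 w hw _ S (hcomb a)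
  have h5 := h2 w hw _ S (hcomb a')
  rw [hE] at h4 h5
  have hS0 : 0 < ‖S.eval w‖ := norm_pos_iff.2 hSw
  have h6 : deriv (fun w => β w - β' w) w =
      ∑ k, (a k - a' k) * (evalEval w (γ w) (R k) / S.eval w) := by
    rw [hd w hw]
    have e1 : deriv β w = (∑ k, a k * evalEval w (γ w) (R k)) / S.eval w := by
      rw [← h4]
      field_simp
    have e2 : deriv β' w = (∑ k, a' k * evalEval w (γ w) (R k)) / S.eval w := by
      rw [← h5]
      field_simp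
    rw [e1, e2, ← sub_div, ← Finset.sum_sub_distrib, Finset.sum_div]
    refine Finset.sum_congr rfl fun k _ => ?_
    ring
  have h7 : ‖deriv (fun w => β w - β' w) w‖ ≤
      ε * ∑ k, (‖evalEval w (γ w) (R k)‖ / ‖S.eval w‖) := by
    rw [h6, Finset.mul_sum]
    refine (norm_sum_le _ _).trans (Finset.sum_le_sum fun k _ => ?_)
    rw [norm_mul, norm_div]
    exact mul_le_mul_of_nonneg_right (haa k) (by positivity)
  have hx0 : ∀ k, 0 ≤ ‖evalEval w (γ w) (R k)‖ / ‖S.eval w‖ := fun k => by positivity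
  have hKs : 0 ≤ ∑ k, K k := Finset.sum_nonneg fun k _ => hK0 k
  have hT : ((∑ k, K k) ^ ((M : ℝ)⁻¹)) ^ M = ∑ k, K k := by
    have hM0 : (M : ℝ) ≠ 0 := by
      have : M ≠ 0 := by omega
      exact_mod_cast this
    rw [← Real.rpow_natCast, ← Real.rpow_mul hKs, inv_mul_cancel₀ hM0, Real.rpow_one]
  calc ‖deriv (fun w => β w - β' w) w‖ ^ M * W w
      ≤ (ε * ∑ k, (‖evalEval w (γ w) (R k)‖ / ‖S.eval w‖)) ^ M * W w :=
        mul_le_mul_of_nonneg_right (pow_le_pow_left₀ (norm_nonneg _) h7 M) (hW0 w)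
    _ = ε ^ M * ((∑ k, (‖evalEval w (γ w) (R k)‖ / ‖S.eval w‖)) ^ M * W w) := by
        rw [mul_pow]
        ring
    _ ≤ ε ^ M * (((g : ℝ) ^ M * ∑ k, (‖evalEval w (γ w) (R k)‖ / ‖S.eval w‖) ^ M) * W w) := by
        refine mul_le_mul_of_nonneg_left ?_ (pow_nonneg hε M)
        exact mul_le_mul_of_nonneg_right (sum_pow_bound hM1 hx0) (hW0 w)
    _ = ε ^ M * ((g : ℝ) ^ M * ∑ k, ((‖evalEval w (γ w) (R k)‖ / ‖S.eval w‖) ^ M * W w)) := by
        rw [mul_assoc ((g : ℝ) ^ M), Finset.sum_mul]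
    _ ≤ ε ^ M * ((g : ℝ) ^ M * ∑ k, K k) := by
        refine mul_le_mul_of_nonneg_left ?_ (pow_nonneg hε M)
        refine mul_le_mul_of_nonneg_left ?_ (by positivity)
        exact Finset.sum_le_sum fun k _ => hK k w hw hSw
    _ = (ε * (g * (∑ k, K k) ^ ((M : ℝ)⁻¹))) ^ M := by
        rw [mul_pow, mul_pow, hT]


/-- half planes -/
theorem half_plane {r r₀ : ℝ} (hr₀ : 0 ≤ r₀) (hr : r₀ < r) (hB : ∀ b ∈ B₁, ‖b‖ ≤ r₀) {p : ℂ}
    (hp : r ≤ ‖p‖) : ∃ U : Set ℂ, IsOpen U ∧ Convex ℝ U ∧ (∀ s : ℝ, 1 ≤ s → (s : ℂ) * p ∈ U) ∧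
      (∀ z ∈ U, z ∉ B₁) ∧ ∀ z ∈ U, r₀ < ‖z‖ := by
  have hp0 : 0 < ‖p‖ := (hr₀.trans_lt hr).trans_le hp
  refine ⟨{z | r₀ * ‖p‖ < (z * starRingEnd ℂ p).re}, ?_, ?_, ?_, ?_, ?_⟩
  · exact isOpen_lt continuous_const (Complex.continuous_re.comp (by fun_prop))
  · have h1 : Convex ℝ {z : ℂ | r₀ * ‖p‖ < (z * starRingEnd ℂ p).re} := by
      apply convex_halfSpace_gt
      constructor
      · intro x y
        simp [add_mul]
      · intro c x
        simp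
        ring
    exact h1
  · intro s hs
    show r₀ * ‖p‖ < ((s : ℂ) * p * starRingEnd ℂ p).re
    rw [mul_assoc, Complex.mul_conj, ← Complex.ofReal_mul, Complex.ofReal_re,
      Complex.normSq_eq_norm_sq]
    nlinarith [mul_pos hp0 hp0]
  · intro z hz hzB
    have h1 : (z * starRingEnd ℂ p).re ≤ ‖z‖ * ‖p‖ := by
      refine (Complex.re_le_norm _).trans (le_of_eq ?_)
      rw [norm_mul, RCLike.norm_conj]
    have h2 := hB z hzB
    have h3 : r₀ * ‖p‖ < (z * starRingEnd ℂ p).re := hz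
    nlinarith
  · intro z hz
    have h1 : (z * starRingEnd ℂ p).re ≤ ‖z‖ * ‖p‖ := by
      refine (Complex.re_le_norm _).trans (le_of_eq ?_)
      rw [norm_mul, RCLike.norm_conj]
    have h3 : r₀ * ‖p‖ < (z * starRingEnd ℂ p).re := hz
    by_contra hlt
    push Not at hlt
    nlinarith


/-- **Finiteness.** Among infinitely many maps to an elliptic curve whose derivatives are bounded on a
branch, by the same constant, there are two which are equal. -/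
theorem two_equal (hBF : S_BFIN) (hBI : S_BINF) [IsFF ℂ L] (hM : Model c ev P) (hs : SepOff P B₀)
    {D : Derivation ℂ L L} (hD : D (ev (C X)) = 1) {I : Type} [Infinite I] {η : I → L}
    {τ : I → ℂ → ℂ → ℂ ⧸ Λ.lattice} (h : ∀ i, Ell ev P B₀ Λ u₀ (η i) (τ i))
    (hV : ∀ i Q, Ge Q (vo Q D) (η i)) {U : Set ℂ} (hU : IsOpen U) (hne : U.Nonempty) {g₀ : ℂ → ℂ}
    (hg₀ : Branch P U g₀) {A : ℝ} (hA : 0 ≤ A)
    (hb : ∀ (i : I) (R : ℂ[X][Y]) (S : ℂ[X]), η i * ev (C S) = ev R → ∀ z ∈ U, S.eval z ≠ 0 →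
      ‖evalEval z (g₀ z) R‖ ≤ A * ‖S.eval z‖) :
    ∃ i j, i ≠ j ∧ ∃ B₁ : Finset ℂ, ∀ z y : ℂ, z ∉ B₁ → evalEval z y P = 0 →
      τ i z y = τ j z y := by
  classical
  have hD0 : D ≠ 0 := by
    rintro rfl
    simp at hD
  obtain ⟨M, B₁, hM1, hB01, hgr⟩ := growth hBF hBI hM hD B₀
  obtain ⟨g, e, he1, he2, he3⟩ := exists_basis (L := L) hD0
  choose a ha using fun i => he3 (η i) (hV i)
  obtain ⟨Kc, hKc⟩ := coeff_bound hM he2 hU hne hg₀
  have hac : ∀ i k, ‖a i k‖ ≤ Kc * A := fun i => hKc (a i) A hA (by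
    intro R S hRS
    rw [← ha i] at hRS
    exact hb i R S hRS)
  obtain ⟨S, R, hS, hR⟩ := exists_common hM e
  choose Kf hKf using fun k r => (hgr (e k) (he1 k)).1 r
  choose Ki ri hKi using fun k => (hgr (e k) (he1 k)).2
  obtain ⟨r₀, hr₀, hB₀, hri⟩ : ∃ r₀ : ℝ, 0 ≤ r₀ ∧ (∀ b ∈ B₁, ‖b‖ ≤ r₀) ∧ ∀ k, ri k ≤ r₀ := by
    refine ⟨∑ b ∈ B₁, ‖b‖ + ∑ k, |ri k|, by positivity, fun b hb => ?_, fun k => ?_⟩
    · have h1 : ‖b‖ ≤ ∑ b ∈ B₁, ‖b‖ := Finset.single_le_sum (f := fun b : ℂ => ‖b‖)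
        (fun b _ => norm_nonneg b) hb
      have h2 : 0 ≤ ∑ k, |ri k| := by positivity
      linarith
    · have h1 : |ri k| ≤ ∑ k, |ri k| := Finset.single_le_sum (f := fun k => |ri k|)
        (fun b _ => abs_nonneg _) (Finset.mem_univ k)
      have h2 : 0 ≤ ∑ b ∈ B₁, ‖b‖ := by positivity
      have := le_abs_self (ri k)
      linarith
  obtain ⟨r, hr⟩ : ∃ r : ℝ, r = r₀ + 1 := ⟨_, rfl⟩
  have hr1 : 0 < r := by linarith
  obtain ⟨K1, hK1⟩ : ∃ K1 : Fin g → ℝ, ∀ k, K1 k = max (Kf k (r + 1)) 0 := ⟨_, fun _ => rfl⟩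
  obtain ⟨K2, hK2⟩ : ∃ K2 : Fin g → ℝ, ∀ k, K2 k = max (Ki k) 0 := ⟨_, fun _ => rfl⟩
  obtain ⟨G1, hG1⟩ : ∃ G1 : ℝ, G1 = g * (∑ k, K1 k) ^ ((M : ℝ)⁻¹) := ⟨_, rfl⟩
  obtain ⟨G2, hG2⟩ : ∃ G2 : ℝ, G2 = g * (∑ k, K2 k) ^ ((M : ℝ)⁻¹) := ⟨_, rfl⟩
  have hK10 : ∀ k, 0 ≤ K1 k := fun k => by
    rw [hK1]
    exact le_max_right _ _
  have hK20 : ∀ k, 0 ≤ K2 k := fun k => by
    rw [hK2]
    exact le_max_right _ _
  have hG10 : 0 ≤ G1 := by
    rw [hG1]
    exact mul_nonneg (by positivity) (Real.rpow_nonneg (Finset.sum_nonneg fun k _ => hK10 k) _)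
  have hG20 : 0 ≤ G2 := by
    rw [hG2]
    exact mul_nonneg (by positivity) (Real.rpow_nonneg (Finset.sum_nonneg fun k _ => hK20 k) _)
  obtain ⟨Ks, hKs0, hseg⟩ := seg_bound hM1 B₁ r
  obtain ⟨Kr, hKr0, hrad⟩ := rad_bound hM1 hr1
  obtain ⟨δ, hδ, hlat⟩ := lat_small Λ
  have hq0 : 0 ≤ Ks * G1 + Kr * G2 := by positivity
  obtain ⟨ε, hεd⟩ : ∃ ε : ℝ, ε = δ / (16 * (Ks * G1 + Kr * G2 + 1)) := ⟨_, rfl⟩
  have hε : 0 < ε := by
    rw [hεd]
    positivity
  have hεq : ε * (Ks * G1 + Kr * G2) ≤ δ / 16 := by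
    have h1 : ε * (16 * (Ks * G1 + Kr * G2 + 1)) = δ := by
      rw [hεd]
      field_simp
    nlinarith
  obtain ⟨i, j, hij, hclose⟩ := pigeon a hac hε
  have hi := (h i).mono hB01
  have hj := (h j).mono hB01
  -- the far points
  have hfar : ∀ p y : ℂ, r ≤ ‖p‖ → evalEval p y P = 0 →
      ∃ w : ℂ, ‖w‖ ≤ Kr * (ε * G2) + δ / 8 ∧ τ i p y - τ j p y = Submodule.Quotient.mk w := by
    intro p y hp hy
    obtain ⟨V, hV1, hV2, hV3, hV4, hV5⟩ := half_plane hr₀ (by linarith : r₀ < r) hB₀ hp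
    have hpV : p ∈ V := by
      have := hV3 1 le_rfl
      simpa using this
    obtain ⟨γ, hγ, hγp⟩ := exists_branch hM.monic hs hV1 hV2 (fun z hz hzB => hV4 z hz (hB01 hzB)) hpV hy
    obtain ⟨β, hβ1, hβ2, hβ3⟩ := hi.lift hV1 hV2 hV4 hγ
    obtain ⟨β', hβ1', hβ2', hβ3'⟩ := hj.lift hV1 hV2 hV4 hγ
    rw [ha i] at hβ3
    rw [ha j] at hβ3'
    have hdb : ∀ z ∈ V, ‖deriv (fun w => β w - β' w) z‖ ^ M * ‖z‖ ^ (M + 1) ≤ (ε * G2) ^ M := by
      intro z hz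
      rw [hG2]
      refine diff_bound hM1 hS hR hε.le hclose hV1 hγ hβ1 hβ1' hβ3 hβ3' (W := fun z => ‖z‖ ^ (M + 1))
        (by fun_prop) (fun z => by positivity) hK20 (fun k z hz hSz => ?_) hz
      refine (hKi k (R k) S (hR k) z (γ z) ((hri k).trans (hV5 z hz).le) (hγ.root z hz) hSz).trans ?_
      rw [hK2]
      exact le_max_left _ _
    obtain ⟨ρ1, hρ1⟩ := hi.inf (δ / 16) (by positivity)
    obtain ⟨ρ2, hρ2⟩ := hj.inf (δ / 16) (by positivity)
    have hp0 : 0 < ‖p‖ := hr1.trans_le hp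
    obtain ⟨s, hs1, hs2, hs3⟩ : ∃ s : ℝ, 1 ≤ s ∧ ρ1 ≤ ‖(s : ℂ) * p‖ ∧ ρ2 ≤ ‖(s : ℂ) * p‖ := by
      refine ⟨1 + (|ρ1| + |ρ2|) / ‖p‖, by
        have : 0 ≤ (|ρ1| + |ρ2|) / ‖p‖ := by positivity
        linarith, ?_, ?_⟩
      all_goals
        have h0 : 0 ≤ (|ρ1| + |ρ2|) / ‖p‖ := by positivity
        rw [norm_mul, Complex.norm_real, Real.norm_of_nonneg (by linarith), add_mul, one_mul,
          div_mul_cancel₀ _ hp0.ne']
        have h1 := le_abs_self ρ1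
        have h2 := le_abs_self ρ2
        have h3 := abs_nonneg ρ1
        have h4 := abs_nonneg ρ2
        linarith
    have hsp := hV3 s hs1
    obtain ⟨w1, hw1, hw1'⟩ := hρ1 _ _ hs2 (hV4 _ hsp) (hγ.root _ hsp)
    obtain ⟨w2, hw2, hw2'⟩ := hρ2 _ _ hs3 (hV4 _ hsp) (hγ.root _ hsp)
    have h5 := hrad p hp V (fun w => β w - β' w) hV1 hV3 (hβ1.sub hβ1') (ε * G2) (by positivity)
      (fun s hs => hdb _ (hV3 s hs)) s hs1
    refine ⟨(β p - β' p) - (β (s * p) - β' (s * p)) + (w1 - w2), ?_, ?_⟩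
    · have h6 : ‖(β p - β' p) - (β (s * p) - β' (s * p))‖ ≤ Kr * (ε * G2) := by
        rw [norm_sub_rev]
        exact h5
      have h7 : ‖w1 - w2‖ ≤ δ / 16 + δ / 16 := (norm_sub_le _ _).trans (add_le_add hw1 hw2)
      refine (norm_add_le _ _).trans ?_
      linarith
    · have e1 : τ i p y = Submodule.Quotient.mk (β p) := by
        rw [← hβ2 p hpV, hγp]
      have e2 : τ j p y = Submodule.Quotient.mk (β' p) := by
        rw [← hβ2' p hpV, hγp]
      have e3 := hβ2 _ hsp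
      have e4 := hβ2' _ hsp
      rw [hw1'] at e3
      rw [hw2'] at e4
      rw [e1, e2]
      simp only [Submodule.Quotient.mk_sub, Submodule.Quotient.mk_add] at e3 e4 ⊢
      rw [← e3, ← e4]
      abel
  -- all points
  have hall : ∀ p y : ℂ, p ∉ B₁ → evalEval p y P = 0 →
      ∃ w : ℂ, ‖w‖ ≤ δ / 4 ∧ τ i p y - τ j p y = Submodule.Quotient.mk w := by
    intro p y hpB hy
    rcases le_total r ‖p‖ with hp | hp
    · obtain ⟨w, hw, hw'⟩ := hfar p y hp hy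
      refine ⟨w, hw.trans ?_, hw'⟩
      have : 0 ≤ Ks * (ε * G1) := by positivity
      nlinarith
    · obtain ⟨q, V', hq, hV1', hV2', hV3', hV4'⟩ := exists_path B₁ hr1
        (fun b hb => (hB₀ b hb).trans_lt (by linarith)) hp hpB
      obtain ⟨V, hVd⟩ : ∃ V, V = V' ∩ ball (0 : ℂ) (r + 1) := ⟨_, rfl⟩
      have hV1 : IsOpen V := by
        rw [hVd]
        exact hV1'.inter isOpen_ball
      have hV2 : Convex ℝ V := by
        rw [hVd]
        exact hV2'.inter (convex_ball _ _)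
      have hV3 : segment ℝ p q ⊆ V := by
        rw [hVd]
        refine subset_inter hV3' ?_
        refine (convex_ball _ _).segment_subset ?_ ?_
        · rw [mem_ball_zero_iff]
          linarith
        · rw [mem_ball_zero_iff]
          linarith
      have hV4 : ∀ z ∈ V, z ∉ B₁ := fun z hz => hV4' z (by rw [hVd] at hz; exact hz.1)
      have hV5 : ∀ z ∈ V, ‖z‖ ≤ r + 1 := fun z hz => by
        rw [hVd] at hz
        exact (mem_ball_zero_iff.1 hz.2).le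
      have hpV : p ∈ V := hV3 (left_mem_segment ℝ p q)
      have hqV : q ∈ V := hV3 (right_mem_segment ℝ p q)
      obtain ⟨γ, hγ, hγp⟩ := exists_branch hM.monic hs hV1 hV2
        (fun z hz hzB => hV4 z hz (hB01 hzB)) hpV hy
      obtain ⟨β, hβ1, hβ2, hβ3⟩ := hi.lift hV1 hV2 hV4 hγ
      obtain ⟨β', hβ1', hβ2', hβ3'⟩ := hj.lift hV1 hV2 hV4 hγ
      rw [ha i] at hβ3
      rw [ha j] at hβ3'
      have hdb : ∀ z ∈ V, ‖deriv (fun w => β w - β' w) z‖ ^ M * ∏ b ∈ B₁, ‖z - b‖ ^ (M - 1) ≤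
          (ε * G1) ^ M := by
        intro z hz
        rw [hG1]
        refine diff_bound hM1 hS hR hε.le hclose hV1 hγ hβ1 hβ1' hβ3 hβ3'
          (W := fun z => ∏ b ∈ B₁, ‖z - b‖ ^ (M - 1))
          (by fun_prop) (fun z => by positivity) hK10 (fun k z hz hSz => ?_) hz
        refine (hKf k (r + 1) (R k) S (hR k) z (γ z) (hV5 z hz) (hγ.root z hz) hSz).trans ?_
        rw [hK1]
        exact le_max_left _ _
      have h5 := hseg p q hp hq.le (fun z hz => hV4 z (hV3 hz)) V (fun w => β w - β' w) hV1 hV3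
        (hβ1.sub hβ1') (ε * G1) (by positivity) (fun z hz => hdb z (hV3 hz))
      obtain ⟨w, hw, hw'⟩ := hfar q (γ q) hq.ge (hγ.root q hqV)
      refine ⟨(β p - β' p) - (β q - β' q) + w, ?_, ?_⟩
      · have h6 : ‖(β p - β' p) - (β q - β' q)‖ ≤ Ks * (ε * G1) := by
          rw [norm_sub_rev]
          exact h5
        refine (norm_add_le _ _).trans ?_
        nlinarith
      · have e1 : τ i p y = Submodule.Quotient.mk (β p) := by
          rw [← hβ2 p hpV, hγp]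
        have e2 : τ j p y = Submodule.Quotient.mk (β' p) := by
          rw [← hβ2' p hpV, hγp]
        have e3 := hβ2 _ hqV
        have e4 := hβ2' _ hqV
        rw [e1, e2]
        simp only [Submodule.Quotient.mk_sub, Submodule.Quotient.mk_add]
        rw [← hw', ← e3, ← e4]
        abel
  -- the difference
  obtain ⟨γ, hγ⟩ : ∃ γ : ℂ → ℂ → ℂ, ∀ p y : ℂ, p ∉ B₁ → evalEval p y P = 0 →
      ‖γ p y‖ ≤ δ / 4 ∧ τ i p y - τ j p y = Submodule.Quotient.mk (γ p y) := by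
    refine ⟨fun p y => if h : ∃ w : ℂ, ‖w‖ ≤ δ / 4 ∧
      τ i p y - τ j p y = Submodule.Quotient.mk w then h.choose else 0, fun p y hp hy => ?_⟩
    simp only
    rw [dif_pos (hall p y hp hy)]
    exact (hall p y hp hy).choose_spec
  have huniq : ∀ p y : ℂ, p ∉ B₁ → evalEval p y P = 0 → ∀ w : ℂ, ‖w‖ < δ →
      τ i p y - τ j p y = Submodule.Quotient.mk w → γ p y = w := by
    intro p y hp hy w hw hw'
    obtain ⟨h1, h2⟩ := hγ p y hp hy
    exact hlat _ _ (by linarith) hw (by rw [← h2, ← hw'])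
  have hzero := multi_liouville (γ := γ) (K := δ / 4) hM.monic
    (fun z hz => hs z fun h => hz (hB01 h)) (fun z y hz hy => (hγ z y hz hy).1) ?_ ?_
  · refine ⟨i, j, hij, B₁, fun z y hz hy => ?_⟩
    obtain ⟨-, h2⟩ := hγ z y hz hy
    rw [hzero z y hz hy, Submodule.Quotient.mk_zero] at h2
    exact sub_eq_zero.1 h2
  · intro V k hV1 hVB hk z hz
    obtain ⟨β, hβ, hβ'⟩ := hi.loc V k hV1 hVB hk z hz
    obtain ⟨b, hb, hb'⟩ := hj.loc V k hV1 hVB hk z hz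
    obtain ⟨l, hl⟩ : ∃ l, l = (β z - b z) - γ z (k z) := ⟨_, rfl⟩
    have hz1 := hγ z (k z) (hVB z hz) (hk.root z hz)
    have hΓ : ∀ᶠ w in 𝓝 z, τ i w (k w) - τ j w (k w) = Submodule.Quotient.mk (β w - b w) := by
      filter_upwards [hβ', hb'] with w h1 h2
      rw [h1.1, h2.1, Submodule.Quotient.mk_sub]
    have hl0 : (Submodule.Quotient.mk l : ℂ ⧸ Λ.lattice) = 0 := by
      rw [hl, Submodule.Quotient.mk_sub, ← hΓ.self_of_nhds, ← hz1.2, sub_self]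
    have hcont : ContinuousAt (fun w => β w - b w - l) z :=
      (hβ.continuousAt.sub hb.continuousAt).sub continuousAt_const
    have hsmall : ∀ᶠ w in 𝓝 z, ‖β w - b w - l‖ < δ := by
      have h1 : ‖β z - b z - l‖ < δ := by
        have : β z - b z - l = γ z (k z) := by
          rw [hl]
          ring
        rw [this]
        linarith [hz1.1]
      exact hcont.norm.eventually_lt continuousAt_const h1
    have heq : (fun w => γ w (k w)) =ᶠ[𝓝 z] fun w => β w - b w - l := by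
      filter_upwards [hsmall, hΓ, hV1.mem_nhds hz] with w h1 h2 h3
      refine huniq w (k w) (hVB w h3) (hk.root w h3) _ h1 ?_
      rw [h2, Submodule.Quotient.mk_sub _ (y := l), hl0, sub_zero]
    refine DifferentiableAt.differentiableWithinAt ?_
    exact ((hβ.differentiableAt.sub hb.differentiableAt).sub_const l).congr_of_eventuallyEq heq
  · intro ε' hε'
    obtain ⟨ε3, hε3⟩ : ∃ ε3 : ℝ, ε3 = min ε' (δ / 2) / 2 := ⟨_, rfl⟩
    have h30 : 0 < ε3 := by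
      rw [hε3]
      have : 0 < min ε' (δ / 2) := lt_min hε' (by positivity)
      positivity
    have h31 : ε3 + ε3 ≤ ε' := by
      rw [hε3]
      linarith [min_le_left ε' (δ / 2)]
    have h32 : ε3 + ε3 ≤ δ / 2 := by
      rw [hε3]
      linarith [min_le_right ε' (δ / 2)]
    obtain ⟨ρ1, hρ1⟩ := hi.inf ε3 h30
    obtain ⟨ρ2, hρ2⟩ := hj.inf ε3 h30
    refine ⟨max ρ1 ρ2, fun z y hz hzB hy => ?_⟩
    obtain ⟨w1, hw1, hw1'⟩ := hρ1 z y ((le_max_left _ _).trans hz) hzB hy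
    obtain ⟨w2, hw2, hw2'⟩ := hρ2 z y ((le_max_right _ _).trans hz) hzB hy
    have h7 : ‖w1 - w2‖ ≤ ε3 + ε3 := (norm_sub_le _ _).trans (add_le_add hw1 hw2)
    rw [huniq z y hzB hy (w1 - w2) (by linarith) (by
      rw [hw1', hw2']
      simp only [Submodule.Quotient.mk_sub, Submodule.Quotient.mk_add]
      abel)]
    linarith

end Pool.Agent.H918.PF
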