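import Pool.Agent.H918.G.Geo
import Pool.Agent.H918.D.Sab
import Pool.Graph.R_seed8.W602.GT.War

/-! PROJECT PF: the Weierstrass equation (helper550). -/

set_option autoImplicit false

open Polynomial FF Pool.Agent.W603.LV Pool.Agent.W603.PV Pool.Agent.W602.GT Pool.Agent.N154.GG
open Filter Topology Metric
open Pool.Agent.W602.RG (HasValue PointedMaps)
open Pool.Agent.Y216 (OnVar)
open Pool.Agent.H918.SS (ProjVariety HasReduction)
open scoped Polynomial.Bivariate LinearAlgebra.Projectivization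

namespace Pool.Agent.H918.PF

variable {L : Type} [Field L] [Algebra ℂ L] {c : Place ℂ L} {ev : ℂ[X][Y] →ₐ[ℂ] L} {P : ℂ[X][Y]}
  {B₀ : Finset ℂ} {n : ℕ} {ι : Type} {F : ι → MvPolynomial (Fin (n + 1)) ℂ} {Λ : PeriodPair}
  {α : (Fin (n + 1) → ℂ) → ℂ ⧸ Λ.lattice} {A : Fin 3 → MvPolynomial (Fin (n + 1)) ℂ}
  {R R' : Fin (n + 1) → ℂ[X][Y]} {T T' : ℂ → ℂ → ℙ ℂ (Fin (n + 1) → ℂ)}

namespace H550

/-- the homogeneous Weierstrass equation -/
noncomputable def WW (Λ : PeriodPair) (A : Fin 3 → MvPolynomial (Fin (n + 1)) ℂ) :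
    MvPolynomial (Fin (n + 1)) ℂ :=
  A 0 * (A 2 ^ 2 * A 0 - 4 * A 1 ^ 3 + MvPolynomial.C Λ.g₂ * A 1 * A 0 ^ 2 +
    MvPolynomial.C Λ.g₃ * A 0 ^ 3)

theorem val_WW {K : Type} [Field K] [Algebra ℂ K] (u : Fin (n + 1) → K) :
    val u (WW Λ A) = val u (A 0) * (val u (A 2) ^ 2 * val u (A 0) - 4 * val u (A 1) ^ 3 +
      algebraMap ℂ K Λ.g₂ * val u (A 1) * val u (A 0) ^ 2 +
      algebraMap ℂ K Λ.g₃ * val u (A 0) ^ 3) := by
  unfold val WW
  simp only [map_mul, map_add, map_sub, map_pow, MvPolynomial.aeval_C, map_ofNat]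

theorem form_WW (h : ∃ e : ℕ, ∀ j, (A j).IsHomogeneous e) : IsForm (WW Λ A) := by
  obtain ⟨e, he⟩ := h
  have h4 : (4 * A 1 ^ 3 : MvPolynomial (Fin (n + 1)) ℂ).IsHomogeneous (0 + e * 3) := by
    have : (4 : MvPolynomial (Fin (n + 1)) ℂ) = MvPolynomial.C 4 := by
      rw [map_ofNat]
    rw [this]
    exact (MvPolynomial.isHomogeneous_C _ _).mul ((he 1).pow 3)
  have h1 : (A 2 ^ 2 * A 0).IsHomogeneous (e * 2 + e) := ((he 2).pow 2).mul (he 0)
  have h2 : (MvPolynomial.C Λ.g₂ * A 1 * A 0 ^ 2).IsHomogeneous (0 + e + e * 2) :=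
    ((MvPolynomial.isHomogeneous_C _ _).mul (he 1)).mul ((he 0).pow 2)
  have h3 : (MvPolynomial.C Λ.g₃ * A 0 ^ 3).IsHomogeneous (0 + e * 3) :=
    (MvPolynomial.isHomogeneous_C _ _).mul ((he 0).pow 3)
  have e1 : e * 2 + e = 0 + e * 3 := by ring
  have e2 : 0 + e + e * 2 = 0 + e * 3 := by ring
  rw [e1] at h1
  rw [e2] at h2
  exact ⟨e + (0 + e * 3), (he 0).mul (((h1.sub h4).add h2).add h3)⟩

theorem cone_WW (hA : WForms F Λ α A) {u : Fin (n + 1) → ℂ} (hu : u ∈ Cone F) :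
    val u (WW Λ A) = 0 := by
  rw [val_WW]
  obtain ⟨w, hw⟩ := Submodule.Quotient.mk_surjective _ (α u)
  by_cases h0 : α u = 0
  · rw [hA.zero u hu h0, zero_mul]
  · have hwl : w ∉ Λ.lattice := by
      intro h1
      apply h0
      rw [← hw]
      exact (Submodule.Quotient.mk_eq_zero _).2 h1
    obtain ⟨h1, h2⟩ := hA.eq u hu w hwl hw.symm
    have h3 := Λ.derivWeierstrassP_sq w hwl
    rw [h1, h2]
    have e1 : algebraMap ℂ ℂ Λ.g₂ = Λ.g₂ := rfl
    have e2 : algebraMap ℂ ℂ Λ.g₃ = Λ.g₃ := rfl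
    rw [e1, e2]
    linear_combination (val u (A 0)) ^ 4 * h3

end H550

/-- PF2-WREL: the Weierstrass equation. -/
theorem weier_rel {K : Type} [Field K] [Algebra ℂ K] {y : Fin (n + 1) → K} {d : ℕ}
    (hX : ProjVariety F d y) (hA : WForms F Λ α A) {f : Fin (n + 1) → L} (hf : OnVar ℂ y f)
    (h0 : val f (A 0) ≠ 0) :
    (val f (A 2) / val f (A 0)) ^ 2 = 4 * (val f (A 1) / val f (A 0)) ^ 3 -
      algebraMap ℂ L Λ.g₂ * (val f (A 1) / val f (A 0)) - algebraMap ℂ L Λ.g₃ := by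
  have hy0 : val y (H550.WW Λ A) = 0 := by
    by_contra hne
    obtain ⟨j, hj⟩ : ∃ j, y j ≠ 0 := by
      by_contra hcon
      push Not at hcon
      exact hX.sub.ne (funext hcon)
    have h1 : MvPolynomial.aeval y (H550.WW Λ A * MvPolynomial.X j) ≠ 0 := by
      rw [map_mul, MvPolynomial.aeval_X]
      exact mul_ne_zero hne hj
    obtain ⟨z0, hz1, hz2⟩ := specialise y _ h1
    rw [map_mul, MvPolynomial.aeval_X] at hz1
    have hz0 : z0 ∈ Cone F := by
      refine ⟨?_, fun i => hz2 _ (hX.sub.mem i)⟩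
      intro h2
      apply right_ne_zero_of_mul hz1
      rw [h2]
      rfl
    exact left_ne_zero_of_mul hz1 (H550.cone_WW hA hz0)
  have hf0 := hf.2 _ (H550.form_WW hA.form) hy0
  rw [H550.val_WW] at hf0
  have h2 := (mul_eq_zero.1 hf0).resolve_left h0
  have e1 : val f (A 2) / val f (A 0) * val f (A 0) = val f (A 2) := div_mul_cancel₀ _ h0
  have e2 : val f (A 1) / val f (A 0) * val f (A 0) = val f (A 1) := div_mul_cancel₀ _ h0
  rw [← e1, ← e2] at h2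
  have h3 : val f (A 0) ^ 3 ≠ 0 := pow_ne_zero _ h0
  have e3 : val f (A 2) / val f (A 0) * val f (A 0) / val f (A 0) = val f (A 2) / val f (A 0) := by
    rw [mul_div_assoc, div_self h0, mul_one]
  apply mul_left_cancel₀ h3
  linear_combination h2

end Pool.Agent.H918.PF

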