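import Pool.Agent.H918.G.Geo

/-! PROJECT PF: the map `α` is not constant. -/

set_option autoImplicit false

open Polynomial FF Pool.Agent.W603.LV Pool.Agent.W603.PV Pool.Agent.W602.GT Pool.Agent.N154.GG
open Filter Topology Metric
open Pool.Agent.W602.RG (HasValue PointedMaps)
open Pool.Agent.Y216 (OnVar)
open Pool.Agent.H918.SS (ProjVariety HasReduction)
open scoped Polynomial.Bivariate LinearAlgebra.Projectivization

namespace Pool.Agent.H918.PF

namespace H772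

open Pool.Agent.H918.SS (mapBy)

/-- The Weierstrass function is not constant near any point. -/
theorem wp_not_const (Λ : PeriodPair) (w a : ℂ) :
    ¬ ∀ᶠ z in 𝓝 w, Λ.weierstrassP z = a := by
  intro h
  have hf : Meromorphic (Λ.weierstrassP + fun _ => -a) :=
    fun x => (Λ.meromorphic_weierstrassP x).add (MeromorphicAt.const _ _)
  have h0 : meromorphicOrderAt (Λ.weierstrassP + fun _ => -a) 0 ≠ ⊤ := by
    have h1 : meromorphicOrderAt Λ.weierstrassP 0 < meromorphicOrderAt (fun _ : ℂ => -a) 0 := by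
      rw [Λ.order_weierstrassP 0 (zero_mem _)]
      refine lt_of_lt_of_le ?_ (AnalyticAt.meromorphicOrderAt_nonneg analyticAt_const)
      decide
    rw [meromorphicOrderAt_add_eq_left_of_lt (MeromorphicAt.const _ _) h1,
      Λ.order_weierstrassP 0 (zero_mem _)]
    decide
  have h2 := hf.exists_meromorphicOrderAt_ne_top_iff_forall.1 ⟨0, h0⟩ w
  apply h2
  rw [meromorphicOrderAt_eq_top_iff]
  refine (h.filter_mono nhdsWithin_le_nhds).mono fun z hz => ?_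
  change Λ.weierstrassP z + -a = 0
  rw [hz, add_neg_cancel]

theorem val_cont {m : ℕ} (G : MvPolynomial (Fin (m + 1)) ℂ) :
    Continuous fun v : Fin (m + 1) → ℂ => val v G := by
  have h : (fun v : Fin (m + 1) → ℂ => val v G) = fun v => MvPolynomial.eval v G := by
    funext v
    exact congrArg (fun φ : MvPolynomial (Fin (m + 1)) ℂ →+* ℂ => φ G)
      (MvPolynomial.coe_aeval_eq_eval v)
  rw [h]
  exact MvPolynomial.continuous_eval G

theorem val_smul' {m : ℕ} {G : MvPolynomial (Fin (m + 1)) ℂ} {d : ℕ}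
    (hG : G.IsHomogeneous d) (c : ℂ) (y : Fin (m + 1) → ℂ) :
    val (c • y) G = c ^ d * val y G := val_smul hG c y

theorem mapBy_smul' {m n : ℕ} {Q : Fin (n + 1) → MvPolynomial (Fin (m + 1)) ℂ} {e : ℕ}
    (hQ : ∀ j, (Q j).IsHomogeneous e) (c : ℂ) (x : Fin (m + 1) → ℂ) :
    mapBy Q (c • x) = c ^ e • mapBy Q x := by
  funext j
  exact val_smul' (hQ j) c x

theorem mapBy_cont {m n : ℕ} (Q : Fin (n + 1) → MvPolynomial (Fin (m + 1)) ℂ) :
    Continuous (mapBy Q) := continuous_pi fun j => val_cont (Q j)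

/-- Near every point outside of the fibres over `B` there are points in the fibres over the
neighbouring points at which a given form does not vanish. -/
theorem nearby {n : ℕ} {ι : Type} {F : ι → MvPolynomial (Fin (n + 1)) ℂ} {Λ : PeriodPair}
    {α : (Fin (n + 1) → ℂ) → ℂ ⧸ Λ.lattice} {B : Set (ℂ ⧸ Λ.lattice)} (hB : B.Finite)
    (hR : HasReduction F α B) {u₀ : Fin (n + 1) → ℂ} (hu₀ : u₀ ∈ Cone F) (huB : α u₀ ∉ B)
    {A : MvPolynomial (Fin (n + 1)) ℂ} (hA : IsForm A) (hA0 : val u₀ A ≠ 0) :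
    ∃ w₀ : ℂ, ∀ᶠ s in 𝓝 w₀, ∃ x ∈ Cone F, α x = Submodule.Quotient.mk s ∧ val x A ≠ 0 := by
  obtain ⟨n', ι', F2, α2, ρ, hF2, hα2, hiso, d, k, m, ι3, F3, α3, Q, κ, η, hred⟩ := hR
  obtain ⟨hρ1, hρ2⟩ := hiso.map u₀ hu₀ huB
  obtain ⟨x, hx, c, hc⟩ := hred.covering.onto (ρ u₀) hρ1 (by rw [hρ2]; exact huB)
  obtain ⟨hQx1, hQx2⟩ := hred.covering.map x hx
  have hc0 : c ≠ 0 := by
    rintro rfl
    rw [zero_smul] at hc
    exact hQx1.1 hc
  have hαx : α3 x = α u₀ := by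
    rw [← hQx2, hc, hα2.homog _ hρ1 c hc0, hρ2]
  obtain ⟨i, J, w, U, Ψ, hxi, hw, hU, hxU, hΨ, hΨ1, hΨ2⟩ :=
    hred.smooth x hx (by rw [hαx]; exact huB)
  obtain ⟨e1, he1⟩ := hred.covering.form
  obtain ⟨eA, heA⟩ := hA
  have hx0 : x = x i • Ψ (w x, fun k => x (J k) / x i) := hΨ2.self_of_nhds hx
  -- the point over the centre
  obtain ⟨hΨ3, -, -, hΨ4⟩ := hΨ1 _ hxU
  have hΨx : Ψ (w x, fun k => x (J k) / x i) = (x i)⁻¹ • x := by
    have h1 : (x i)⁻¹ • x = (x i)⁻¹ • (x i • Ψ (w x, fun k => x (J k) / x i)) :=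
      congrArg (fun v => (x i)⁻¹ • v) hx0
    rw [inv_smul_smul₀ hxi] at h1
    exact h1.symm
  have hwx : (Submodule.Quotient.mk (w x) : ℂ ⧸ Λ.lattice) = α u₀ := by
    rw [← hΨ4, hΨx, hred.hol.homog x hx _ (inv_ne_zero hxi), hαx]
  have hδ0 : mapBy Q (Ψ (w x, fun k => x (J k) / x i)) = ((x i)⁻¹ ^ e1 * c) • ρ u₀ := by
    rw [hΨx, mapBy_smul' he1, hc, smul_smul]
  obtain ⟨hQΨ1, hQΨ2⟩ := hred.covering.map _ hΨ3
  obtain ⟨xt, hxt, hxtα, -, W, ⟨e2, he2⟩, hW1, hW2⟩ :=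
    hiso.inverse (mapBy Q (Ψ (w x, fun k => x (J k) / x i))) hQΨ1
      (by rw [hQΨ2, hΨ4, hwx]; exact huB)
  have hval0 : val (mapBy W (mapBy Q (Ψ (w x, fun k => x (J k) / x i)))) A ≠ 0 := by
    obtain ⟨c2, hc2⟩ := hW2 u₀ hu₀ huB
    have h1 : mapBy W (mapBy Q (Ψ (w x, fun k => x (J k) / x i))) =
        (((x i)⁻¹ ^ e1 * c) ^ e2 * c2) • u₀ := by
      rw [hδ0, mapBy_smul' he2, hc2, smul_smul]
    rw [h1] at hW1
    have h2 : ((x i)⁻¹ ^ e1 * c) ^ e2 * c2 ≠ 0 := by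
      intro h
      rw [h, zero_smul] at hW1
      exact hW1 rfl
    rw [h1, val_smul' heA]
    exact mul_ne_zero (pow_ne_zero _ h2) hA0
  -- the neighbouring points
  have hpath : ContinuousAt (fun s : ℂ => (s, fun k => x (J k) / x i)) (w x) :=
    (Continuous.prodMk_left _).continuousAt
  have hev1 : ∀ᶠ s : ℂ in 𝓝 (w x), ((s, fun k => x (J k) / x i) : ℂ × (Fin d → ℂ)) ∈ U :=
    hpath.eventually_mem (hU.mem_nhds hxU)
  have hcont : ContinuousAt (fun s : ℂ => val (mapBy W (mapBy Q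
      (Ψ (s, fun k => x (J k) / x i)))) A) (w x) := by
    have h1 : ContinuousAt (fun s : ℂ => Ψ (s, fun k => x (J k) / x i)) (w x) :=
      ContinuousAt.comp (f := fun s : ℂ => ((s, fun k => x (J k) / x i) : ℂ × (Fin d → ℂ)))
        (g := Ψ) (hΨ _ hxU).continuousAt hpath
    exact ((val_cont A).comp ((mapBy_cont W).comp (mapBy_cont Q))).continuousAt.comp h1
  have hev2 : ∀ᶠ s : ℂ in 𝓝 (w x), val (mapBy W (mapBy Q
      (Ψ (s, fun k => x (J k) / x i)))) A ≠ 0 := hcont.eventually_ne hval0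
  have hev3 : ∀ᶠ s : ℂ in 𝓝 (w x), (Submodule.Quotient.mk s : ℂ ⧸ Λ.lattice) ∉ B := by
    have h1 : IsClosed {s : ℂ | (Submodule.Quotient.mk s : ℂ ⧸ Λ.lattice) ∈ B} := by
      have h2 : {s : ℂ | (Submodule.Quotient.mk s : ℂ ⧸ Λ.lattice) ∈ B} =
          ⋃ b ∈ B, {s : ℂ | (Submodule.Quotient.mk s : ℂ ⧸ Λ.lattice) = b} := by
        ext s
        simp
      rw [h2]
      refine hB.isClosed_biUnion fun b _ => ?_
      obtain ⟨t, rfl⟩ := Submodule.Quotient.mk_surjective _ b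
      have h3 : {s : ℂ | (Submodule.Quotient.mk s : ℂ ⧸ Λ.lattice) = Submodule.Quotient.mk t} =
          (fun s : ℂ => s - t) ⁻¹' (Λ.lattice : Set ℂ) := by
        ext s
        change (Submodule.Quotient.mk s : ℂ ⧸ Λ.lattice) = Submodule.Quotient.mk t ↔
          s - t ∈ Λ.lattice
        rw [Submodule.Quotient.eq]
      rw [h3]
      exact Λ.isClosed_lattice.preimage (continuous_id.sub continuous_const)
    refine h1.isOpen_compl.mem_nhds ?_
    change ¬ (Submodule.Quotient.mk (w x) : ℂ ⧸ Λ.lattice) ∈ B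
    rw [hwx]
    exact huB
  refine ⟨w x, ?_⟩
  filter_upwards [hev1, hev2, hev3] with s hs1 hs2 hs3
  obtain ⟨h1, -, -, h2⟩ := hΨ1 _ hs1
  obtain ⟨h3, h4⟩ := hred.covering.map _ h1
  have h5 : α2 (mapBy Q (Ψ (s, fun k => x (J k) / x i))) = Submodule.Quotient.mk s := by
    rw [h4, h2]
  obtain ⟨xs, hxs, hxsα, ⟨c3, hc3⟩, -⟩ := hiso.inverse _ h3 (by rw [h5]; exact hs3)
  refine ⟨xs, hxs, by rw [hxsα, h5], ?_⟩
  intro h6
  apply hs2
  obtain ⟨c4, hc4⟩ := hW2 xs hxs (by rw [hxsα, h5]; exact hs3)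
  rw [hc3, mapBy_smul' he2, hc4, smul_smul, val_smul' heA, h6, mul_zero]

end H772

open H772

variable {L : Type} [Field L] [Algebra ℂ L] {c : Place ℂ L} {ev : ℂ[X][Y] →ₐ[ℂ] L} {P : ℂ[X][Y]}
  {B₀ : Finset ℂ} {n : ℕ} {ι : Type} {F : ι → MvPolynomial (Fin (n + 1)) ℂ} {Λ : PeriodPair}
  {α : (Fin (n + 1) → ℂ) → ℂ ⧸ Λ.lattice} {A : Fin 3 → MvPolynomial (Fin (n + 1)) ℂ}
  {R R' : Fin (n + 1) → ℂ[X][Y]} {T T' : ℂ → ℂ → ℙ ℂ (Fin (n + 1) → ℂ)}

/-- PF2-TRANS: the map `α` is not constant. -/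
theorem alpha_trans {K : Type} [Field K] [Algebra ℂ K] {y : Fin (n + 1) → K} {d : ℕ}
    (hX : ProjVariety F d y) (hα : HolToTorus (Cone F) Λ α) (hA : WForms F Λ α A)
    (h0 : val y (A 0) ≠ 0) {B : Set (ℂ ⧸ Λ.lattice)} (hB : B.Finite) (hR : HasReduction F α B)
    {H : MvPolynomial (Fin (n + 1)) ℂ} (hH : IsForm H) (hy : val y H ≠ 0)
    (hHB : ∀ u ∈ Cone F, α u ∈ B → val u H = 0) :
    Transcendental ℂ (val y (A 1) / val y (A 0)) := by
  intro halg
  obtain ⟨a, ha⟩ : ∃ a : ℂ, algebraMap ℂ K a = val y (A 1) / val y (A 0) := by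
    have h1 := IsAlgClosed.degree_eq_one_of_irreducible ℂ (minpoly.irreducible halg.isIntegral)
    exact minpoly.mem_range_of_degree_eq_one ℂ _ h1
  obtain ⟨e, he⟩ := hA.form
  -- the relation on the whole variety
  have hrel : ∀ u ∈ Cone F, val u (A 1) = a * val u (A 0) := by
    intro u hu
    have h1 : IsForm (A 1 - MvPolynomial.C a * A 0) := by
      refine ⟨e, (he 1).sub ?_⟩
      have h2 := (MvPolynomial.isHomogeneous_C (Fin (n + 1)) a).mul (he 0)
      rwa [zero_add] at h2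
    have h2 : val y (A 1 - MvPolynomial.C a * A 0) = 0 := by
      have h3 : val y (A 1 - MvPolynomial.C a * A 0) =
          val y (A 1) - algebraMap ℂ K a * val y (A 0) := by
        unfold val
        rw [map_sub, map_mul, MvPolynomial.aeval_C]
      rw [h3, ha, div_mul_cancel₀ _ h0, sub_self]
    have h4 := (hX.irred hu).2 _ h1 h2
    have h5 : val u (A 1 - MvPolynomial.C a * A 0) = val u (A 1) - a * val u (A 0) := by
      unfold val
      rw [map_sub, map_mul, MvPolynomial.aeval_C]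
      rfl
    rw [h5, sub_eq_zero] at h4
    exact h4
  -- a point
  obtain ⟨j, hj⟩ : ∃ j, y j ≠ 0 := by
    by_contra hcon
    push Not at hcon
    exact hX.sub.ne (funext hcon)
  obtain ⟨u₀, hu1, hu2⟩ := specialise (k := ℂ) y (A 0 * H * MvPolynomial.X j) (by
    rw [map_mul, map_mul, MvPolynomial.aeval_X]
    exact mul_ne_zero (mul_ne_zero h0 hy) hj)
  rw [map_mul, map_mul, MvPolynomial.aeval_X] at hu1
  have hu0 : u₀ ∈ Cone F := by
    refine ⟨?_, fun i => hu2 _ (hX.sub.mem i)⟩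
    intro h
    apply right_ne_zero_of_mul hu1
    rw [h]
    rfl
  have huA : val u₀ (A 0) ≠ 0 := left_ne_zero_of_mul (left_ne_zero_of_mul hu1)
  have huH : val u₀ H ≠ 0 := right_ne_zero_of_mul (left_ne_zero_of_mul hu1)
  have huB : α u₀ ∉ B := fun h => huH (hHB u₀ hu0 h)
  obtain ⟨w₀, hw₀⟩ := nearby hB hR hu0 huB ⟨e, he 0⟩ huA
  apply wp_not_const Λ w₀ a
  refine hw₀.mono fun s hs => ?_
  obtain ⟨x, hx, hxs, hxA⟩ := hs
  have hsΛ : s ∉ Λ.lattice := by
    intro h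
    apply hxA
    apply hA.zero x hx
    rw [hxs]
    exact (Submodule.Quotient.mk_eq_zero _).2 h
  have h1 := (hA.eq x hx s hsΛ hxs).1
  rw [hrel x hx] at h1
  exact (mul_right_cancel₀ hxA h1).symm

end Pool.Agent.H918.PF
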