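import Mathlib
import Pool.Graph.R_seed8.W603.LV.Ex
import Pool.Graph.R_seed8.Helper386.D5V.Helper386_FF_Riemann

/-!
# PROJECT PF (helper918): pointed maps from curves to surfaces over elliptic curves

Definitions: plane models of function fields of curves, branches, maps to elliptic curves.

The polynomials `R : ℂ[X][Y]` are polynomials in `Y` with coefficients in `ℂ[Z]` (`Z = C X`), and
`evalEval z y R` is the value at `Z = z`, `Y = y`.
-/

set_option autoImplicit false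

open Polynomial FF Pool.Agent.W603.LV
open scoped Polynomial.Bivariate

namespace Pool.Agent.H918.PF

/-- A plane model of the function field `L` of a curve: `ev` maps the polynomials in `Z` and `Y` to
`L`, the only pole of `Z` is the place `c`, and `P` is the minimal polynomial of `Y` over `ℂ[Z]`. -/
structure Model {L : Type} [Field L] [Algebra ℂ L] (c : Place ℂ L) (ev : ℂ[X][Y] →ₐ[ℂ] L)
    (P : ℂ[X][Y]) : Prop where
  monic : P.Monic
  pos : 0 < P.natDegree
  ker : ∀ R : ℂ[X][Y], ev R = 0 ↔ P ∣ R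
  frac : ∀ h : L, ∃ (R : ℂ[X][Y]) (S : ℂ[X]), S ≠ 0 ∧ h * ev (C S) = ev R
  reg : ∀ Q : Place ℂ L, Q ≠ c → Ge Q 0 (ev (C X))
  pole : c.ord (ev (C X)) < 0

/-- The polynomial `P(z, ·)` is separable for all `z` outside of the finite set `B₀`. -/
def SepOff (P : ℂ[X][Y]) (B₀ : Finset ℂ) : Prop :=
  ∀ z : ℂ, z ∉ B₀ → (P.map (evalRingHom z)).Separable

/-- `g` is a holomorphic root function of `P` on the open set `U`. -/
structure Branch (P : ℂ[X][Y]) (U : Set ℂ) (g : ℂ → ℂ) : Prop where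
  diff : DifferentiableOn ℂ g U
  root : ∀ z ∈ U, evalEval z (g z) P = 0

/-- A map `τ` from the points `(z, y)` of the curve `P = 0` to the elliptic curve `ℂ / Λ`, holomorphic
along the branches, whose derivative with respect to `z` is the rational function `η`, and which tends
to `u₀` at infinity. -/
structure Ell {L : Type} [Field L] [Algebra ℂ L] (ev : ℂ[X][Y] →ₐ[ℂ] L) (P : ℂ[X][Y])
    (B₀ : Finset ℂ) (Λ : PeriodPair) (u₀ : ℂ) (η : L) (τ : ℂ → ℂ → ℂ ⧸ Λ.lattice) : Prop where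
  loc : ∀ (U : Set ℂ) (g : ℂ → ℂ), IsOpen U → (∀ z ∈ U, z ∉ B₀) → Branch P U g → ∀ z ∈ U,
    ∃ β : ℂ → ℂ, AnalyticAt ℂ β z ∧ ∀ᶠ w in nhds z, τ w (g w) = Submodule.Quotient.mk (β w) ∧
      ∀ (R : ℂ[X][Y]) (S : ℂ[X]), η * ev (C S) = ev R →
        S.eval w * deriv β w = evalEval w (g w) R
  inf : ∀ ε : ℝ, 0 < ε → ∃ r : ℝ, ∀ z y : ℂ, r ≤ ‖z‖ → z ∉ B₀ → evalEval z y P = 0 →
    ∃ w : ℂ, ‖w‖ ≤ ε ∧ τ z y = Submodule.Quotient.mk (u₀ + w)

end Pool.Agent.H918.PF
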