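import Pool.Agent.H918.G.Geo
import Pool.Agent.H918.G.GlueLift
import Pool.Agent.H918.D.Sab
import Pool.Agent.H918.E.KobM

/-! PF2-DER: near the centre of the holomorphic discs through a point, the derivatives of their
compositions with the map to the elliptic curve are bounded uniformly. -/

set_option autoImplicit false

namespace Pool.Agent.H918.PF.H59

open Filter Topology Metric Set LinearAlgebra.Projectivization
open FF Pool.Agent.Y190.OP Pool.Agent.W602.GT Pool.Agent.N154.GG Pool.Agent.H918.SS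

/-- the cost of a short step from the centre -/
theorem cost_le {t : ℂ} (ht : ‖t‖ ≤ 1 / 2) : Pool.Agent.Helper206.cost 0 t ≤ 4 * ‖t‖ := by
  have h0 := norm_nonneg t
  have h1 : Pool.Agent.Helper206.cost 0 t = Real.log ((1 + ‖t‖) / (1 - ‖t‖)) := by
    unfold Pool.Agent.Helper206.cost
    rw [map_zero, zero_mul, sub_zero, zero_sub, norm_neg, norm_one, div_one]
  rw [h1]
  refine (Real.log_le_sub_one_of_pos (by apply div_pos <;> linarith)).trans ?_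
  rw [sub_le_iff_le_add, div_le_iff₀ (by linarith)]
  nlinarith

/-- a local form of the map to the torus -/
theorem loc_bound {N : ℕ} {T : Set (Mat N)} {Λ : AddSubgroup ℂ} {a : Mat N → ℂ} (hT : TD T Λ a)
    {M0 : Mat N} (hM0 : M0 ∈ T) : ∃ (δ : ℝ) (w : Mat N → ℂ), 0 < δ ∧
      (∀ M ∈ T, ‖M - M0‖ < δ → a M - w M ∈ Λ) ∧ (∀ M, ‖M - M0‖ < δ → ‖w M - w M0‖ ≤ 1) ∧
      ∀ (U : Set ℂ) (P : ℂ → Mat N) (z : ℂ), IsOpen U → z ∈ U → HolP U P → ‖P z - M0‖ < δ →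
        DifferentiableAt ℂ (fun t => w (P t)) z := by
  obtain ⟨O, w, hO, hM, hc, ha, hd⟩ := hT.loc M0 hM0
  have h1 : ∀ᶠ M in 𝓝 M0, M ∈ O ∧ dist (w M) (w M0) < 1 :=
    (show ∀ᶠ M in 𝓝 M0, M ∈ O from hO.mem_nhds hM).and (Metric.tendsto_nhds.1 (hc M0 hM).continuousAt.tendsto 1 one_pos)
  obtain ⟨δ, hδ, h2⟩ := Metric.mem_nhds_iff.1 h1
  have h3 : ∀ M, ‖M - M0‖ < δ → M ∈ O ∧ dist (w M) (w M0) < 1 := fun M h =>
    h2 (by rwa [mem_ball, dist_eq_norm])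
  refine ⟨δ, w, hδ, fun M hMT h => ha M ⟨(h3 M h).1, hMT⟩, fun M h => ?_, fun U P z hU hz hP h =>
    hd U P z hU hz hP (h3 _ h).1⟩
  rw [← dist_eq_norm]
  exact (h3 M h).2.le

variable {m n : ℕ} {ι ι' : Type} {F : ι → MvPolynomial (Fin (n + 1)) ℂ}
  {F1 : ι' → MvPolynomial (Fin (m + 1)) ℂ} {L : PeriodPair}
  {α : (Fin (n + 1) → ℂ) → ℂ ⧸ L.lattice} {α1 : (Fin (m + 1) → ℂ) → ℂ ⧸ L.lattice}
  {B : Set (ℂ ⧸ L.lattice)} {ρ : (Fin (n + 1) → ℂ) → Fin (m + 1) → ℂ}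

/-- the image of the point is not on the curves over the identity (from the proof of kobM) -/
theorem not_curve (hF : ∀ i, IsForm (F i)) (hα : HolToTorus (Cone F) L α) (hB : B.Finite)
    (hF1 : ∀ i, IsForm (F1 i)) (hα1 : HolToTorus (Cone F1) L α1) (hI : IsoOff F F1 α α1 B ρ)
    {p : ℙ ℂ (Fin (n + 1) → ℂ)} (hp : p.rep ∈ Cone F) (hpB : α p.rep ∉ B)
    (hpS : ∀ g, HolIn F g → (∀ z, α (g z).rep = Submodule.Quotient.mk z) → ∀ z, p ≠ g z)
    {p₁ : ℙ ℂ (Fin (m + 1) → ℂ)} {c : ℂ} (hc : p₁.rep = c • ρ p.rep) :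
    ∀ g, HolIn F1 g → (∀ z, α1 (g z).rep = Submodule.Quotient.mk z) → ∀ z, p₁ ≠ g z := by
  rintro g hg hgα z0 rfl
  obtain ⟨σ, hσmap, hσinv, hσreg⟩ := H662.exists_inv hI
  have hρp := hI.map _ hp hpB
  have hc0 : c ≠ 0 := H662.ne_zero_of_rep hc
  have hgood : α1 (g z0).rep ∉ B := by
    rw [hc, hα1.homog _ hρp.1 c hc0, hρp.2]
    exact hpB
  obtain ⟨g', hg1, hg2, hg3⟩ := push_curve hF1 hF hα1 hα hB hσmap hσreg isOpen_univ
    isPreconnected_univ (fun z _ => hg.1 z) (fun z _ => hg.2 z) (mem_univ z0) hgood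
  refine hpS g' ⟨fun z => hg1 z (mem_univ z), fun z => (hg2 z (mem_univ z)).1⟩
    (fun z => by rw [(hg2 z (mem_univ z)).2, hgα z]) z0 ?_
  obtain ⟨c', hc'⟩ := hg3 z0 (mem_univ z0) hgood
  have hcone := hg.2 z0
  obtain ⟨c'', hc''⟩ := hσinv _ hcone hgood
  obtain ⟨h3, h4⟩ := hσmap _ hcone hgood
  have hc0' := H662.ne_zero_of_rep hc'
  have hc0'' := H662.ne_zero_of_rep hc''
  obtain ⟨b, hb⟩ := H662.inj_rho hI hp hpB h3 (by rw [h4]; exact hgood) (c := c⁻¹ * c'')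
    (mul_ne_zero (inv_ne_zero hc0) hc0'')
    (by rw [mul_smul, ← hc'', hc, smul_smul, inv_mul_cancel₀ hc0, one_smul])
  refine H662.proj_eq (c := b * c'⁻¹) ?_
  rw [hc', smul_smul, mul_assoc, inv_mul_cancel₀ hc0', mul_one]
  exact hb

theorem main (hF : ∀ i, IsForm (F i)) (hα : HolToTorus (Cone F) L α) (hB : B.Finite)
    (h : HasReduction F α B) {p : ℙ ℂ (Fin (n + 1) → ℂ)} (hp : p.rep ∈ Cone F)
    (hpB : α p.rep ∉ B)
    (hpS : ∀ g, HolIn F g → (∀ z, α (g z).rep = Submodule.Quotient.mk z) → ∀ z, p ≠ g z) :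
    ∃ κ K : ℝ, 0 < κ ∧ κ ≤ 1 ∧ 0 ≤ K ∧ ∀ f : ℂ → ℙ ℂ (Fin (n + 1) → ℂ), HolMapOn (ball 0 1) f →
      (∀ z ∈ ball (0 : ℂ) 1, (f z).rep ∈ Cone F) → f 0 = p → ∀ t ∈ ball (0 : ℂ) κ,
        ∀ β : ℂ → ℂ, AnalyticAt ℂ β t →
          (∀ᶠ w in 𝓝 t, α (f w).rep = Submodule.Quotient.mk (β w)) → ‖deriv β t‖ ≤ K := by
  classical
  obtain ⟨n1, ι1, F1, α1, ρ, hF1, hα1, hI, d1, k1, m1, ι', F', α', Q, κ, η, hS⟩ := h
  obtain ⟨hR, hf⟩ := red_rig hF1 hα1 hB hS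
  obtain ⟨hρp, hαp⟩ := hI.map _ hp hpB
  obtain ⟨c, hc⟩ := Projectivization.exists_smul_eq_mk_rep ℂ (ρ p.rep) hρp.1
  obtain ⟨p1, hp1⟩ : ∃ p1, p1 = Projectivization.mk ℂ (ρ p.rep) hρp.1 := ⟨_, rfl⟩
  rw [← hp1] at hc
  have hc' : p1.rep = (c : ℂ) • ρ p.rep := hc.symm
  have hPhi1 : Phi p1.rep = Phi (ρ p.rep) := by
    rw [hc']
    exact Phi_smul c.ne_zero _
  have hp1F : p1.rep ∈ Cone F1 := by
    rw [hc']
    exact cone_smulF hF1 hρp c.ne_zero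
  have hp1B : α1 p1.rep ∉ B := by
    rw [hc', hα1.homog _ hρp _ c.ne_zero, hαp]
    exact hpB
  obtain ⟨A, r, hA, hr, -, hlip⟩ := kobX hF1 hR hα1 hB hf hp1F hp1B
    (not_curve hF hα hB hF1 hα1 hI hp hpB hpS hc')
  have hT := tdF hF1 hα1
  obtain ⟨δ, w, hδ, hw1, hw2, hw3⟩ := loc_bound hT (mem_TF hp1F)
  -- the radius
  obtain ⟨κ', hκ'⟩ : ∃ κ' : ℝ, κ' = min (1 / 2) (min r δ / (8 * A)) := ⟨_, rfl⟩
  have hrδ : 0 < min r δ := lt_min hr hδ
  have hκ0 : 0 < κ' := by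
    rw [hκ']
    exact lt_min (by norm_num) (by positivity)
  have hκ2 : κ' ≤ 1 / 2 := by
    rw [hκ']
    exact min_le_left _ _
  have hκA : A * (4 * κ') < min r δ := by
    have h1 : κ' ≤ min r δ / (8 * A) := by
      rw [hκ']
      exact min_le_right _ _
    rw [le_div_iff₀ (by positivity)] at h1
    linarith
  refine ⟨κ' / 2, 4 / κ', by positivity, by linarith, by positivity, fun f hfh hfF hf0 t ht β hβ hβe => ?_⟩
  obtain ⟨g, hg1, hg2, hg3⟩ := push_curve hF hF1 hα hα1 hB hI.map hI.regular isOpen_ball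
    (convex_ball (0 : ℂ) 1).isPreconnected hfh hfF (mem_ball_self one_pos) (by rw [hf0]; exact hpB)
  have hP : HolP (ball 0 1) fun z => Phi (g z).rep := holP_of_on hg1
  have hPT : ∀ z ∈ ball (0 : ℂ) 1, Phi (g z).rep ∈ TF F1 := fun z hz => mem_TF (hg2 z hz).1
  have hP0 : Phi (g 0).rep = Phi p1.rep := by
    obtain ⟨c1, hc1⟩ := hg3 0 (mem_ball_self one_pos) (by rw [hf0]; exact hpB)
    rw [hf0] at hc1
    rw [hc1, Phi_smul (H662.ne_zero_of_rep hc1), hPhi1]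
  have hnear : ∀ z ∈ ball (0 : ℂ) κ', z ∈ ball (0 : ℂ) 1 ∧ ‖Phi (g z).rep - Phi p1.rep‖ < δ := by
    intro z hz
    rw [mem_ball_zero_iff] at hz
    have hz1 : z ∈ ball (0 : ℂ) 1 := by
      rw [mem_ball_zero_iff]
      linarith
    refine ⟨hz1, ?_⟩
    have h1 := hlip _ hP hPT 0 (mem_ball_self one_pos) z hz1
    simp only [hP0, sub_self, norm_zero] at h1
    rw [min_eq_left hr.le, dist_zero_right, Real.norm_eq_abs,
      abs_of_nonneg (le_min (norm_nonneg _) hr.le)] at h1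
    have h2 : A * Pool.Agent.Helper206.cost 0 z ≤ A * (4 * κ') := by
      refine mul_le_mul_of_nonneg_left ((cost_le (by linarith)).trans ?_) hA.le
      linarith
    have h3 : min ‖Phi (g z).rep - Phi p1.rep‖ r < min r δ := (h1.trans h2).trans_lt hκA
    have h4 : ¬ r ≤ ‖Phi (g z).rep - Phi p1.rep‖ := by
      intro h5
      rw [min_eq_right h5] at h3
      exact absurd (min_le_left r δ) (not_le.2 h3)
    rw [min_eq_left (not_le.1 h4).le] at h3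
    exact h3.trans_le (min_le_right _ _)
  rw [mem_ball_zero_iff] at ht
  have htκ : t ∈ ball (0 : ℂ) κ' := by
    rw [mem_ball_zero_iff]
    linarith
  -- the lift
  obtain ⟨φ, hφ⟩ : ∃ φ : ℂ → ℂ, φ = fun z => w (Phi (g z).rep) := ⟨_, rfl⟩
  have hφd : DifferentiableOn ℂ φ (ball 0 κ') := fun z hz => by
    obtain ⟨h1, h2⟩ := hnear z hz
    rw [hφ]
    exact (hw3 (ball 0 1) (fun z => Phi (g z).rep) z isOpen_ball h1 hP h2).differentiableWithinAt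
  have hφa : AnalyticAt ℂ φ t := hφd.analyticAt (isOpen_ball.mem_nhds htκ)
  have hφe : ∀ᶠ z in 𝓝 t, α (f z).rep = Submodule.Quotient.mk (φ z) := by
    filter_upwards [isOpen_ball.mem_nhds htκ] with z hz
    obtain ⟨h1, h2⟩ := hnear z hz
    obtain ⟨h3, h4⟩ := hg2 z h1
    rw [← h4, ← aM_Phi hα1 h3, hφ]
    exact (Submodule.Quotient.eq _).2 (hw1 _ (hPT z h1) h2)
  rw [Pool.Agent.H918.PF.H795.deriv_eq L (t := fun z => α (f z).rep) hβ hφa hβe hφe]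
  have h5 : deriv φ t = deriv (fun z => φ z - w (Phi p1.rep)) t := by
    rw [deriv_sub_const]
  rw [h5]
  have hsub : closedBall t (κ' / 4) ⊆ ball (0 : ℂ) κ' := by
    intro z hz
    rw [mem_closedBall, dist_eq_norm] at hz
    rw [mem_ball_zero_iff]
    have h6 := norm_add_le (z - t) t
    rw [sub_add_cancel] at h6
    linarith
  have h6 : DiffContOnCl ℂ (fun z => φ z - w (Phi p1.rep)) (ball t (κ' / 4)) := by
    refine DifferentiableOn.diffContOnCl ?_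
    rw [closure_ball _ (by positivity)]
    exact (hφd.mono hsub).sub_const _
  have h7 := Complex.norm_deriv_le_of_forall_mem_sphere_norm_le (C := 1) (by positivity) h6
    (fun z hz => by
      rw [hφ]
      exact hw2 _ (hnear z (hsub (sphere_subset_closedBall hz))).2)
  refine h7.trans (le_of_eq ?_)
  rw [one_div_div]

end Pool.Agent.H918.PF.H59

open Polynomial FF Pool.Agent.W603.LV Pool.Agent.W603.PV Pool.Agent.W602.GT Pool.Agent.N154.GG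
open Filter Topology Metric
open Pool.Agent.W602.RG (HasValue PointedMaps)
open Pool.Agent.Y216 (OnVar)
open Pool.Agent.H918.SS (ProjVariety HasReduction)
open scoped Polynomial.Bivariate LinearAlgebra.Projectivization

namespace Pool.Agent.H918.PF

variable {L : Type} [Field L] [Algebra ℂ L] {c : Place ℂ L} {ev : ℂ[X][Y] →ₐ[ℂ] L} {P : ℂ[X][Y]}
  {B₀ : Finset ℂ} {n : ℕ} {ι : Type} {F : ι → MvPolynomial (Fin (n + 1)) ℂ} {Λ : PeriodPair}
  {α : (Fin (n + 1) → ℂ) → ℂ ⧸ Λ.lattice} {A : Fin 3 → MvPolynomial (Fin (n + 1)) ℂ}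
  {R R' : Fin (n + 1) → ℂ[X][Y]} {T T' : ℂ → ℂ → ℙ ℂ (Fin (n + 1) → ℂ)}

/-- PF2-DER: near the centre of the holomorphic discs through the point `p`, the derivatives of their
compositions with the map to the elliptic curve are bounded uniformly. -/
theorem disc_deriv (hF : ∀ i, IsForm (F i)) (hα : HolToTorus (Cone F) Λ α)
    {B : Set (ℂ ⧸ Λ.lattice)} (hB : B.Finite) (h : HasReduction F α B)
    {p : ℙ ℂ (Fin (n + 1) → ℂ)} (hp : p.rep ∈ Cone F) (hpB : α p.rep ∉ B)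
    (hpS : ∀ g, HolIn F g → (∀ z, α (g z).rep = Submodule.Quotient.mk z) → ∀ z, p ≠ g z) :
    ∃ κ K : ℝ, 0 < κ ∧ κ ≤ 1 ∧ 0 ≤ K ∧ ∀ f : ℂ → ℙ ℂ (Fin (n + 1) → ℂ), HolMapOn (ball 0 1) f →
      (∀ z ∈ ball (0 : ℂ) 1, (f z).rep ∈ Cone F) → f 0 = p → ∀ t ∈ ball (0 : ℂ) κ,
        ∀ β : ℂ → ℂ, AnalyticAt ℂ β t →
          (∀ᶠ w in 𝓝 t, α (f w).rep = Submodule.Quotient.mk (β w)) → ‖deriv β t‖ ≤ K :=
  H59.main hF hα hB h hp hpB hpS

end Pool.Agent.H918.PF
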