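import Pool.Agent.H918.G.Defs

/-! PROJECT PF (helper918), PF-VFIN (helper139). -/

set_option autoImplicit false

open Polynomial FF Pool.Agent.W603.LV Filter Topology Metric
open scoped Polynomial.Bivariate

namespace Pool.Agent.H918.PF

variable {L : Type} [Field L] [Algebra ℂ L] {c : Place ℂ L} {ev : ℂ[X][Y] →ₐ[ℂ] L} {P : ℂ[X][Y]}

/-- PF-VFIN: the space of the functions `η` such that the differential form `η dZ` has no poles is of
finite dimension (`LL` is of finite dimension; `vo Q D` is not zero for finitely many `Q` only). -/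
theorem exists_basis [IsFF ℂ L] {D : Derivation ℂ L L} (hD : D ≠ 0) :
    ∃ (g : ℕ) (e : Fin g → L), (∀ i Q, Ge Q (vo Q D) (e i)) ∧ LinearIndependent ℂ e ∧
      ∀ η : L, (∀ Q, Ge Q (vo Q D) η) → ∃ a : Fin g → ℂ, η = ∑ i, a i • e i := by
  classical
  have hfin : (Function.support fun Q : Place ℂ L => - vo Q D).Finite := by
    refine (vo_finite (k := ℂ) (K := L) hD).subset ?_
    intro Q hQ h
    exact hQ (neg_eq_zero.2 h)
  obtain ⟨Dv, hDv⟩ : ∃ Dv : Place ℂ L →₀ ℤ, ∀ Q, Dv Q = - vo Q D :=
    ⟨Finsupp.ofSupportFinite (fun Q => - vo Q D) hfin, fun Q => rfl⟩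
  have hmem : ∀ f : L, f ∈ LL Dv ↔ ∀ Q, Ge Q (vo Q D) f := by
    intro f
    rw [mem_LL]
    constructor
    · rintro (h | h) Q
      · exact Or.inl h
      · have h1 := h Q
        rw [hDv, neg_neg] at h1
        exact Or.inr h1
    · intro h
      by_cases h0 : f = 0
      · exact Or.inl h0
      · refine Or.inr fun Q => ?_
        rw [hDv, neg_neg]
        exact (h Q).resolve_left h0
  let b := Module.finBasis ℂ (LL Dv)
  refine ⟨_, fun i => (b i : L), ?_, ?_, ?_⟩
  · intro i
    exact (hmem _).1 (b i).2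
  · exact b.linearIndependent.map' (LL Dv).subtype (Submodule.ker_subtype _)
  · intro η hη
    refine ⟨fun i => b.repr ⟨η, (hmem η).2 hη⟩ i, ?_⟩
    have h1 := congrArg (fun x : LL Dv => (x : L)) (b.sum_repr ⟨η, (hmem η).2 hη⟩)
    simp only [Submodule.coe_sum, Submodule.coe_smul] at h1
    exact h1.symm

end Pool.Agent.H918.PF
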