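import Pool.Agent.H918.G.Geo
import Pool.Agent.H918.G.BranchUnique
import Pool.Agent.H918.G.ExistsBranch
import Pool.Agent.H918.G.ZerosFinite

/-! PROJECT PF, task PG-PT (helper117): the map given by the coordinates `R k`. -/

set_option autoImplicit false

open Polynomial FF Pool.Agent.W603.LV Pool.Agent.W602.GT Pool.Agent.N154.GG
open Filter Topology Metric
open scoped Polynomial.Bivariate LinearAlgebra.Projectivization

namespace Pool.Agent.H918.PF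

namespace H117

/-- `p` is the value at the point `(z, y)` of the map with the coordinates `R k`. -/
def IsVal {n : ℕ} (P : ℂ[X][Y]) (B₀ : Finset ℂ) (R : Fin (n + 1) → ℂ[X][Y]) (z y : ℂ)
    (p : ℙ ℂ (Fin (n + 1) → ℂ)) : Prop :=
  ∃ (U : Set ℂ) (g : ℂ → ℂ) (v : ℂ → Fin (n + 1) → ℂ) (m : ℕ), IsOpen U ∧ z ∈ U ∧
    (∀ w ∈ U, w ∉ B₀) ∧ Branch P U g ∧ g z = y ∧ AnalyticAt ℂ v z ∧
    (∀ᶠ w in 𝓝 z, vec R w (g w) = (w - z) ^ m • v w) ∧
    ∃ h : v z ≠ 0, p = Projectivization.mk ℂ (v z) h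

theorem analyticAt_evalEval {g : ℂ → ℂ} {z : ℂ} (hg : AnalyticAt ℂ g z) (Q : ℂ[X][Y]) :
    AnalyticAt ℂ (fun w => evalEval w (g w) Q) z := by
  have h1 : (fun w => evalEval w (g w) Q)
      = fun w => ∑ n ∈ Finset.range (Q.natDegree + 1), (Q.coeff n).eval w * g w ^ n := by
    funext w
    exact H348.evalEval_sum Q w (g w)
  rw [h1]
  apply Finset.analyticAt_fun_sum
  intro n _
  apply AnalyticAt.mul
  · exact (Q.coeff n).differentiable.analyticAt z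
  · exact hg.pow n

theorem analyticAt_vec {n : ℕ} (R : Fin (n + 1) → ℂ[X][Y]) {g : ℂ → ℂ} {z : ℂ}
    (hg : AnalyticAt ℂ g z) : AnalyticAt ℂ (fun w => vec R w (g w)) z :=
  AnalyticAt.pi fun k => analyticAt_evalEval hg (R k)

variable {L : Type} [Field L] [Algebra ℂ L] {c : Place ℂ L} {ev : ℂ[X][Y] →ₐ[ℂ] L} {P : ℂ[X][Y]}
  {B₀ : Finset ℂ} {n : ℕ} {R : Fin (n + 1) → ℂ[X][Y]}

theorem branch_analyticAt {U : Set ℂ} {g : ℂ → ℂ} (hU : IsOpen U) (hg : Branch P U g) {z : ℂ}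
    (hz : z ∈ U) : AnalyticAt ℂ g z :=
  hg.diff.analyticAt (hU.mem_nhds hz)

/-- the factorisation along a branch -/
theorem exists_fac (hM : Model c ev P) {k : Fin (n + 1)} (hk : ev (R k) ≠ 0) {U : Set ℂ}
    {g : ℂ → ℂ} (hU : IsOpen U) (hg : Branch P U g) {z : ℂ} (hz : z ∈ U) :
    ∃ (m : ℕ) (v : ℂ → Fin (n + 1) → ℂ), AnalyticAt ℂ v z ∧ v z ≠ 0 ∧
      ∀ᶠ w in 𝓝 z, vec R w (g w) = (w - z) ^ m • v w := by
  have h1 := analyticAt_vec R (branch_analyticAt hU hg hz)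
  refine (AnalyticAt.exists_eventuallyEq_pow_smul_nonzero_iff h1).2 fun h2 => ?_
  obtain ⟨s, hs, hs'⟩ := zeros_finite hM hk
  have h3 : {w : ℂ | s.eval w = 0} ∈ 𝓝 z := by
    filter_upwards [h2, hU.mem_nhds hz] with w h4 h5
    have h6 : vec R w (g w) k = 0 := by rw [h4]; rfl
    exact hs' w (g w) (hg.root w h5) h6
  have h4 : {w : ℂ | s.eval w = 0}.Infinite := infinite_of_mem_nhds z h3
  exact hs (Polynomial.eq_zero_of_infinite_isRoot s h4)

theorem fac_unique {z : ℂ} {f f' v v' : ℂ → Fin (n + 1) → ℂ} {m m' : ℕ} (hv : ContinuousAt v z)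
    (hv' : ContinuousAt v' z) (h0 : v z ≠ 0) (hf : ∀ᶠ w in 𝓝 z, f w = (w - z) ^ m • v w)
    (hf' : ∀ᶠ w in 𝓝 z, f' w = (w - z) ^ m' • v' w) (hff : ∀ᶠ w in 𝓝 z, f w = f' w)
    (hm : m ≤ m') : v z = v' z := by
  have h1 : ∀ᶠ w in 𝓝[≠] z, v w = (w - z) ^ (m' - m) • v' w := by
    filter_upwards [nhdsWithin_le_nhds hf, nhdsWithin_le_nhds hf', nhdsWithin_le_nhds hff,
      self_mem_nhdsWithin] with w h2 h3 h4 h5
    have h6 : (w - z) ^ m ≠ 0 := pow_ne_zero _ (sub_ne_zero.2 h5)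
    have h7 : (w - z) ^ m • v w = (w - z) ^ m • ((w - z) ^ (m' - m) • v' w) := by
      rw [← h2, h4, h3, smul_smul, ← pow_add, Nat.add_sub_cancel' hm]
    exact smul_right_injective _ h6 h7
  have h2 : Tendsto v (𝓝[≠] z) (𝓝 (v z)) := hv.tendsto.mono_left nhdsWithin_le_nhds
  have h3 : ContinuousAt (fun w => (w - z) ^ (m' - m) • v' w) z :=
    ((continuousAt_id.sub continuousAt_const).pow _).smul hv'
  have h4 : Tendsto (fun w => (w - z) ^ (m' - m) • v' w) (𝓝[≠] z)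
      (𝓝 ((z - z) ^ (m' - m) • v' z)) := h3.tendsto.mono_left nhdsWithin_le_nhds
  have h5 : v z = (z - z) ^ (m' - m) • v' z :=
    tendsto_nhds_unique (h2.congr' h1) h4
  rcases Nat.eq_zero_or_pos (m' - m) with h6 | h6
  · rw [h6, pow_zero, one_smul] at h5
    exact h5
  · rw [sub_self, zero_pow h6.ne', zero_smul] at h5
    exact absurd h5 h0

theorem isVal_unique (hs : SepOff P B₀) {z y : ℂ} {p p' : ℙ ℂ (Fin (n + 1) → ℂ)}
    (h : IsVal P B₀ R z y p) (h' : IsVal P B₀ R z y p') : p = p' := by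
  obtain ⟨U, g, v, m, hU, hz, hUB, hg, hgz, hv, hf, h0, rfl⟩ := h
  obtain ⟨U', g', v', m', hU', hz', hUB', hg', hgz', hv', hf', h0', rfl⟩ := h'
  have hb : Branch P (U ∩ U') g := ⟨hg.diff.mono Set.inter_subset_left, fun w hw => hg.root w hw.1⟩
  have hb' : Branch P (U ∩ U') g' :=
    ⟨hg'.diff.mono Set.inter_subset_right, fun w hw => hg'.root w hw.2⟩
  have h1 := branch_unique hs (hU.inter hU') hb hb' ⟨hz, hz'⟩ (hUB z hz) (hgz.trans hgz'.symm)
  have h2 : ∀ᶠ w in 𝓝 z, vec R w (g w) = vec R w (g' w) := by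
    filter_upwards [h1] with w hw
    rw [hw]
  have h3 : v z = v' z := by
    rcases le_total m m' with hm | hm
    · exact fac_unique hv.continuousAt hv'.continuousAt h0 hf hf' h2 hm
    · refine (fac_unique hv'.continuousAt hv.continuousAt h0' hf' hf ?_ hm).symm
      filter_upwards [h2] with w hw
      exact hw.symm
  congr 1

theorem exists_isVal (hM : Model c ev P) (hs : SepOff P B₀) {k : Fin (n + 1)}
    (hk : ev (R k) ≠ 0) {z y : ℂ} (hz : z ∉ B₀) (hy : evalEval z y P = 0) :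
    ∃ p, IsVal P B₀ R z y p := by
  have h1 : IsOpen ((B₀ : Set ℂ)ᶜ) := B₀.finite_toSet.isClosed.isOpen_compl
  obtain ⟨r, hr, hr'⟩ := Metric.isOpen_iff.1 h1 z hz
  obtain ⟨g, hg, hgz⟩ := exists_branch hM.monic hs isOpen_ball (convex_ball z r)
    (fun w hw => hr' hw) (mem_ball_self hr) hy
  obtain ⟨m, v, hv, h0, hf⟩ := exists_fac hM hk isOpen_ball hg (mem_ball_self hr)
  exact ⟨_, ball z r, g, v, m, isOpen_ball, mem_ball_self hr, fun w hw => hr' hw, hg, hgz, hv, hf,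
    h0, rfl⟩

/-- the value where the coordinates do not all vanish -/
theorem isVal_of_ne {U : Set ℂ} {g : ℂ → ℂ} (hU : IsOpen U) (hUB : ∀ w ∈ U, w ∉ B₀)
    (hg : Branch P U g) {z : ℂ} (hz : z ∈ U) (h : vec R z (g z) ≠ 0) :
    IsVal P B₀ R z (g z) (Projectivization.mk ℂ (vec R z (g z)) h) :=
  ⟨U, g, fun w => vec R w (g w), 0, hU, hz, hUB, hg, rfl,
    analyticAt_vec R (branch_analyticAt hU hg hz), Eventually.of_forall fun w => by
      rw [pow_zero, one_smul], h, rfl⟩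

end H117

variable {L : Type} [Field L] [Algebra ℂ L] {c : Place ℂ L} {ev : ℂ[X][Y] →ₐ[ℂ] L} {P : ℂ[X][Y]}
  {B₀ : Finset ℂ} {n : ℕ} {R : Fin (n + 1) → ℂ[X][Y]}

/-- PF2-PT: the map given by the coordinates `R k`. -/
theorem exists_pt (hM : Model c ev P) (hs : SepOff P B₀) {k : Fin (n + 1)} (hk : ev (R k) ≠ 0) :
    ∃ T : ℂ → ℂ → ℙ ℂ (Fin (n + 1) → ℂ), Pt P B₀ R T := by
  classical
  have hex : ∃ p : ℙ ℂ (Fin (n + 1) → ℂ), True := by
    have h1 : (fun _ : Fin (n + 1) => (1 : ℂ)) ≠ 0 := fun h => by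
      have := congrFun h 0
      simp at this
    exact ⟨Projectivization.mk ℂ _ h1, trivial⟩
  obtain ⟨p₀, -⟩ := hex
  set T : ℂ → ℂ → ℙ ℂ (Fin (n + 1) → ℂ) := fun z y =>
    if h : ∃ p, H117.IsVal P B₀ R z y p then h.choose else p₀ with hTdef
  have hT : ∀ z y p, H117.IsVal P B₀ R z y p → T z y = p := by
    intro z y p hp
    have h1 : ∃ p, H117.IsVal P B₀ R z y p := ⟨p, hp⟩
    have h2 : T z y = h1.choose := dif_pos h1
    rw [h2]
    exact H117.isVal_unique hs h1.choose_spec hp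
  refine ⟨T, ?_, ?_⟩
  · intro U g hU hUB hg z hz
    obtain ⟨m, v, hv, h0, hf⟩ := H117.exists_fac hM hk hU hg hz
    have hev : ∀ᶠ w in 𝓝 z, w ∈ U ∧ v w ≠ 0 ∧ vec R w (g w) = (w - z) ^ m • v w ∧
        AnalyticAt ℂ v w := by
      filter_upwards [hU.mem_nhds hz, hv.continuousAt.eventually_ne h0, hf,
        hv.eventually_analyticAt] with w h1 h2 h3 h4
      exact ⟨h1, h2, h3, h4⟩
    obtain ⟨V, hVsub, hVo, hzV⟩ := _root_.mem_nhds_iff.1 hev
    refine ⟨V, v, hVo, hzV, fun w hw => (hVsub hw).2.2.2.differentiableAt.differentiableWithinAt,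
      fun w hw => ?_⟩
    obtain ⟨hwU, hvw, hfw, -⟩ := hVsub hw
    refine ⟨hvw, ?_⟩
    by_cases hwz : w = z
    · subst hwz
      exact hT _ _ _ ⟨U, g, v, m, hU, hwU, hUB, hg, rfl, hv, hf, hvw, rfl⟩
    · have h1 : (w - z) ^ m ≠ 0 := pow_ne_zero _ (sub_ne_zero.2 hwz)
      have h2 : vec R w (g w) ≠ 0 := by
        rw [hfw]
        exact smul_ne_zero h1 hvw
      change T w (g w) = _
      rw [hT _ _ _ (H117.isVal_of_ne hU hUB hg hwU h2)]
      rw [Projectivization.mk_eq_mk_iff']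
      exact ⟨(w - z) ^ m, hfw.symm⟩
  · intro z y hz hy
    obtain ⟨p, hp⟩ := H117.exists_isVal (R := R) hM hs hk hz hy
    rw [hT z y p hp]
    obtain ⟨U, g, v, m, hU, hzU, hUB, hg, hgz, hv, hf, h0, rfl⟩ := hp
    obtain ⟨a, ha⟩ := Projectivization.exists_smul_eq_mk_rep ℂ (v z) h0
    have h1 := hf.self_of_nhds
    rw [hgz] at h1
    refine ⟨(z - z) ^ m * ((a⁻¹ : ℂˣ) : ℂ), ?_⟩
    rw [h1, mul_smul, ← ha]
    congr 1
    change v z = ((a⁻¹ : ℂˣ) : ℂ) • ((a : ℂ) • v z)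
    rw [smul_smul, ← Units.val_mul, inv_mul_cancel, Units.val_one, one_smul]

end Pool.Agent.H918.PF
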