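import Pool.Agent.H918.G.Geo
import Pool.Agent.H918.D.Sab
import Pool.Agent.H916.Multi
import Pool.Agent.H916.GtFib

/-! PROJECT PF, geometric tasks: FIN. -/

set_option autoImplicit false

open Polynomial FF Pool.Agent.W603.LV Pool.Agent.W603.PV Pool.Agent.W602.GT Pool.Agent.N154.GG
open Filter Topology Metric
open Pool.Agent.W602.RG (HasValue PointedMaps)
open Pool.Agent.Y216 (OnVar)
open Pool.Agent.H918.SS (ProjVariety HasReduction)
open scoped Polynomial.Bivariate LinearAlgebra.Projectivization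

namespace Pool.Agent.H918.PF

variable {L : Type} [Field L] [Algebra ℂ L] {c : Place ℂ L} {ev : ℂ[X][Y] →ₐ[ℂ] L} {P : ℂ[X][Y]}
  {B₀ : Finset ℂ} {n : ℕ} {ι : Type} {F : ι → MvPolynomial (Fin (n + 1)) ℂ} {Λ : PeriodPair}
  {α : (Fin (n + 1) → ℂ) → ℂ ⧸ Λ.lattice} {A : Fin 3 → MvPolynomial (Fin (n + 1)) ℂ}
  {R R' : Fin (n + 1) → ℂ[X][Y]} {T T' : ℂ → ℂ → ℙ ℂ (Fin (n + 1) → ℂ)}

namespace H643

theorem ess_coords {K : Type} [Field K] [Algebra ℂ K] {y : Fin (n + 1) → K}
    (hgen : coords ℂ y = ⊤) : Algebra.EssFiniteType ℂ K := by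
  classical
  have hfin : {z : K | ∃ i j, y j ≠ 0 ∧ z = y i / y j}.Finite := by
    refine (Set.finite_range fun p : Fin (n + 1) × Fin (n + 1) => y p.1 / y p.2).subset ?_
    rintro _ ⟨i, j, -, rfl⟩
    exact ⟨(i, j), rfl⟩
  rw [← IntermediateField.fg_top_iff]
  refine ⟨hfin.toFinset, ?_⟩
  rw [Set.Finite.coe_toFinset]
  exact hgen

/-- the fibration given by the forms `A` -/
theorem fib {K : Type} [Field K] [Algebra ℂ K] {y : Fin (n + 1) → K}
    (hgen : coords ℂ y = ⊤) (h0 : val y (A 0) ≠ 0)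
    (hK : GeneralType ℂ K 2) (ht : Transcendental ℂ (val y (A 1) / val y (A 0))) :
    Pool.Agent.H916.HypFibres (⨆ _l : Fin 1, coords ℂ fun j : Fin 3 => val y (A j)) := by
  rw [ciSup_const]
  refine Pool.Agent.H916.hypFibres_of_gt (ess_coords hgen) hK ?_
  have h1 : Algebra.trdeg ℂ K = (2 : ℕ) := hK.1
  have h2 : (1 : Cardinal) ≤ Algebra.trdeg ℂ (coords ℂ fun j : Fin 3 => val y (A j)) := by
    have hmem : val y (A 1) / val y (A 0) ∈ coords ℂ fun j : Fin 3 => val y (A j) :=
      IntermediateField.subset_adjoin _ _ ⟨1, 0, h0, rfl⟩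
    have h3 : AlgebraicIndependent ℂ (fun _ : Unit =>
        (⟨val y (A 1) / val y (A 0), hmem⟩ : coords ℂ fun j : Fin 3 => val y (A j))) := by
      rw [algebraicIndependent_unique_type_iff]
      intro h4
      apply ht
      have h5 := h4.algHom (coords ℂ fun j : Fin 3 => val y (A j)).val
      exact h5
    have h6 := h3.lift_cardinalMk_le_trdeg
    simpa using h6
  rw [h1]
  calc ((2 : ℕ) : Cardinal) = 1 + 1 := by norm_num
    _ ≤ _ := add_le_add h2 le_rfl

end H643

/-- PF2-FIN: boundedness of the degrees and bend and break. -/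
theorem finish {K : Type} [Field K] [Algebra ℂ K] {y : Fin (n + 1) → K} (hy : y ≠ 0)
    (hgen : coords ℂ y = ⊤) (hA : ∃ e : ℕ, ∀ j, (A j).IsHomogeneous e) (h0 : val y (A 0) ≠ 0)
    (hK : GeneralType ℂ K 2) (ht : Transcendental ℂ (val y (A 1) / val y (A 0))) :
    ∃ G : MvPolynomial (Fin (n + 1)) ℂ, IsForm G ∧ val y G ≠ 0 ∧
      ∀ (L : Type) [Field L] [Algebra ℂ L] [IsFF ℂ L] (c : Place ℂ L), ∀ x ∈ VarPts ℂ y,
        val x G ≠ 0 → (∀ W : Set (Fin (n + 1) → L), W.Infinite →
          (∀ f ∈ W, OnVar ℂ y f ∧ HasValue c x f) →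
          (∀ f ∈ W, ∀ f' ∈ W, (∀ i j, f i * f' j = f j * f' i) → f = f') →
          ∃ f ∈ W, ∃ f' ∈ W, f ≠ f' ∧ ∀ i j, val f (A i) * val f' (A j) =
            val f (A j) * val f' (A i)) →
        (PointedMaps y c x).Finite ∨ ∃ g : Fin (n + 1) → RatFunc ℂ, OnVar ℂ y g ∧
          (∀ G : MvPolynomial (Fin (n + 1)) ℂ, IsForm G → val x G ≠ 0 → val g G ≠ 0) ∧
          0 < pht ℂ g := by
  classical
  obtain ⟨d, hd⟩ := hA
  have hYne : ∀ l : Fin 1, (fun j : Fin 3 => val y (A j)) ≠ 0 := fun _ h => h0 (congrFun h 0)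
  obtain ⟨j, e, H, hR, G, hGf, hGx, hGH, D₁, hD₁⟩ := Pool.Agent.H916.exists_multi (r := 1)
    (N := fun _ => 2) hy hgen (y := fun _ => fun j : Fin 3 => val y (A j)) hYne
    (H643.fib hgen h0 hK ht)
  have hRm := hR 0
  set j0 : Fin 3 := j 0 with hj0
  have hyj : val y (A j0) ≠ 0 := hRm.ny
  have hGG : IsForm (G * A j0) := Pool.Agent.H916.isForm_mul hGf ⟨d, hd j0⟩
  refine ⟨G * A j0, hGG, ?_, ?_⟩
  · rw [Pool.Agent.H916.val_mul_ne]
    exact ⟨hGx, hyj⟩
  intro L _ _ _ c x hx hxG hW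
  -- the pointed maps
  set S : Set (Fin (n + 1) → L) := {f | OnVar ℂ y f ∧ HasValue c x f} with hS
  have hfG : ∀ f ∈ S, val f G ≠ 0 ∧ val f (A j0) ≠ 0 := by
    intro f hf
    have h1 := Pool.Agent.H916.value_ne hx.1 hf.1.1 hf.2 hGG hxG
    rwa [Pool.Agent.H916.val_mul_ne] at h1
  set ψ : (Fin (n + 1) → L) → (Fin 3 → L) := fun f i => val f (A i) / val f (A j0) with hψ
  -- the compositions with the forms
  have hfin : (ψ '' S).Finite := by
    by_contra hinf
    obtain ⟨W, hWS, hbij⟩ := Set.exists_subset_bijOn S ψ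
    have hWinf : W.Infinite := by
      have h1 : (ψ '' W).Infinite := by
        rw [hbij.image_eq]
        exact hinf
      exact h1.of_image ψ
    obtain ⟨f, hf, f', hf', hne, hff⟩ := hW W hWinf (fun f hf => hWS hf) (by
      intro f hf f' hf' hprop
      apply hbij.injOn hf hf'
      obtain ⟨i1, hi1⟩ := (hWS hf).1.1
      have e1 : f' = fun i => (f' i1 / f i1) * f i := by
        funext i
        have h1 := hprop i i1
        field_simp
        rw [mul_comm (f' i), mul_comm (f' i1), h1]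
      funext i
      change val f (A i) / val f (A j0) = val f' (A i) / val f' (A j0)
      have h2 := (hfG f (hWS hf)).2
      have h3 := (hfG f' (hWS hf')).2
      rw [div_eq_div_iff h2 h3]
      have h4 : ∀ i, val f' (A i) = (f' i1 / f i1) ^ d * val f (A i) := by
        intro i
        conv_lhs => rw [e1]
        exact val_smul (hd i) _ _
      rw [h4, h4]
      ring)
    apply hne
    apply hbij.injOn hf hf'
    funext i
    change val f (A i) / val f (A j0) = val f' (A i) / val f' (A j0)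
    rw [div_eq_div_iff (hfG f (hWS hf)).2 (hfG f' (hWS hf')).2, hff i j0]
    ring
  obtain ⟨D, hD⟩ := (hfin.image fun q : Fin 3 → L => pht ℂ q).bddAbove
  -- the heights
  have hpht : ∀ f ∈ S, pht ℂ (fun i => MvPolynomial.aeval f (H 0 i)) ≤ D := by
    intro f hf
    have h1 := hGH L f hf.1 (hfG f hf).1 0
    have h2 := (hfG f hf).2
    have h3 : ∀ i, MvPolynomial.aeval f (H 0 i) =
        MvPolynomial.aeval f (H 0 (j 0)) * ψ f i := by
      intro i
      have h4 := hf.1.2 (A i * H 0 (j 0) - A j0 * H 0 i)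
        ⟨d + e, ((hd i).mul (hRm.hom _)).sub ((hd j0).mul (hRm.hom _))⟩ (by
          have h5 := hRm.eq i
          rw [div_eq_div_iff hRm.ny hRm.ne] at h5
          unfold Pool.Agent.W602.GT.val at h5 ⊢
          rw [map_sub, map_mul, map_mul, h5]
          ring)
      unfold Pool.Agent.W602.GT.val at h4 h2
      rw [map_sub, map_mul, map_mul, sub_eq_zero] at h4
      change _ = _ * (val f (A i) / val f (A j0))
      unfold Pool.Agent.W602.GT.val
      field_simp
      linear_combination -h4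
    have h4 : pht ℂ (fun i => MvPolynomial.aeval f (H 0 i)) = pht ℂ (ψ f) := by
      have h5 : (fun i => MvPolynomial.aeval f (H 0 i)) =
          fun i => MvPolynomial.aeval f (H 0 (j 0)) * ψ f i := funext h3
      rw [h5]
      exact pht_scale ⟨j0, by
        change val f (A j0) / val f (A j0) ≠ 0
        rw [div_self h2]
        exact one_ne_zero⟩ h1
    rw [h4]
    exact hD ⟨ψ f, ⟨f, hf, rfl⟩, rfl⟩
  exact Pool.Agent.H916.finite_or_rat (L := L) (c := c) hx (D₁ * (max (canDeg ℂ L) 0 + D))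
    (fun f hf hv => by
      have h1 := hD₁ L f hf (hfG f ⟨hf, hv⟩).1
      rw [Fin.sum_univ_one] at h1
      refine h1.trans ?_
      exact mul_le_mul_of_nonneg_left (add_le_add le_rfl (hpht f ⟨hf, hv⟩))
        (Int.natCast_nonneg _))

end Pool.Agent.H918.PF
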