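import Mathlib
import Pool.Agent.H918.G.Defs

/-! PROJECT PF, task lat_small (helper120). -/

set_option autoImplicit false

open Filter Topology Metric

namespace Pool.Agent.H918.PF

/-- PF-LAT: small representatives of elements of `ℂ / Λ` are unique. -/
theorem lat_small (Λ : PeriodPair) : ∃ δ : ℝ, 0 < δ ∧ ∀ u v : ℂ, ‖u‖ < δ → ‖v‖ < δ →
    (Submodule.Quotient.mk u : ℂ ⧸ Λ.lattice) = Submodule.Quotient.mk v → u = v := by
  have h0 : (0 : ℂ) ∈ (Λ.lattice : Set ℂ) := Λ.lattice.zero_mem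
  have hd : IsDiscrete (Λ.lattice : Set ℂ) := ⟨inferInstanceAs (DiscreteTopology Λ.lattice)⟩
  obtain ⟨ε, hε, hb⟩ := Metric.exists_ball_inter_eq_singleton_of_mem_discrete hd h0
  refine ⟨ε / 2, by linarith, fun u v hu hv h => ?_⟩
  rw [Submodule.Quotient.eq] at h
  have h1 : u - v ∈ ball (0 : ℂ) ε ∩ (Λ.lattice : Set ℂ) := by
    refine ⟨?_, h⟩
    rw [mem_ball_zero_iff]
    calc ‖u - v‖ ≤ ‖u‖ + ‖v‖ := norm_sub_le u v
      _ < ε := by linarith
  rw [hb, Set.mem_singleton_iff] at h1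
  exact sub_eq_zero.1 h1

end Pool.Agent.H918.PF
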