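import Pool.Agent.H918.G.Geo
import Pool.Agent.H918.D.Sab
import Pool.Graph.R_seed8.W603.PV.Ext

/-! PROJECT PF (helper918), task PF2-RAT: forms which vanish along all nonconstant meromorphic maps
from `ℂᵐ` vanish on rational curves. -/

set_option autoImplicit false

open Polynomial FF Pool.Agent.W603.LV Pool.Agent.W603.PV Pool.Agent.W602.GT Pool.Agent.N154.GG
open Filter Topology Metric
open Pool.Agent.W602.RG (HasValue PointedMaps)
open Pool.Agent.Y216 (OnVar)
open Pool.Agent.H918.SS (ProjVariety HasReduction)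
open scoped Polynomial.Bivariate LinearAlgebra.Projectivization

namespace Pool.Agent.H918.PF

variable {L : Type} [Field L] [Algebra ℂ L] {c : Place ℂ L} {ev : ℂ[X][Y] →ₐ[ℂ] L} {P : ℂ[X][Y]}
  {B₀ : Finset ℂ} {n : ℕ} {ι : Type} {F : ι → MvPolynomial (Fin (n + 1)) ℂ} {Λ : PeriodPair}
  {α : (Fin (n + 1) → ℂ) → ℂ ⧸ Λ.lattice} {A : Fin 3 → MvPolynomial (Fin (n + 1)) ℂ}
  {R R' : Fin (n + 1) → ℂ[X][Y]} {T T' : ℂ → ℂ → ℙ ℂ (Fin (n + 1) → ℂ)}

namespace H100

/-- common denominators -/
theorem clear (g : Fin (n + 1) → RatFunc ℂ) : ∃ (r : ℂ[X]) (q : Fin (n + 1) → ℂ[X]), r ≠ 0 ∧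
    ∀ k, algebraMap ℂ[X] (RatFunc ℂ) r * g k = algebraMap ℂ[X] (RatFunc ℂ) (q k) := by
  obtain ⟨b, hb⟩ := IsLocalization.exist_integer_multiples_of_finite (nonZeroDivisors ℂ[X]) g
  choose q hq using hb
  refine ⟨b, q, nonZeroDivisors.coe_ne_zero b, fun k => ?_⟩
  rw [hq k, Algebra.smul_def]

/-- values of forms at the polynomial point -/
theorem val_poly {g : Fin (n + 1) → RatFunc ℂ} {r : ℂ[X]} {q : Fin (n + 1) → ℂ[X]}
    (hq : ∀ k, algebraMap ℂ[X] (RatFunc ℂ) r * g k = algebraMap ℂ[X] (RatFunc ℂ) (q k))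
    {H : MvPolynomial (Fin (n + 1)) ℂ} {e : ℕ} (hH : H.IsHomogeneous e) :
    algebraMap ℂ[X] (RatFunc ℂ) (MvPolynomial.aeval q H) =
      (algebraMap ℂ[X] (RatFunc ℂ) r) ^ e * val g H := by
  have h1 : algebraMap ℂ[X] (RatFunc ℂ) (MvPolynomial.aeval q H) =
      MvPolynomial.aeval (fun k => algebraMap ℂ[X] (RatFunc ℂ) (q k)) H := by
    have h2 := MvPolynomial.comp_aeval_apply (IsScalarTower.toAlgHom ℂ ℂ[X] (RatFunc ℂ)) H (f := q)
    exact h2
  rw [h1]
  have h3 : (fun k => algebraMap ℂ[X] (RatFunc ℂ) (q k)) =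
      fun k => algebraMap ℂ[X] (RatFunc ℂ) r * g k := funext fun k => (hq k).symm
  rw [h3]
  unfold val
  rw [MvPolynomial.aeval_def, MvPolynomial.aeval_def, MvPolynomial.eval₂_eq', MvPolynomial.eval₂_eq',
    Finset.mul_sum]
  refine Finset.sum_congr rfl fun a ha => ?_
  have h4 : ∑ i, a i = e := by
    have := hH (MvPolynomial.mem_support_iff.1 ha)
    rw [← this, Finsupp.weight_apply, Finsupp.sum_fintype _ _ (by simp)]
    simp
  have h5 : ∏ i, (algebraMap ℂ[X] (RatFunc ℂ) r * g i) ^ a i =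
      (algebraMap ℂ[X] (RatFunc ℂ) r) ^ e * ∏ i, g i ^ a i := by
    simp only [mul_pow]
    rw [Finset.prod_mul_distrib, Finset.prod_pow_eq_pow_sum, h4]
  rw [h5]
  ring

/-- values at the points of the curve -/
theorem val_eval_poly (q : Fin (n + 1) → ℂ[X]) (H : MvPolynomial (Fin (n + 1)) ℂ) (z : ℂ) :
    val (fun k => (q k).eval z) H = (MvPolynomial.aeval q H : ℂ[X]).eval z := by
  have h2 := MvPolynomial.comp_aeval_apply (Polynomial.aeval z : ℂ[X] →ₐ[ℂ] ℂ) H (f := q)
  simp only [Polynomial.coe_aeval_eq_eval] at h2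
  exact h2.symm

end H100

/-- PF2-RAT: forms which vanish along all nonconstant meromorphic maps from `ℂᵐ` vanish on rational
curves. -/
theorem rat_zero {K : Type} [Field K] [Algebra ℂ K] {y : Fin (n + 1) → K} {d : ℕ}
    (hX : ProjVariety F d y) {g : Fin (n + 1) → RatFunc ℂ} (hg : OnVar ℂ y g) (hh : 0 < pht ℂ g)
    {G : MvPolynomial (Fin (n + 1)) ℂ} (hG : IsForm G)
    (h : ∀ (m : ℕ) (h : (Fin m → ℂ) → Fin (n + 1) → ℂ), Pool.Agent.H918.SS.MeroIn F h →
      ∀ z, h z ≠ 0 → val (h z) G = 0) : val g G = 0 := by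
  obtain ⟨⟨j, hj⟩, hgH⟩ := hg
  obtain ⟨r, q, hr, hq⟩ := H100.clear g
  have hr' : algebraMap ℂ[X] (RatFunc ℂ) r ≠ 0 := by
    rw [Ne, map_eq_zero_iff _ (IsFractionRing.injective ℂ[X] (RatFunc ℂ))]
    exact hr
  have hinj : Function.Injective (algebraMap ℂ[X] (RatFunc ℂ)) := IsFractionRing.injective _ _
  have hqj : q j ≠ 0 := by
    intro h0
    have h1 := hq j
    rw [h0, map_zero] at h1
    exact (mul_ne_zero hr' hj) h1
  obtain ⟨z₀, hz₀⟩ : ∃ z₀, (q j).eval z₀ ≠ 0 := by
    by_contra hcon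
    push Not at hcon
    exact hqj (Polynomial.funext fun z => by rw [hcon z, eval_zero])
  have hF : ∀ i, (MvPolynomial.aeval q (F i) : ℂ[X]) = 0 := by
    intro i
    obtain ⟨e, he⟩ := hX.form i
    apply hinj
    rw [H100.val_poly hq he, hgH (F i) (hX.form i) (hX.sub.mem i), mul_zero, map_zero]
  have hM : Pool.Agent.H918.SS.MeroIn F
      (fun (z : Fin 1 → ℂ) (k : Fin (n + 1)) => (q k).eval (z 0)) := by
    refine ⟨?_, ?_, ?_⟩
    · rw [differentiable_pi]
      intro k
      exact (q k).differentiable.comp (differentiable_apply 0)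
    · intro z hz
      refine ⟨hz, fun i => ?_⟩
      rw [H100.val_eval_poly, hF i, eval_zero]
    · by_contra hcon
      push Not at hcon
      have h1 : ∀ w : ℂ, ∀ k, (q k).eval w * (q j).eval z₀ = (q k).eval z₀ * (q j).eval w := by
        intro w k
        have h2 := hcon (fun _ => z₀) (fun _ => w)
        rw [LinearIndependent.pair_iff] at h2
        push Not at h2
        obtain ⟨s, t, hst, hne⟩ := h2
        have hk := congrFun hst k
        have hj' := congrFun hst j
        simp only [Pi.add_apply, Pi.smul_apply, smul_eq_mul, Pi.zero_apply] at hk hj'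
        have ht : t ≠ 0 := by
          intro ht0
          rw [ht0, zero_mul, add_zero] at hj'
          rcases mul_eq_zero.mp hj' with hs0 | hs0
          · exact hne hs0 ht0
          · exact hz₀ hs0
        have h5 : t * ((q k).eval w * (q j).eval z₀ - (q k).eval z₀ * (q j).eval w) = 0 := by
          linear_combination (q j).eval z₀ * hk - (q k).eval z₀ * hj'
        rcases mul_eq_zero.mp h5 with h6 | h6
        · exact absurd h6 ht
        · exact sub_eq_zero.mp h6
      have h2 : ∀ k, q k * C ((q j).eval z₀) = C ((q k).eval z₀) * q j := by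
        intro k
        refine Polynomial.funext fun w => ?_
        rw [eval_mul, eval_mul, eval_C, eval_C]
        exact h1 w k
      have h3 : ∀ k, g k / g j = algebraMap ℂ (RatFunc ℂ) ((q k).eval z₀ / (q j).eval z₀) := by
        intro k
        have h4 := congrArg (algebraMap ℂ[X] (RatFunc ℂ)) (h2 k)
        rw [map_mul, map_mul, ← hq k, ← hq j] at h4
        have e1 : ∀ a : ℂ, algebraMap ℂ[X] (RatFunc ℂ) (C a) = algebraMap ℂ (RatFunc ℂ) a := by
          intro a
          rw [IsScalarTower.algebraMap_apply ℂ ℂ[X] (RatFunc ℂ)]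
          rfl
        rw [e1, e1] at h4
        have h6 : algebraMap ℂ (RatFunc ℂ) ((q j).eval z₀) ≠ 0 := by
          rw [Ne, map_eq_zero]
          exact hz₀
        rw [map_div₀, div_eq_div_iff hj h6]
        apply mul_left_cancel₀ hr'
        linear_combination h4
      have hFF : IsFF ℂ (RatFunc ℂ) := Pool.Agent.Y216.isFF_ratFunc
      have h7 := pht_le (k := ℂ) g hj
      have h8 : ∑ k, hgt ℂ (g k / g j) = 0 := by
        refine Finset.sum_eq_zero fun k _ => ?_
        rw [h3 k]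
        exact hgt_algebraic (isAlgebraic_algebraMap _)
      rw [h8] at h7
      omega
  obtain ⟨e, he⟩ := hG
  have hfin : (MvPolynomial.aeval q G : ℂ[X]) * q j = 0 := by
    refine Polynomial.funext fun w => ?_
    rw [eval_mul, eval_zero]
    by_cases hw : (q j).eval w = 0
    · rw [hw, mul_zero]
    · have h1 := h 1 _ hM (fun _ => w) (fun h0 => hw (congrFun h0 j))
      rw [← H100.val_eval_poly, h1, zero_mul]
  have hfin2 : (MvPolynomial.aeval q G : ℂ[X]) = 0 := by
    rcases mul_eq_zero.mp hfin with h0 | h0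
    · exact h0
    · exact absurd h0 hqj
  have h9 := H100.val_poly hq he
  rw [hfin2, map_zero] at h9
  rcases mul_eq_zero.mp h9.symm with h0 | h0
  · exact absurd h0 (pow_ne_zero _ hr')
  · exact h0

end Pool.Agent.H918.PF
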