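import Pool.Agent.H918.G.Unif
import Pool.Agent.H918.G.BoundFin
import Pool.Agent.H918.G.BoundInf
import Pool.Agent.H918.G.ExistsModel
import Pool.Agent.H918.G.ExistsSepoff
import Pool.Agent.H918.G.ExistsDz
import Pool.Agent.H918.G.EtaReg
import Pool.Agent.H918.G.ExistsPt
import Pool.Agent.H918.G.TauLoc
import Pool.Agent.H918.G.TauInf
import Pool.Agent.H918.G.WeierRel
import Pool.Agent.H918.G.DiscrNe
import Pool.Agent.H918.G.EqOfTau
import Pool.Agent.H918.G.AlphaTrans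
import Pool.Agent.H918.G.Finish
import Pool.Agent.H918.G.RatZero
import Pool.Agent.H918.E.Main
import Pool.Agent.H916.Multi

/-! PROJECT PF: pseudo-geometric hyperbolicity of surfaces of general type over elliptic curves. -/

set_option autoImplicit false

open Polynomial FF Pool.Agent.W603.LV Pool.Agent.W603.PV Pool.Agent.W602.GT Pool.Agent.N154.GG
open Filter Topology Metric
open Pool.Agent.W602.RG (HasValue PointedMaps PseudoGeomHyp)
open Pool.Agent.Y216 (OnVar)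
open Pool.Agent.H918.SS (ProjVariety HasReduction rep_mk cone_smulF allM isForm_mul)
open Pool.Agent.H916 (value_ne)
open scoped Polynomial.Bivariate LinearAlgebra.Projectivization

namespace Pool.Agent.H918.PF

theorem s_bfin : S_BFIN := by
  intro L _ _ _ c ev P hM h hh r
  exact bound_fin hM hh r

theorem s_binf : S_BINF := by
  intro L _ _ _ c ev P hM h hh
  exact bound_inf hM hh

variable {L : Type} [Field L] [Algebra ℂ L] {c : Place ℂ L} {n : ℕ} {ι : Type}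
  {F : ι → MvPolynomial (Fin (n + 1)) ℂ} {Λ : PeriodPair}
  {α : (Fin (n + 1) → ℂ) → ℂ ⧸ Λ.lattice} {A : Fin 3 → MvPolynomial (Fin (n + 1)) ℂ}
  {K : Type} [Field K] [Algebra ℂ K] {y : Fin (n + 1) → K}

/-- **Two of infinitely many pointed maps have the same composition with the map to the elliptic
curve.** -/
theorem two_maps [IsFF ℂ L] (hX : ProjVariety F 2 y) (hα : HolToTorus (Cone F) Λ α)
    (hA : WForms F Λ α A) {B : Set (ℂ ⧸ Λ.lattice)} (hB : B.Finite) (hR : HasReduction F α B)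
    {x : Fin (n + 1) → ℂ} (hx : x ∈ Cone F) (hxB : α x ∉ B)
    (hxS : ∀ g, HolIn F g → (∀ z, α (g z).rep = Submodule.Quotient.mk z) →
      ∀ z, Projectivization.mk ℂ x hx.1 ≠ g z) (hx0 : val x (A 0) ≠ 0) (hx2 : val x (A 2) ≠ 0)
    {W : Set (Fin (n + 1) → L)} (hW : W.Infinite) (hW1 : ∀ f ∈ W, OnVar ℂ y f ∧ HasValue c x f) :
    ∃ f ∈ W, ∃ f' ∈ W, f ≠ f' ∧ ∀ i j, val f (A i) * val f' (A j) =
      val f (A j) * val f' (A i) := by
  classical
  have hF := hX.form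
  obtain ⟨ev, P, hM⟩ := exists_model c
  obtain ⟨B₀, hs⟩ := exists_sepOff hM
  obtain ⟨D, hD⟩ := exists_dz hM
  have hD0 : D ≠ 0 := by
    rintro rfl
    simp at hD
  obtain ⟨e, he⟩ := hA.form
  obtain ⟨u₀, hu₀⟩ : ∃ u₀ : ℂ, α x = Submodule.Quotient.mk u₀ := by
    obtain ⟨u, hu⟩ := Submodule.Quotient.mk_surjective _ (α x)
    exact ⟨u, hu.symm⟩
  choose S R hS hSR using fun f : Fin (n + 1) → L => exists_common hM f
  have hSne : ∀ f, ev (C (S f)) ≠ 0 := by
    intro f h0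
    have h1 := (hM.ker _).1 h0
    have h2 : (C (S f) : ℂ[X][Y]).natDegree = 0 := natDegree_C _
    have h3 : (C (S f) : ℂ[X][Y]) ≠ 0 := by
      rw [Ne, C_eq_zero]
      exact hS f
    have h4 := natDegree_le_of_dvd h1 h3
    have := hM.pos
    omega
  have hev : ∀ f, (fun k => ev (R f k)) = fun k => ev (C (S f)) * f k := by
    intro f
    funext k
    rw [← hSR f k, mul_comm]
  have hval : ∀ f (G : MvPolynomial (Fin (n + 1)) ℂ) (d : ℕ), G.IsHomogeneous d →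
      val (fun k => ev (R f k)) G = ev (C (S f)) ^ d * val f G := by
    intro f G d hG
    rw [hev, val_smul hG]
  have hk : ∀ f ∈ W, ∃ k, ev (R f k) ≠ 0 := by
    intro f hf
    obtain ⟨k, hk⟩ := (hW1 f hf).1.1
    refine ⟨k, ?_⟩
    rw [← hSR f k]
    exact mul_ne_zero hk (hSne f)
  have hFR : ∀ f ∈ W, ∀ i, val (fun k => ev (R f k)) (F i) = 0 := by
    intro f hf i
    obtain ⟨d, hd⟩ := hF i
    rw [hval f _ d hd, (hW1 f hf).1.2 _ (hF i) (hX.sub.mem i), mul_zero]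
  have hHV : ∀ f ∈ W, HasValue c x fun k => ev (R f k) := by
    intro f hf
    rw [hev]
    exact Pool.Agent.W273.RG.FNW.hv_scale (hW1 f hf).1.1 (hW1 f hf).2 (hSne f)
  have h0f : ∀ f ∈ W, val f (A 0) ≠ 0 := fun f hf =>
    value_ne hx.1 (hW1 f hf).1.1 (hW1 f hf).2 ⟨e, he 0⟩ hx0
  have h2f : ∀ f ∈ W, val f (A 2) ≠ 0 := fun f hf =>
    value_ne hx.1 (hW1 f hf).1.1 (hW1 f hf).2 ⟨e, he 2⟩ hx2
  have h0 : ∀ f ∈ W, val (fun k => ev (R f k)) (A 0) ≠ 0 := by
    intro f hf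
    rw [hval f _ e (he 0)]
    exact mul_ne_zero (pow_ne_zero _ (hSne f)) (h0f f hf)
  have h2 : ∀ f ∈ W, val (fun k => ev (R f k)) (A 2) ≠ 0 := by
    intro f hf
    rw [hval f _ e (he 2)]
    exact mul_ne_zero (pow_ne_zero _ (hSne f)) (h2f f hf)
  have hOn : ∀ f ∈ W, OnVar ℂ y fun k => ev (R f k) := by
    intro f hf
    refine ⟨hk f hf, fun H hH hyH => ?_⟩
    obtain ⟨d, hd⟩ := hH
    rw [hval f _ d hd, (hW1 f hf).1.2 _ ⟨d, hd⟩ hyH, mul_zero]
  obtain ⟨j, hj⟩ := Function.ne_iff.1 hx.1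
  have hj : x j ≠ 0 := hj
  have hT : ∀ f : W, ∃ T, Pt P B₀ (R f) T := fun f => by
    obtain ⟨k, hk⟩ := hk f.1 f.2
    exact exists_pt hM hs hk
  choose T hT using hT
  have hTF : ∀ (f : W) (z y : ℂ), z ∉ B₀ → evalEval z y P = 0 → (T f z y).rep ∈ Cone F := by
    intro f z y hz hy
    obtain ⟨k, hk⟩ := hk f.1 f.2
    exact ⟨(T f z y).rep_nonzero, fun i => pt_form hM hs (hT f) hk (hF i) (hFR f.1 f.2 i) hz hy⟩
  -- the differential forms
  obtain ⟨a, ha⟩ : ∃ a : W → L, ∀ f : W, a f = val (fun k => ev (R f k)) (A 1) /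
      val (fun k => ev (R f k)) (A 0) := ⟨_, fun _ => rfl⟩
  obtain ⟨b, hb⟩ : ∃ b : W → L, ∀ f : W, b f = val (fun k => ev (R f k)) (A 2) /
      val (fun k => ev (R f k)) (A 0) := ⟨_, fun _ => rfl⟩
  have hb0 : ∀ f : W, b f ≠ 0 := fun f => by
    rw [hb]
    exact div_ne_zero (h2 f.1 f.2) (h0 f.1 f.2)
  obtain ⟨η, hη⟩ : ∃ η : W → L, ∀ f : W, η f = D (a f) / b f := ⟨_, fun _ => rfl⟩
  have hηb : ∀ f : W, η f * b f = D (a f) := fun f => by
    rw [hη, div_mul_cancel₀ _ (hb0 f)]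
  have hrel : ∀ f : W, b f ^ 2 = 4 * a f ^ 3 - algebraMap ℂ L Λ.g₂ * a f - algebraMap ℂ L Λ.g₃ := by
    intro f
    rw [ha, hb]
    exact weier_rel hX hA (hOn f.1 f.2) (h0 f.1 f.2)
  have hV : ∀ (f : W) Q, Ge Q (vo Q D) (η f) := fun f Q =>
    eta_reg hD0 (discr_ne Λ) (hrel f) (hb0 f) (hηb f) Q
  have hE : ∀ f : W, Ell ev P B₀ Λ u₀ (η f) (fun z y => α (T f z y).rep) := by
    intro f
    obtain ⟨k, hk⟩ := hk f.1 f.2
    refine ⟨?_, fun ε hε => ?_⟩
    · exact tau_loc hM hs hk hD hF hα hA (hT f) (hFR f.1 f.2) (h0 f.1 f.2) (h2 f.1 f.2) (by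
        rw [← ha, ← hb]
        exact hηb f)
    · exact tau_inf hF hα hx hu₀ (hT f) (hTF f) hj
        (fun ε hε => pt_inf s_binf hM (hHV f.1 f.2) hk hj hε) hε
  obtain ⟨U, g₀, K', hU, hUne, hg₀, hK', hbd⟩ := unif_bound (u₀ := u₀) s_binf hM hs hF hα hB hR hx hxB hxS
  have : Infinite W := hW.to_subtype
  obtain ⟨f, f', hff, B₁, hB₁⟩ := two_equal s_bfin s_binf hM hs hD hE hV hU hUne hg₀ hK'
    (fun f R' S' hRS z hz hS => by
      obtain ⟨k, hk⟩ := hk f.1 f.2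
      exact hbd (R f) (T f) (hT f) k hk (hFR f.1 f.2) (hHV f.1 f.2) (η f) (hE f) R' S' hRS z hz hS)
  refine ⟨f.1, f.2, f'.1, f'.2, fun h => hff (Subtype.ext h), fun i j => ?_⟩
  have h3 := eq_of_tau hM hF hA (hT f) (hT f') (hTF f) (hTF f') (h0 f.1 f.2) (h0 f'.1 f'.2) hB₁ i j
  rw [hval _ _ e (he i), hval _ _ e (he j), hval _ _ e (he i), hval _ _ e (he j)] at h3
  have h4 : ev (C (S f.1)) ^ e * ev (C (S f'.1)) ^ e ≠ 0 :=
    mul_ne_zero (pow_ne_zero _ (hSne _)) (pow_ne_zero _ (hSne _))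
  apply mul_left_cancel₀ h4
  linear_combination h3

/-- **Pseudo-geometric hyperbolicity.** -/
theorem pgh_surface (hX : ProjVariety F 2 y) (hK : GeneralType ℂ K 2)
    (hα : HolToTorus (Cone F) Λ α) (hA : WForms F Λ α A) (h0 : val y (A 0) ≠ 0)
    {B : Set (ℂ ⧸ Λ.lattice)} (hB : B.Finite) (hR : HasReduction F α B)
    {H : MvPolynomial (Fin (n + 1)) ℂ} (hH : IsForm H) (hy : val y H ≠ 0)
    (hHB : ∀ u ∈ Cone F, α u ∈ B → val u H = 0) : PseudoGeomHyp ℂ y := by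
  classical
  obtain ⟨S, k, hS, hk, hSm, -, -, -, -, G1, hG1, hG1y, hG1S, hall⟩ := allM hX le_rfl hα hB hR
  obtain ⟨hGH, hGHy, -, hent, hmero, -⟩ := hall H hH hy hHB
  have ht := alpha_trans hX hα hA h0 hB hR hH hy hHB
  obtain ⟨G2, hG2, hG2y, hfin⟩ := finish hX.sub.ne hX.sub.gen hA.form h0 hK ht
  obtain ⟨e, he⟩ := hA.form
  have hyOn : OnVar ℂ y y := ⟨Function.ne_iff.1 hX.sub.ne, fun _ _ h => h⟩
  have h2 : val y (A 2) ≠ 0 := by
    intro h2
    have h3 := weier_rel hX hA hyOn h0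
    rw [h2, zero_div] at h3
    apply ht
    refine ⟨4 * Polynomial.X ^ 3 - Polynomial.C Λ.g₂ * Polynomial.X - Polynomial.C Λ.g₃, ?_, ?_⟩
    · intro h4
      have h5 := congrArg (fun p : ℂ[X] => p.coeff 3) h4
      simp only [coeff_sub, coeff_C_mul, coeff_X, coeff_C, coeff_zero] at h5
      rw [show (4 : ℂ[X]) = C 4 from rfl, coeff_C_mul, coeff_X_pow] at h5
      norm_num at h5
    · simp only [map_sub, map_mul, map_pow, aeval_X, aeval_C, map_ofNat]
      rw [← h3]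
      ring
  refine ⟨G1 * H * G2 * A 0 * A 2, ?_, ?_, fun L _ _ _ c x hx hxG => ?_⟩
  · exact isForm_mul (isForm_mul (isForm_mul hGH hG2) ⟨e, he 0⟩) ⟨e, he 2⟩
  · have h3 : val y (G1 * H * G2 * A 0 * A 2) = val y (G1 * H) * val y G2 * val y (A 0) *
        val y (A 2) := by
      unfold Pool.Agent.W602.GT.val
      simp only [map_mul]
    rw [h3]
    exact mul_ne_zero (mul_ne_zero (mul_ne_zero hGHy hG2y) h0) h2
  · have h3 : val x (G1 * H * G2 * A 0 * A 2) = val x (G1 * H) * val x G2 * val x (A 0) *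
        val x (A 2) := by
      unfold Pool.Agent.W602.GT.val
      simp only [map_mul]
    rw [h3] at hxG
    have hx2 := right_ne_zero_of_mul hxG
    have hxG' := left_ne_zero_of_mul hxG
    have hx0 := right_ne_zero_of_mul hxG'
    have hxG'' := left_ne_zero_of_mul hxG'
    have hxG2 := right_ne_zero_of_mul hxG''
    have hxGH := left_ne_zero_of_mul hxG''
    have hxC : x ∈ Cone F := hX.pts hx
    have hxB : α x ∉ B := by
      intro h4
      apply hxGH
      rw [Pool.Agent.H918.SS.val_mul', hHB x hxC h4, mul_zero]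
    have hxS : ∀ g, HolIn F g → (∀ z, α (g z).rep = Submodule.Quotient.mk z) →
        ∀ z, Projectivization.mk ℂ x hxC.1 ≠ g z := by
      intro g hg hgα z hz
      apply hxGH
      obtain ⟨a0, ha0, hqr⟩ := rep_mk hxC.1
      rw [hz] at hqr
      rcases hent g hg with h5 | h5
      · exfalso
        obtain ⟨w, hw⟩ : ∃ w : ℂ, w ∉ Λ.lattice := ⟨_, Λ.ω₁_div_two_notMem_lattice⟩
        have h6 := hgα w
        rw [h5 w 0, hgα 0, Submodule.Quotient.mk_zero, eq_comm, Submodule.Quotient.mk_eq_zero] at h6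
        exact hw h6
      · have h6 := h5 z
        rw [hqr, Pool.Agent.H918.SS.val_smul_form hGH ha0] at h6
        exact h6
    rcases hfin L c x hx hxG2 (fun W hW hW1 _ =>
      two_maps hX hα hA hB hR hxC hxB hxS hx0 hx2 hW hW1) with h4 | ⟨g, hg, hgG, hgh⟩
    · exact h4
    · exfalso
      exact hgG (G1 * H) hGH hxGH (rat_zero hX hg hgh hGH hmero)

end Pool.Agent.H918.PF
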