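import Pool.Agent.H918.G.Geo
import Pool.Agent.H918.G.TendInf
import Pool.Agent.H918.G.ZerosFinite

/-! PROJECT PF (helper918), task PF2-PINF, by helper747. -/

set_option autoImplicit false

open Polynomial FF Pool.Agent.W603.LV Pool.Agent.W603.PV Pool.Agent.W602.GT Pool.Agent.N154.GG
open Filter Topology Metric
open Pool.Agent.W602.RG (HasValue PointedMaps)
open Pool.Agent.Y216 (OnVar)
open scoped Polynomial.Bivariate LinearAlgebra.Projectivization

namespace Pool.Agent.H918.PF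

variable {L : Type} [Field L] [Algebra ℂ L] {c : Place ℂ L} {ev : ℂ[X][Y] →ₐ[ℂ] L} {P : ℂ[X][Y]}
  {B₀ : Finset ℂ} {n : ℕ} {R : Fin (n + 1) → ℂ[X][Y]}

namespace H747

/-- a nonzero polynomial has no zeros near infinity -/
theorem exists_norm {p : ℂ[X]} (hp : p ≠ 0) : ∃ r : ℝ, ∀ z : ℂ, r ≤ ‖z‖ → p.eval z ≠ 0 := by
  refine ⟨p.cauchyBound, fun z hz h => ?_⟩
  have h1 : ‖z‖₊ < p.cauchyBound := IsRoot.norm_lt_cauchyBound hp h
  have h2 : ‖z‖ < (p.cauchyBound : ℝ) := h1
  linarith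

theorem ge_one {f : Fin (n + 1) → L} {x : Fin (n + 1) → ℂ} (hx : HasValue c x f)
    (hf : ∃ k, f k ≠ 0) {j : Fin (n + 1)} (hj : x j ≠ 0) :
    f j ≠ 0 ∧ ∀ i, Ge c 1 ((algebraMap ℂ L (x j) * f i - algebraMap ℂ L (x i) * f j) / f j) := by
  have hxj : algebraMap ℂ L (x j) ≠ 0 := (_root_.map_ne_zero _).2 hj
  have hD : ∀ i, Ge c (pord c f + 1) (algebraMap ℂ L (x j) * f i - algebraMap ℂ L (x i) * f j) := by
    intro i
    rcases hx j i with h | h
    · exact Or.inl h
    · exact Or.inr h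
  obtain ⟨k, hk, hkp⟩ := exists_pord c hf
  have hn : ¬ Ge c (pord c f + 1) (f j) := by
    intro h
    have h1 : Ge c (pord c f + 1) (algebraMap ℂ L (x k) * f j) := by
      have h2 := (Ge.const (P := c) (x k)).mul h
      rwa [zero_add] at h2
    have h3 := (hD k).add h1
    rw [sub_add_cancel] at h3
    rcases h3 with h3 | h3
    · exact (mul_ne_zero hxj hk) h3
    · rw [c.ord_mul hxj hk, c.ord_const hj, zero_add, hkp] at h3
      omega
  have hfj : f j ≠ 0 := fun h => hn (Or.inl h)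
  have hoj : c.ord (f j) = pord c f := by
    apply le_antisymm _ (pord_le c hfj)
    by_contra hcon
    exact hn (Or.inr (by omega))
  refine ⟨hfj, fun i => ?_⟩
  apply Ge.of_mul' hfj hoj
  rw [mul_div_cancel₀ _ hfj]
  exact (hD i).mono (by omega)

end H747

/-- PF2-PINF: the limit at infinity of a pointed map. -/
theorem pt_inf (hBI : S_BINF) [IsFF ℂ L] (hM : Model c ev P) {x : Fin (n + 1) → ℂ}
    (hx : HasValue c x fun k => ev (R k)) {k : Fin (n + 1)} (hk : ev (R k) ≠ 0) {j : Fin (n + 1)}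
    (hj : x j ≠ 0) {ε : ℝ} (hε : 0 < ε) : ∃ r : ℝ, ∀ z y : ℂ, r ≤ ‖z‖ → evalEval z y P = 0 →
      vec R z y j ≠ 0 ∧ ∀ i, ‖vec R z y i / vec R z y j - x i / x j‖ ≤ ε := by
  classical
  obtain ⟨hfj, hge⟩ := H747.ge_one hx ⟨k, hk⟩ hj
  have hxj : 0 < ‖x j‖ := norm_pos_iff.mpr hj
  obtain ⟨s, hs, hs0⟩ := zeros_finite hM hfj
  obtain ⟨r₀, hr₀⟩ := H747.exists_norm hs
  have key : ∀ i, ∃ r : ℝ, ∀ z y : ℂ, r ≤ ‖z‖ → evalEval z y P = 0 → vec R z y j ≠ 0 →
      ‖vec R z y i / vec R z y j - x i / x j‖ ≤ ε := by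
    intro i
    obtain ⟨r₁, hr₁⟩ := tend_inf hBI hM (hge i) (ε := ε * ‖x j‖) (by positivity)
    obtain ⟨R', S, hS, hRS⟩ := hM.frac
      ((algebraMap ℂ L (x j) * ev (R i) - algebraMap ℂ L (x i) * ev (R j)) / ev (R j))
    obtain ⟨r₂, hr₂⟩ := H747.exists_norm hS
    refine ⟨max r₁ r₂, fun z y hz hy hne => ?_⟩
    have hSz := hr₂ z ((le_max_right _ _).trans hz)
    have h1 := hr₁ R' S hRS z y ((le_max_left _ _).trans hz) hy hSz
    have hCC : ∀ a : ℂ, ev (C (C a)) = algebraMap ℂ L a := fun a => ev.commutes a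
    have h2 : ev (R' * R j - C S * (C (C (x j)) * R i - C (C (x i)) * R j)) = 0 := by
      rw [map_sub, map_mul, ← hRS, map_mul, map_sub, map_mul, map_mul, hCC, hCC]
      field_simp
      ring
    obtain ⟨E, hE⟩ := (hM.ker _).1 h2
    have h3 : evalEval z y (R' * R j - C S * (C (C (x j)) * R i - C (C (x i)) * R j)) = 0 := by
      rw [hE, evalEval_mul, hy, zero_mul]
    rw [evalEval_sub, evalEval_mul, evalEval_mul, evalEval_sub, evalEval_mul, evalEval_mul,
      evalEval_C, evalEval_C, evalEval_C, eval_C, eval_C, sub_eq_zero] at h3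
    have hSz' : 0 < ‖S.eval z‖ := norm_pos_iff.mpr hSz
    have hRj : 0 < ‖vec R z y j‖ := norm_pos_iff.mpr hne
    have h4 : ‖x j * vec R z y i - x i * vec R z y j‖ ≤ ε * ‖x j‖ * ‖vec R z y j‖ := by
      have h5 : ‖S.eval z‖ * ‖x j * vec R z y i - x i * vec R z y j‖ ≤
          ‖S.eval z‖ * (ε * ‖x j‖ * ‖vec R z y j‖) := by
        rw [← norm_mul]
        have h6 : S.eval z * (x j * vec R z y i - x i * vec R z y j) =
            evalEval z y R' * vec R z y j := h3.symm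
        rw [h6, norm_mul]
        calc ‖evalEval z y R'‖ * ‖vec R z y j‖ ≤ (ε * ‖x j‖ * ‖S.eval z‖) * ‖vec R z y j‖ :=
              mul_le_mul_of_nonneg_right h1 hRj.le
          _ = _ := by ring
      exact le_of_mul_le_mul_left h5 hSz'
    have h7 : vec R z y i / vec R z y j - x i / x j =
        (x j * vec R z y i - x i * vec R z y j) / (x j * vec R z y j) := by
      field_simp
    rw [h7, norm_div, norm_mul, div_le_iff₀ (by positivity)]
    linarith
  choose r hr using key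
  refine ⟨max r₀ (∑ i, |r i|), fun z y hz hy => ?_⟩
  have hne : vec R z y j ≠ 0 := by
    intro h0
    exact hr₀ z ((le_max_left _ _).trans hz) (hs0 z y hy h0)
  refine ⟨hne, fun i => hr i z y ?_ hy hne⟩
  have h1 : |r i| ≤ ∑ i, |r i| :=
    Finset.single_le_sum (f := fun i => |r i|) (fun i _ => abs_nonneg _) (Finset.mem_univ i)
  exact ((le_abs_self _).trans h1).trans ((le_max_right _ _).trans hz)

end Pool.Agent.H918.PF
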