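import Pool.Agent.H918.G.Defs

/-! PROJECT PF: the statements of `bound_fin` and `bound_inf` as propositions, for the tasks which
use them. -/

set_option autoImplicit false

open Polynomial FF Pool.Agent.W603.LV
open scoped Polynomial.Bivariate

namespace Pool.Agent.H918.PF

/-- the statement of `bound_fin` -/
def S_BFIN : Prop := ∀ (L : Type) [Field L] [Algebra ℂ L] [IsFF ℂ L] (c : Place ℂ L)
  (ev : ℂ[X][Y] →ₐ[ℂ] L) (P : ℂ[X][Y]), Model c ev P → ∀ h : L,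
    (∀ Q : Place ℂ L, Q ≠ c → Ge Q 0 h) → ∀ r : ℝ,
    ∃ K : ℝ, ∀ (R : ℂ[X][Y]) (S : ℂ[X]), h * ev (C S) = ev R → ∀ z y : ℂ, ‖z‖ ≤ r →
      evalEval z y P = 0 → S.eval z ≠ 0 → ‖evalEval z y R‖ ≤ K * ‖S.eval z‖

/-- the statement of `bound_inf` -/
def S_BINF : Prop := ∀ (L : Type) [Field L] [Algebra ℂ L] [IsFF ℂ L] (c : Place ℂ L)
  (ev : ℂ[X][Y] →ₐ[ℂ] L) (P : ℂ[X][Y]), Model c ev P → ∀ h : L, Ge c 0 h →
    ∃ K r : ℝ, ∀ (R : ℂ[X][Y]) (S : ℂ[X]), h * ev (C S) = ev R → ∀ z y : ℂ, r ≤ ‖z‖ →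
      evalEval z y P = 0 → S.eval z ≠ 0 → ‖evalEval z y R‖ ≤ K * ‖S.eval z‖

end Pool.Agent.H918.PF
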