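import Pool.Agent.H918.G.Main
import Pool.Agent.H916.Tow

/-! PROJECT PF: towers over surfaces of general type over elliptic curves. -/

set_option autoImplicit false

open FF Pool.Agent.W603.LV Pool.Agent.W603.PV Pool.Agent.W602.GT Pool.Agent.N154.GG
open Pool.Agent.W602.RG (HasValue PointedMaps PseudoGeomHyp)
open Pool.Agent.H918.SS (ProjVariety HasReduction)
open Pool.Agent.H916

namespace Pool.Agent.H918.PF

/-- `K` is the function field of a projective surface `X = {F = 0}` of general type (which may be
singular) with a holomorphic map `α` to an elliptic curve `ℂ / Λ`, given by the Weierstrass forms `A`,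
such that `X` has, for a finite set `B` of points of the elliptic curve, a semistable reduction which
is unramified outside of the fibres over `B` (`HasReduction`); the form `H` is not identically zero on
`X` and is zero on the fibres over `B`. -/
def OverElliptic (K : Type) [Field K] [Algebra ℂ K] : Prop :=
  ∃ (n : ℕ) (ι : Type) (F : ι → MvPolynomial (Fin (n + 1)) ℂ) (y : Fin (n + 1) → K)
    (Λ : PeriodPair) (α : (Fin (n + 1) → ℂ) → ℂ ⧸ Λ.lattice)
    (A : Fin 3 → MvPolynomial (Fin (n + 1)) ℂ) (B : Set (ℂ ⧸ Λ.lattice))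
    (H : MvPolynomial (Fin (n + 1)) ℂ), ProjVariety F 2 y ∧ GeneralType ℂ K 2 ∧
    HolToTorus (Cone F) Λ α ∧ WForms F Λ α A ∧ val y (A 0) ≠ 0 ∧ B.Finite ∧ HasReduction F α B ∧
    IsForm H ∧ val y H ≠ 0 ∧ ∀ u ∈ Cone F, α u ∈ B → val u H = 0

/-- The smallest class of function fields `K` of varieties over `ℂ` which contains the function fields
of surfaces of general type over elliptic curves (`OverElliptic`), such that `K` belongs to the class
whenever there are finitely many members `B l` of the class with embeddings `B l → K` (dominant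
rational maps from the variety `X` to the varieties `Y l`) such that the map from `X` to the product
of the `Y l` has relative dimension zero over its image, or its geometric generic fibre is a curve of
genus at least two (`HypFibres`; this is the case if `X` is of general type and the relative dimension
is at most one). With no `B l` this says that `K` is `ℂ` or the function field of a curve of genus at
least two. -/
inductive Tower : ∀ (K : Type) [Field K] [Algebra ℂ K], Prop
  | base {K : Type} [Field K] [Algebra ℂ K] (h : OverElliptic K) : Tower K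
  | step {K : Type} [Field K] [Algebra ℂ K] {r : ℕ} {B : Fin r → Type} [iB : ∀ l, Field (B l)]
      [iA : ∀ l, Algebra ℂ (B l)] (hess : Algebra.EssFiniteType ℂ K) (φ : ∀ l, B l →ₐ[ℂ] K)
      (hB : ∀ l, Tower (B l)) (h : HypFibres (⨆ l, (φ l).fieldRange)) : Tower K

theorem pgh_hom {B K : Type} [Field B] [Field K] [Algebra ℂ B] [Algebra ℂ K] (φ : B →ₐ[ℂ] K)
    {N : ℕ} {y : Fin (N + 1) → B} (h : PseudoGeomHyp ℂ y) : PseudoGeomHyp ℂ fun i => φ (y i) := by
  obtain ⟨G, hG, hGy, hB⟩ := h
  refine ⟨G, hG, fun h0 => hGy ((val_hom_eq φ y G).1 h0), fun L _ _ _ c x hx hxG => ?_⟩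
  have hx' : x ∈ VarPts ℂ y := ⟨hx.1, fun H hH hy => hx.2 H hH ((val_hom_eq φ y H).2 hy)⟩
  refine (hB L c x hx' hxG).subset ?_
  rintro _ ⟨f, hf, h1, h2, rfl⟩
  exact ⟨f, hf, fun H hH hy => h1 H hH ((val_hom_eq φ y H).2 hy), h2, rfl⟩

theorem OverElliptic.ess {K : Type} [Field K] [Algebra ℂ K] (h : OverElliptic K) :
    Algebra.EssFiniteType ℂ K := by
  obtain ⟨n, ι, F, y, Λ, α, A, B, H, hX, -⟩ := h
  exact ess_coords hX.sub.gen

theorem OverElliptic.pgh {K : Type} [Field K] [Algebra ℂ K] (h : OverElliptic K) {M : ℕ}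
    {x : Fin (M + 1) → K} (hx : x ≠ 0) (hgen : coords ℂ x = ⊤) : PseudoGeomHyp ℂ x := by
  obtain ⟨n, ι, F, y, Λ, α, A, B, H, hX, hK, hα, hA, h0, hB, hR, hH, hy, hHB⟩ := h
  have h1 := pgh_surface hX hK hα hA h0 hB hR hH hy hHB
  refine pgh_multi (r := 1) (N := fun _ => n) (y := fun _ => y) hx hgen (fun _ => hX.sub.ne) ?_
    fun _ => h1
  have h2 : (⨆ _ : Fin 1, coords ℂ y) = ⊤ := by
    rw [hX.sub.gen]
    simp
  rw [h2]
  refine Or.inl ⟨fun z => ?_⟩
  exact isAlgebraic_algebraMap (⟨z, IntermediateField.mem_top⟩ : (⊤ : IntermediateField ℂ K))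

theorem Tower.ess {K : Type} [Field K] [Algebra ℂ K] (h : Tower K) :
    Algebra.EssFiniteType ℂ K := by
  cases h with
  | base h => exact h.ess
  | step hess φ hB h => exact hess

/-- **Towers.** -/
theorem Tower.pgh {K : Type} [Field K] [Algebra ℂ K] (h : Tower K) :
    ∀ (M : ℕ) (x : Fin (M + 1) → K), x ≠ 0 → coords ℂ x = ⊤ → PseudoGeomHyp ℂ x := by
  induction h with
  | base h => exact fun M x hx hgen => h.pgh hx hgen
  | @step K _ _ r B iB iA hess φ hB h ih =>
    intro M x hx hgen
    choose N y' hy' hgen' using fun l => exists_model_ess (hB l).ess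
    have hy : ∀ l, (fun i => φ l (y' l i)) ≠ 0 := by
      intro l h0
      apply hy' l
      funext i
      have h1 := congrFun h0 i
      exact (φ l).injective (by rw [Pi.zero_apply, map_zero]; exact h1)
    have hC : (⨆ l, coords ℂ fun i => φ l (y' l i)) = ⨆ l, (φ l).fieldRange := by
      congr 1
      funext l
      rw [coords_map, hgen', ← AlgHom.fieldRange_eq_map]
    exact pgh_multi hx hgen (y := fun l i => φ l (y' l i)) hy (by rw [hC]; exact h)
      fun l => pgh_hom (φ l) (ih l (N l) (y' l) (hy' l) (hgen' l))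

end Pool.Agent.H918.PF
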