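import Pool.Agent.H918.G.PtInf
import Pool.Agent.H918.G.ExistsDisc
import Pool.Agent.H918.G.PtForm
import Pool.Agent.H918.G.DiscDeriv
import Pool.Agent.H918.G.ExistsChart
import Pool.Agent.H918.G.Two
import Pool.Agent.H918.G.PuiseuxInf
import Pool.Agent.H918.E.Push

/-! PROJECT PF: the uniform bound of the derivatives. -/

set_option autoImplicit false

open Polynomial FF Pool.Agent.W603.LV Pool.Agent.W603.PV Pool.Agent.W602.GT Pool.Agent.N154.GG
open Filter Topology Metric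
open Pool.Agent.W602.RG (HasValue PointedMaps)
open Pool.Agent.Y216 (OnVar)
open Pool.Agent.H918.SS (ProjVariety HasReduction rep_mk cone_smulF)
open Pool.Agent.H918.SS.H665p (tor)
open scoped Polynomial.Bivariate LinearAlgebra.Projectivization

namespace Pool.Agent.H918.PF

variable {L : Type} [Field L] [Algebra ℂ L] {c : Place ℂ L} {ev : ℂ[X][Y] →ₐ[ℂ] L} {P : ℂ[X][Y]}
  {B₀ : Finset ℂ} {n : ℕ} {ι : Type} {F : ι → MvPolynomial (Fin (n + 1)) ℂ} {Λ : PeriodPair}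
  {α : (Fin (n + 1) → ℂ) → ℂ ⧸ Λ.lattice} {A : Fin 3 → MvPolynomial (Fin (n + 1)) ℂ}

/-- local lifts of the compositions of holomorphic maps with the map to the elliptic curve -/
theorem tor_lift (hF : ∀ i, IsForm (F i)) (hα : HolToTorus (Cone F) Λ α) {U : Set ℂ} (hU : IsOpen U)
    {f : ℂ → ℙ ℂ (Fin (n + 1) → ℂ)} (hf : HolMapOn U f) (hfF : ∀ z ∈ U, (f z).rep ∈ Cone F) {z : ℂ}
    (hz : z ∈ U) : ∃ β : ℂ → ℂ, AnalyticAt ℂ β z ∧
      ∀ᶠ w in 𝓝 z, α (f w).rep = Submodule.Quotient.mk (β w) := by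
  obtain ⟨l, hl, hlf⟩ := Pool.Agent.H918.SS.H665p.lift hf hz
  have hlz : l z ∈ Cone F := by
    obtain ⟨-, c, hc, h1⟩ := hlf.self_of_nhds
    rw [h1]
    exact cone_smulF hF (hfF z hz) hc
  obtain ⟨a, ha, hae⟩ := tor hα hl hlz
  refine ⟨a, ha, ?_⟩
  filter_upwards [hlf, hae, hU.mem_nhds hz] with w h1 h2 hwU
  obtain ⟨-, c, hc, h3⟩ := h1
  have h4 := hfF w hwU
  rw [← h2 (by rw [h3]; exact cone_smulF hF h4 hc), h3, hα.homog _ h4 c hc]

/-- rescaling of holomorphic maps -/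
theorem hol_scale {ρ : ℝ} (hρ : 0 < ρ) {f : ℂ → ℙ ℂ (Fin (n + 1) → ℂ)} (hf : HolMapOn (ball 0 ρ) f) :
    HolMapOn (ball 0 1) fun t => f ((ρ : ℂ) * t) := by
  intro z hz
  have hz' : (ρ : ℂ) * z ∈ ball (0 : ℂ) ρ := by
    rw [mem_ball_zero_iff] at hz ⊢
    rw [norm_mul, Complex.norm_real, Real.norm_of_nonneg hρ.le]
    nlinarith
  obtain ⟨V, g, hV, hzV, hg, hgf⟩ := hf _ hz'
  refine ⟨(fun t : ℂ => (ρ : ℂ) * t) ⁻¹' V, fun t => g ((ρ : ℂ) * t),
    hV.preimage (continuous_const.mul continuous_id), hzV, ?_, fun w hw => hgf _ hw⟩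
  exact hg.comp ((differentiable_const _).mul differentiable_id).differentiableOn fun w hw => hw

/-- **The uniform bound.** -/
theorem unif_bound (hBI : S_BINF) [IsFF ℂ L] (hM : Model c ev P) (hs : SepOff P B₀)
    (hF : ∀ i, IsForm (F i)) (hα : HolToTorus (Cone F) Λ α) {B : Set (ℂ ⧸ Λ.lattice)}
    (hB : B.Finite) (hR : HasReduction F α B) {x : Fin (n + 1) → ℂ} (hx : x ∈ Cone F)
    (hxB : α x ∉ B) (hxS : ∀ g, HolIn F g → (∀ z, α (g z).rep = Submodule.Quotient.mk z) →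
      ∀ z, Projectivization.mk ℂ x hx.1 ≠ g z) (u₀ : ℂ) :
    ∃ (U : Set ℂ) (g₀ : ℂ → ℂ) (K : ℝ), IsOpen U ∧ U.Nonempty ∧ Branch P U g₀ ∧ 0 ≤ K ∧
      ∀ (R : Fin (n + 1) → ℂ[X][Y]) (T : ℂ → ℂ → ℙ ℂ (Fin (n + 1) → ℂ)), Pt P B₀ R T →
        ∀ k : Fin (n + 1), ev (R k) ≠ 0 → (∀ i, val (fun k => ev (R k)) (F i) = 0) →
        HasValue c x (fun k => ev (R k)) → ∀ η : L,
        Ell ev P B₀ Λ u₀ η (fun z y => α (T z y).rep) → ∀ (R' : ℂ[X][Y]) (S' : ℂ[X]),
          η * ev (C S') = ev R' → ∀ z ∈ U, S'.eval z ≠ 0 →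
            ‖evalEval z (g₀ z) R'‖ ≤ K * ‖S'.eval z‖ := by
  obtain ⟨N, ρ, a, hN, hρ, ha, ham, har⟩ := puiseux_inf hM.monic hM.pos hs
  obtain ⟨q, hq⟩ : ∃ q, q = Projectivization.mk ℂ x hx.1 := ⟨_, rfl⟩
  obtain ⟨a0, ha0, hqr⟩ := rep_mk hx.1
  rw [← hq] at hqr hxS
  have hqF : q.rep ∈ Cone F := by
    rw [hqr]
    exact cone_smulF hF hx ha0
  have hqα : α q.rep = α x := by
    rw [hqr, hα.homog _ hx _ ha0]
  obtain ⟨κ, K, hκ, hκ1, hK, hdisc⟩ := disc_deriv hF hα hB hR hqF (by rw [hqα]; exact hxB) hxS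
  have hκρ : 0 < κ * ρ := mul_pos hκ hρ
  obtain ⟨U, s, K', hU, hUne, hK', hsd, hsU⟩ := exists_chart hN hκρ
  have hsub : ball (0 : ℂ) (κ * ρ) \ {0} ⊆ ball (0 : ℂ) ρ \ {0} := by
    refine Set.diff_subset_diff_left (ball_subset_ball ?_)
    nlinarith
  have hUB : ∀ z ∈ U, z ∉ B₀ := by
    intro z hz
    have h1 := (har (s z) (hsub (hsU z hz).1)).1
    rwa [(hsU z hz).2.1] at h1
  have hg₀ : Branch P U (fun z => a (s z)) := by
    refine ⟨ha.comp hsd fun z hz => hsub (hsU z hz).1, fun z hz => ?_⟩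
    have h1 := (har (s z) (hsub (hsU z hz).1)).2
    rwa [(hsU z hz).2.1] at h1
  refine ⟨U, fun z => a (s z), K / ρ * K', hU, hUne, hg₀, by positivity, ?_⟩
  intro R T hT k hk hFR hval η hE R' S' hRS z hz hS
  obtain ⟨j, hj⟩ := Function.ne_iff.1 hx.1
  have hj : x j ≠ 0 := hj
  have hinf := fun (ε : ℝ) (hε : 0 < ε) => pt_inf hBI hM hval hk hj hε
  obtain ⟨φ, hφ, hφ0, hφt⟩ := exists_disc hM hs hT hk hx.1 hj hinf hN hρ ha ham har
  have hTF : ∀ z y : ℂ, z ∉ B₀ → evalEval z y P = 0 → (T z y).rep ∈ Cone F := fun z y hz hy =>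
    ⟨(T z y).rep_nonzero, fun i => pt_form hM hs hT hk (hF i) (hFR i) hz hy⟩
  have hφF : ∀ t ∈ ball (0 : ℂ) ρ, (φ t).rep ∈ Cone F := by
    intro t ht
    by_cases h0 : t = 0
    · rw [h0, hφ0, ← hq]
      exact hqF
    · rw [hφt t ⟨ht, h0⟩]
      exact hTF _ _ (har t ⟨ht, h0⟩).1 (har t ⟨ht, h0⟩).2
  -- the derivative at `s z`
  obtain ⟨hsz, hsz2, hsz3⟩ := hsU z hz
  have hszρ := hsub hsz
  obtain ⟨b, hb, hbe⟩ := tor_lift hF hα isOpen_ball hφ hφF hszρ.1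
  have hρ' : (ρ : ℂ) ≠ 0 := by exact_mod_cast hρ.ne'
  have hbd : ‖deriv b (s z)‖ ≤ K / ρ := by
    have h1 := hdisc (fun t => φ ((ρ : ℂ) * t)) (hol_scale hρ hφ) (by
      intro t ht
      refine hφF _ ?_
      rw [mem_ball_zero_iff] at ht ⊢
      rw [norm_mul, Complex.norm_real, Real.norm_of_nonneg hρ.le]
      nlinarith) (by
        simp only [mul_zero]
        rw [hφ0, hq]) (s z / ρ) (by
        rw [mem_ball_zero_iff, norm_div, Complex.norm_real, Real.norm_of_nonneg hρ.le,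
          div_lt_iff₀ hρ]
        exact mem_ball_zero_iff.1 hsz.1) (fun t => b ((ρ : ℂ) * t)) ?_ ?_
    · have e : deriv (fun t => b ((ρ : ℂ) * t)) (s z / ρ) = ρ * deriv b (s z) := by
        have h2 : HasDerivAt (fun t : ℂ => (ρ : ℂ) * t) (ρ : ℂ) (s z / ρ) := by
          simpa using (hasDerivAt_id (s z / ρ)).const_mul (ρ : ℂ)
        have h3 : HasDerivAt b (deriv b (s z)) ((ρ : ℂ) * (s z / ρ)) := by
          rw [mul_div_cancel₀ _ hρ']
          exact hb.differentiableAt.hasDerivAt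
        have h4 := h3.comp (s z / ρ) h2
        rw [show (fun t => b ((ρ : ℂ) * t)) = b ∘ fun t : ℂ => (ρ : ℂ) * t from rfl, h4.deriv]
        ring
      rw [e, norm_mul, Complex.norm_real, Real.norm_of_nonneg hρ.le] at h1
      rw [le_div_iff₀ hρ]
      linarith
    · refine AnalyticAt.fun_comp (g := b) (f := fun t : ℂ => (ρ : ℂ) * t) ?_
        (analyticAt_const.mul analyticAt_id)
      rw [mul_div_cancel₀ _ hρ']
      exact hb
    · have h2 : ContinuousAt (fun t : ℂ => (ρ : ℂ) * t) (s z / ρ) :=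
        (continuous_const.mul continuous_id).continuousAt
      have h6 : ∀ᶠ w in 𝓝 ((ρ : ℂ) * (s z / ρ)), α (φ w).rep = Submodule.Quotient.mk (b w) := by
        rw [mul_div_cancel₀ _ hρ']
        exact hbe
      exact h2.eventually h6
  -- comparison of the lifts
  obtain ⟨β, hβ, hβe⟩ := hE.loc U _ hU hUB hg₀ z hz
  have hsdz : DifferentiableAt ℂ s z := hsd.differentiableAt (hU.mem_nhds hz)
  have hcomp : ∀ᶠ w in 𝓝 z, b (s w) - β w = b (s z) - β z := by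
    have h1 : ∀ᶠ w in 𝓝 z, α (φ (s w)).rep = Submodule.Quotient.mk (b (s w)) :=
      hsdz.continuousAt.eventually hbe
    refine lat_const Λ (f := fun w => b (s w) - β w) ?_ ?_
    · exact (ContinuousAt.comp (f := s) (g := b) hb.continuousAt hsdz.continuousAt).sub
        hβ.continuousAt
    · filter_upwards [h1, hβe, hU.mem_nhds hz] with w hw1 hw2 hwU
      obtain ⟨h3, h4, -⟩ := hsU w hwU
      have h5 := hφt (s w) (hsub h3)
      rw [h4] at h5
      rw [h5] at hw1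
      rw [Submodule.Quotient.mk_sub, ← hw1, ← hw2.1, sub_self]
  have hder : deriv β z = deriv b (s z) * deriv s z := by
    have h1 : β =ᶠ[𝓝 z] fun w => b (s w) - (b (s z) - β z) := by
      filter_upwards [hcomp] with w hw
      rw [← hw]
      ring
    rw [h1.deriv_eq]
    have h2 : HasDerivAt (fun w => b (s w)) (deriv b (s z) * deriv s z) z :=
      hb.differentiableAt.hasDerivAt.comp z hsdz.hasDerivAt
    exact (h2.sub_const _).deriv
  have h1 := hβe.self_of_nhds.2 R' S' hRS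
  rw [← h1, hder, norm_mul, norm_mul, mul_comm]
  refine mul_le_mul_of_nonneg_right ?_ (norm_nonneg _)
  exact mul_le_mul hbd hsz3 (norm_nonneg _) (by positivity)

end Pool.Agent.H918.PF
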